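import Pool.Agent.H26.Bunchy.Coll

/-!
# The weight bound, and existence of stationary weights
-/

set_option autoImplicit false
set_option linter.unusedSectionVars false
set_option linter.deprecated false

namespace Pool.Agent.H26.Bunchy

open Pool.Agent.H75.Bunchy
open scoped Classical

variable {V K E : Type*} [Fintype V] [Fintype E] {s t : E → K} {σ : V → K} {a : V → E → V}
  {τ : E → E} {pr : E → ℝ} {μ : V → ℝ}

/-- flexible slots -/
noncomputable def flex (s : E → K) (σ : V → K) (a : V → E → V) (τ : E → E) :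
    Finset (V × Sym2 E) :=
  Finset.univ.filter fun x => ∃ e, s e = σ x.1 ∧ a x.1 e ≠ a x.1 (τ e) ∧ x = slot τ x.1 e

lemma tw_ne (hτ : Swp s t τ) (δ : Set (V × Sym2 E)) {p : V} {e : E} (h : a p e ≠ a p (τ e)) :
    tw τ δ a p e ≠ tw τ δ a p (τ e) := by
  rw [tw_tau hτ]
  unfold tw
  split_ifs
  · exact h.symm
  · exact h

lemma two_le_rank (ha : Typed s t σ a) (hcn : Conn s σ a) (hno : NoStable s t σ a) {e e' : E}
    (hs : s e' = s e) (ht : t e' = t e) {p : V} (hp : s e = σ p) (hne : a p e ≠ a p e') :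
    2 ≤ rank s t σ a := by
  obtain ⟨y, ⟨hpy, C, hC, hpC, hyC⟩, -⟩ := exists_partner ha hcn hno hs ht hp hne
  obtain ⟨_, _, _, _, hr⟩ := hC
  rw [← hr, ← Set.ncard_pair hpy]
  refine Set.ncard_le_ncard ?_ (Set.toFinite _)
  rintro x (rfl | rfl)
  · exact hpC
  · exact hyC

/-- **Weight bound.** -/
theorem weight_bound (hτ : Swp s t τ) (ha : Typed s t σ a) (hcn : Conn s σ a)
    (h : Stat s σ a pr μ) (hpr : ∀ e, pr (τ e) = pr e) (hsu : ∀ e, ∃ p, s e = σ p)
    (hno : ∀ δ, NoStable s t σ (tw τ δ a)) {ρ : ℕ} (hρ : ∀ δ, ρ ≤ rank s t σ (tw τ δ a))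
    (z : V) :
    (ρ : ℝ) * (2 * wt σ μ z + ∑ x ∈ flex s σ a τ, wt σ μ x.1) ≤ 2 := by
  obtain ⟨c, B, δ, hval, hB, hw⟩ := exists_top hτ ha hcn h hpr hsu hno z
  have hcoll : Coll s t σ (tw τ δ a) c := by
    obtain ⟨k, hk, u, hu, hcol⟩ := hval
    exact ⟨k, hk, u, hu, hcol δ fun _ _ => Iff.rfl⟩
  have hr := rank_mul_le (tw_typed hτ ha δ) (tw_conn hτ hcn δ) (h.tw hτ hpr δ) hsu hcoll z
  have h2' : (ρ : ℝ) ≤ rank s t σ (tw τ δ a) := by exact_mod_cast hρ δ
  have hc0 : 0 ≤ ∑ p ∈ c, wt σ μ p := Finset.sum_nonneg fun p _ => (wt_pos h.mu_pos p).le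
  have h3 : (ρ : ℝ) * ∑ p ∈ c, wt σ μ p ≤ 1 := (mul_le_mul_of_nonneg_right h2' hc0).trans hr
  have hsub : flex s σ a τ ⊆ B := by
    intro x hx
    unfold flex at hx
    rw [Finset.mem_filter] at hx
    obtain ⟨_, e, he, hxe, hx⟩ := hx
    rw [hx]
    exact hB _ _ he hxe
  have h4 : ∑ x ∈ flex s σ a τ, wt σ μ x.1 ≤ ∑ x ∈ B, wt σ μ x.1 :=
    Finset.sum_le_sum_of_subset_of_nonneg hsub fun x _ _ => (wt_pos h.mu_pos _).le
  have h5 := hw z
  unfold Phi at h5
  have h6 : 2 * wt σ μ z + ∑ x ∈ flex s σ a τ, wt σ μ x.1 ≤ 2 * ∑ p ∈ c, wt σ μ p := by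
    linarith
  have h7 := mul_le_mul_of_nonneg_left h6 (Nat.cast_nonneg (α := ℝ) ρ)
  linarith

section Perron

/-- Existence of stationary weights. -/
theorem exists_stat (ha : Typed s t σ a) (hcn : Conn s σ a) (hpr : ∀ e, 0 < pr e)
    (htot : ∀ p, ∑ e, (if s e = σ p then pr e else 0) = 1) [Nonempty V] :
    ∃ μ : V → ℝ, Stat s σ a pr μ := by
  -- the transition operator on measures
  set P : V → V → ℝ := fun p q => ∑ e, (if s e = σ p ∧ a p e = q then pr e else 0) with hP
  have hP0 : ∀ p q, 0 ≤ P p q := by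
    intro p q
    refine Finset.sum_nonneg fun e _ => ?_
    split_ifs
    · exact (hpr e).le
    · exact le_rfl
  have hPsum : ∀ p, ∑ q, P p q = 1 := by
    intro p
    rw [← htot p, hP, Finset.sum_comm]
    refine Finset.sum_congr rfl fun e _ => ?_
    by_cases hs : s e = σ p
    · simp [hs]
    · simp [hs]
  set T : Matrix V V ℝ := Matrix.of fun q p => P p q with hT
  -- a nonzero fixed vector
  have hex : ∃ v : V → ℝ, v ≠ 0 ∧ T.mulVec v = v := by
    have hdet : (T - 1).det = 0 := by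
      rw [← Matrix.det_transpose]
      refine Matrix.exists_mulVec_eq_zero_iff.1 ⟨fun _ => 1, ?_, ?_⟩
      · intro h
        obtain ⟨p⟩ := ‹Nonempty V›
        have := congrFun h p
        simp at this
      · ext p
        rw [Matrix.transpose_sub, Matrix.transpose_one, Matrix.sub_mulVec, Matrix.one_mulVec]
        simp only [Pi.sub_apply, Pi.zero_apply, Matrix.mulVec, dotProduct, Matrix.transpose_apply,
          mul_one, hT, Matrix.of_apply]
        rw [hPsum, sub_self]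
    obtain ⟨v, hv, hv'⟩ := Matrix.exists_mulVec_eq_zero_iff.2 hdet
    refine ⟨v, hv, ?_⟩
    rw [Matrix.sub_mulVec, Matrix.one_mulVec] at hv'
    exact sub_eq_zero.1 hv'
  obtain ⟨v, hv0, hv⟩ := hex
  have hvq : ∀ q, v q = ∑ p, P p q * v p := by
    intro q
    conv_lhs => rw [← hv]
    simp [Matrix.mulVec, dotProduct, hT]
  set m : V → ℝ := fun p => |v p| with hm
  have hle : ∀ q, m q ≤ ∑ p, P p q * m p := by
    intro q
    simp only [hm]
    rw [hvq q]
    refine (Finset.abs_sum_le_sum_abs _ _).trans (le_of_eq ?_)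
    refine Finset.sum_congr rfl fun p _ => ?_
    rw [abs_mul, abs_of_nonneg (hP0 p q)]
  have htotal : ∑ q, ∑ p, P p q * m p = ∑ q, m q := by
    rw [Finset.sum_comm]
    refine Finset.sum_congr rfl fun p _ => ?_
    rw [← Finset.sum_mul, hPsum, one_mul]
  have heq : ∀ q, m q = ∑ p, P p q * m p := by
    have h1 : ∑ q, (∑ p, P p q * m p - m q) = 0 := by
      rw [Finset.sum_sub_distrib, htotal, sub_self]
    rw [Finset.sum_eq_zero_iff_of_nonneg (fun q _ => sub_nonneg.2 (hle q))] at h1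
    intro q
    have := h1 q (Finset.mem_univ _)
    linarith
  have hm0 : ∀ p, 0 ≤ m p := fun p => abs_nonneg _
  have hex : ∃ p, 0 < m p := by
    by_contra hcon
    push Not at hcon
    apply hv0
    funext p
    have := le_antisymm (hcon p) (hm0 p)
    simpa [hm] using this
  have hstep : ∀ p q, Step s σ a p q → 0 < m p → 0 < m q := by
    rintro p q ⟨e, he, hq⟩ hp
    rw [heq q]
    refine Finset.sum_pos' (fun p' _ => mul_nonneg (hP0 _ _) (hm0 _)) ⟨p, Finset.mem_univ _, ?_⟩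
    refine mul_pos ?_ hp
    refine Finset.sum_pos' (fun e' _ => ?_) ⟨e, Finset.mem_univ _, ?_⟩
    · split_ifs
      · exact (hpr e').le
      · exact le_rfl
    · rw [if_pos ⟨he, hq⟩]; exact hpr e
  have hpos : ∀ q, 0 < m q := by
    obtain ⟨p, hp⟩ := hex
    intro q
    have := hcn p q
    induction this with
    | refl => exact hp
    | tail _ h ih => exact hstep _ _ h ih
  refine ⟨m, hpr, hpos, fun q => ?_⟩
  conv_rhs => rw [heq q]
  refine Finset.sum_congr rfl fun p _ => ?_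
  rw [hP, Finset.sum_mul]
  refine Finset.sum_congr rfl fun e _ => ?_
  split_ifs <;> simp

end Perron

end Pool.Agent.H26.Bunchy
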