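import Pool.Agent.H26.Bunchy.Max

/-!
# Weight of collapsible sets
-/

set_option autoImplicit false
set_option linter.unusedSectionVars false
set_option linter.deprecated false

namespace Pool.Agent.H26.Bunchy

open Pool.Agent.H75.Bunchy
open scoped Classical

variable {V K E : Type*} [Fintype V] [Fintype E] {s t : E → K} {σ : V → K} {a : V → E → V}
  {pr : E → ℝ} {μ : V → ℝ}

/-- a set of states of one type, mapped to one state by one word -/
def Coll (s t : E → K) (σ : V → K) (a : V → E → V) (c : Finset V) : Prop :=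
  ∃ k, (∀ x ∈ c, σ x = k) ∧ ∃ u, Valid s t k u ∧ ∀ x ∈ c, ∀ y ∈ c, run a x u = run a y u

lemma id_swp : Swp s t (fun e : E => e) := ⟨fun _ => rfl, fun _ => rfl, fun _ => rfl⟩

lemma tw_id (δ : Set (V × Sym2 E)) : tw (fun e : E => e) δ a = a := by
  funext p e; simp [tw]

lemma val_id {c : Finset V} {B : Finset (V × Sym2 E)} {δ : Set (V × Sym2 E)} :
    Val s t σ a (fun e : E => e) c B δ ↔ Coll s t σ a c := by
  constructor
  · rintro ⟨k, hk, u, hu, h⟩
    refine ⟨k, hk, u, hu, ?_⟩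
    have := h δ (fun _ _ => Iff.rfl)
    rw [tw_id] at this
    exact this
  · rintro ⟨k, hk, u, hu, h⟩
    refine ⟨k, hk, u, hu, fun δ' _ => ?_⟩
    rw [tw_id]; exact h

/-- The heaviest collapsible sets: all their preimages are as heavy. -/
lemma exists_heaviest (ha : Typed s t σ a) (h : Stat s σ a pr μ) (hsu : ∀ e, ∃ p, s e = σ p)
    (z₀ : V) : ∃ M : ℝ, 0 < M ∧ (∀ c, Coll s t σ a c → ∑ p ∈ c, wt σ μ p ≤ M) ∧
      ∃ c, Coll s t σ a c ∧ c.Nonempty ∧ ∀ z ∈ c, ∀ v j, Valid s t j v → fin t j v = σ z →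
        Coll s t σ a (pre σ a c v j) ∧ ∑ p ∈ pre σ a c v j, wt σ μ p = M := by
  have hPhi0 : ∀ c : Finset V, Phi σ μ c (∅ : Finset (V × Sym2 E)) = ∑ p ∈ c, wt σ μ p := by
    intro c; simp [Phi]
  have hsing : ∀ z : V, Coll s t σ a {z} := by
    intro z
    refine ⟨σ z, ?_, [], trivial, ?_⟩
    · intro x hx
      rw [Finset.mem_singleton] at hx
      rw [hx]
    · intro x hx y hy
      rw [Finset.mem_singleton] at hx hy
      rw [hx, hy]
  obtain ⟨c, hc, hmax⟩ := Set.exists_max_image {c : Finset V | Coll s t σ a c}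
    (fun c => ∑ p ∈ c, wt σ μ p) (Set.toFinite _) ⟨{z₀}, hsing z₀⟩
  set M := ∑ p ∈ c, wt σ μ p with hM
  have hM0 : 0 < M := by
    have := hmax _ (hsing z₀)
    simp only [Finset.sum_singleton] at this
    exact lt_of_lt_of_le (wt_pos h.mu_pos z₀) this
  have hne : c.Nonempty := by
    rw [Finset.nonempty_iff_ne_empty]
    rintro rfl
    rw [hM, Finset.sum_empty] at hM0
    exact lt_irrefl _ hM0
  have hM' : ∀ c' B' δ', Val s t σ a (fun e : E => e) c' B' δ' → Phi σ μ c' B' ≤ M := by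
    intro c' B' δ' hv
    rw [val_id] at hv
    exact (Phi_le h.mu_pos c' B').trans (hmax c' hv)
  have hN' : ∀ c' B' δ', Val s t σ a (fun e : E => e) c' B' δ' → Phi σ μ c' B' = M →
      B'.card ≤ (∅ : Finset (V × Sym2 E)).card := by
    intro c' B' δ' hv he
    rw [val_id] at hv
    have h1 := hmax c' hv
    have h2 : ∑ x ∈ B', wt σ μ x.1 ≤ 0 := by
      unfold Phi at he
      have h3 : ∑ p ∈ c', wt σ μ p ≤ M := h1
      linarith
    rw [Finset.card_empty, Nat.le_zero, Finset.card_eq_zero]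
    by_contra hB
    obtain ⟨x, hx⟩ := Finset.nonempty_iff_ne_empty.2 hB
    have h4 : 0 < ∑ x ∈ B', wt σ μ x.1 :=
      Finset.sum_pos (fun y _ => wt_pos h.mu_pos _) ⟨x, hx⟩
    linarith
  have htop : Top s t σ a (fun e : E => e) μ M c ∅ ∅ := ⟨val_id.2 hc, hPhi0 c⟩
  refine ⟨M, hM0, hmax, c, hc, hne, fun z hz v j hv hf => ?_⟩
  have h1 := htop.words id_swp ha h (fun _ => rfl) hsu hM0 hM' hN' hz v j hv hf
  rw [tw_id] at h1
  exact ⟨val_id.1 h1.val, by rw [← hPhi0]; exact h1.eq⟩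

/-- A collapsible set has relative weight at most `1 / rank`. -/
theorem rank_mul_le (ha : Typed s t σ a) (hcn : Conn s σ a) (h : Stat s σ a pr μ)
    (hsu : ∀ e, ∃ p, s e = σ p) {c : Finset V} (hc : Coll s t σ a c) (z₀ : V) :
    (rank s t σ a : ℝ) * ∑ p ∈ c, wt σ μ p ≤ 1 := by
  obtain ⟨M, hM0, hM, c₀, hc₀, ⟨z, hz⟩, hpre⟩ := exists_heaviest (t := t) ha h hsu z₀
  obtain ⟨T, hT, hzT⟩ := exists_FC (s := s) (t := t) ha hcn z₀
  have hTd := hT.deadSet ha
  have hTt : ∀ x ∈ T, σ x = σ z₀ := fun x hx => hT.type ha hx hzT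
  have hTcard : T.ncard = rank s t σ a := by
    obtain ⟨_, _, _, _, hr⟩ := hT
    exact hr
  -- disjoint heavy sets around the elements of the clique
  have key : ∀ Z : Finset V, (∀ x ∈ Z, x ∈ T) → ∃ (u : List E) (C : V → Finset V),
      Valid s t (σ z₀) u ∧ ∀ x ∈ Z, (∀ y ∈ C x, σ y = σ z₀) ∧ x ∈ C x ∧
        ∑ p ∈ C x, wt σ μ p = M ∧ ∀ y ∈ C x, run a y u = run a x u := by
    intro Z
    induction Z using Finset.induction_on with
    | empty => intro _; exact ⟨[], fun _ => ∅, trivial, by simp⟩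
    | insert x₁ Z hx₁ ih =>
      intro hZ
      obtain ⟨u, C, hu, hC⟩ := ih fun x hx => hZ x (Finset.mem_insert_of_mem hx)
      have hx₁T := hZ x₁ (Finset.mem_insert_self _ _)
      -- go from `x₁ u` to `z`
      obtain ⟨v, hv, hvz⟩ := exists_word ha (hcn (run a x₁ u) z)
      have hty : σ (run a x₁ u) = fin t (σ z₀) u := by
        rw [ha.run x₁ u (by rw [hTt _ hx₁T]; exact hu), hTt _ hx₁T]
      rw [hty] at hv
      have huv : Valid s t (σ z₀) (u ++ v) := by rw [valid_append]; exact ⟨hu, hv⟩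
      have hrz : run a x₁ (u ++ v) = z := by rw [run_append, hvz]
      have hfin : fin t (σ z₀) (u ++ v) = σ z := by
        rw [← hrz, ha.run x₁ _ (by rw [hTt _ hx₁T]; exact huv), hTt _ hx₁T]
      obtain ⟨k, hk, w, hw, hcol⟩ := hc₀
      have hkz : k = σ z := (hk z hz).symm
      have huvw : Valid s t (σ z₀) (u ++ (v ++ w)) := by
        rw [← List.append_assoc, valid_append, hfin, ← hkz]
        exact ⟨huv, hw⟩
      refine ⟨u ++ (v ++ w), fun x => if x = x₁ then pre σ a c₀ (u ++ v) (σ z₀) else C x,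
        huvw, ?_⟩
      intro x hx
      by_cases hxx : x = x₁
      · subst hxx
        simp only [if_true]
        have h1 := (hpre z hz (u ++ v) (σ z₀) huv hfin).2
        have hmem : ∀ y, y ∈ pre σ a c₀ (u ++ v) (σ z₀) ↔ σ y = σ z₀ ∧ run a y (u ++ v) ∈ c₀ :=
          fun y => mem_pre
        refine ⟨fun y hy => ((hmem y).1 hy).1, ?_, h1, ?_⟩
        · rw [hmem]; exact ⟨hTt _ hx₁T, by rw [hrz]; exact hz⟩
        · intro y hy
          rw [← List.append_assoc, run_append, run_append (u := u ++ v), hrz]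
          exact hcol _ ((hmem y).1 hy).2 _ hz
      · rw [Finset.mem_insert] at hx
        rcases hx with h | h
        · exact absurd h hxx
        · obtain ⟨h1, h2, h3, h4⟩ := hC x h
          simp only [hxx, if_false]
          refine ⟨h1, h2, h3, fun y hy => ?_⟩
          rw [run_append y u, run_append x u, h4 y hy]
  have hC' : ∀ x, x ∈ T.toFinite.toFinset ↔ x ∈ T := fun x => Set.Finite.mem_toFinset _
  obtain ⟨u, C, hu, hC⟩ := key (T.toFinite.toFinset) (fun x hx => (hC' x).1 hx)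
  have hdisj : (T.toFinite.toFinset : Set V).PairwiseDisjoint C := by
    intro x hx y hy hxy
    rw [Function.onFun, Finset.disjoint_left]
    intro w hw hw'
    have hx1 : x ∈ T.toFinite.toFinset := hx
    have hy1 : y ∈ T.toFinite.toFinset := hy
    have hx' : x ∈ T := (hC' x).1 hx1
    have hy' : y ∈ T := (hC' y).1 hy1
    have h1 := (hC x hx1).2.2.2 w hw
    have h2 := (hC y hy1).2.2.2 w hw'
    exact (hTd x hx' y hy' hxy).2 u (by rw [hTt x hx']; exact hu) (by rw [← h1, ← h2])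
  have hsum : ∑ x ∈ T.toFinite.toFinset, ∑ p ∈ C x, wt σ μ p ≤ 1 := by
    rw [← Finset.sum_biUnion hdisj, ← sum_wt_fibre (σ := σ) h.mu_pos z₀]
    refine Finset.sum_le_sum_of_subset_of_nonneg ?_ (fun p _ _ => (wt_pos h.mu_pos p).le)
    intro p hp
    rw [Finset.mem_biUnion] at hp
    obtain ⟨x, hx, hp⟩ := hp
    rw [Finset.mem_filter]
    exact ⟨Finset.mem_univ _, (hC x hx).1 p hp⟩
  have hsum' : ∑ x ∈ T.toFinite.toFinset, ∑ p ∈ C x, wt σ μ p = (rank s t σ a : ℝ) * M := by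
    rw [Finset.sum_congr rfl (fun x hx => (hC x hx).2.2.1), Finset.sum_const, nsmul_eq_mul,
      ← Set.ncard_eq_toFinset_card T T.toFinite, hTcard]
  rw [hsum'] at hsum
  refine le_trans ?_ hsum
  exact mul_le_mul_of_nonneg_left (hM c hc) (Nat.cast_nonneg _)

end Pool.Agent.H26.Bunchy
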