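import Pool.Agent.H75.Bunchy.Graph

/-!
# Fair weights

Definitions for the weight bound in the bunchy factor problem `MP_644d19_co`.
-/

set_option autoImplicit false

namespace Pool.Agent.H26.Bunchy

open Pool.Agent.H75.Bunchy

/-- Fair weights for a vertex map `v` from `H` to `B` : every edge of `B` from `I` to `J` has the
probability `pr I J > 0` (the same for all edges from `I` to `J`), the probabilities of the edges
starting at one vertex of `B` sum to `1`, and `μ > 0` is stationary for the walk on `H` that follows
an edge `f` with the probability `pr` of its image. -/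
structure FairWeights {H B : Graph} (v : H.V → B.V) (pr : B.V → B.V → ℝ) (μ : H.V → ℝ) :
    Prop where
  pos : ∀ g : B.E, 0 < pr (B.src g) (B.tgt g)
  total : ∀ I : B.V, ∑ᶠ g ∈ {g : B.E | B.src g = I}, pr I (B.tgt g) = 1
  mu_pos : ∀ x, 0 < μ x
  stat : ∀ y, ∑ᶠ f ∈ {f : H.E | H.tgt f = y}, pr (v (H.src f)) (v y) * μ (H.src f) = μ y

/-- the share of `x` in the total weight of the vertices with the same image -/
noncomputable def share {H B : Graph} (v : H.V → B.V) (μ : H.V → ℝ) (x : H.V) : ℝ :=
  μ x / ∑ᶠ y ∈ {y | v y = v x}, μ y

/-- the number of vertices `J` of `B` over which `x` has at least two followers -/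
noncomputable def splits {H B : Graph} (v : H.V → B.V) (x : H.V) : ℕ :=
  {J | 2 ≤ (FollowersOver v x J).ncard}.ncard

end Pool.Agent.H26.Bunchy
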