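import Pool.Agent.H26.Bunchy.Bound
import Pool.Agent.H26.Bunchy.Defs
import Pool.Agent.H75.Bunchy.Main

/-!
# The weight bound for graphs
-/

set_option autoImplicit false
set_option linter.unusedSectionVars false
set_option linter.deprecated false

namespace Pool.Agent.H26.Bunchy

open Pool.Agent.H75.Bunchy
open scoped Classical

noncomputable local instance (G : Graph) : Fintype G.V := Fintype.ofFinite _
noncomputable local instance (G : Graph) : Fintype G.E := Fintype.ofFinite _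

section
variable {G H : Graph}

/-- all twists of a right resolver are recolourings -/
lemma exists_twist (Φ : RightResolver G H) {τ : H.E → H.E} (hτ : Swp H.src H.tgt τ)
    (δ : Set (G.V × Sym2 H.E)) :
    ∃ Φ' : RightResolver G H, Φ'.v = Φ.v ∧ Φ'.act = tw τ δ Φ.act := by
  have hinv : ∀ p : G.V, Function.Involutive (fun e => if slot τ p e ∈ δ then τ e else e) := by
    intro p e
    by_cases h : slot τ p e ∈ δ
    · simp only [h, if_true, slot_tau hτ, hτ.inv]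
    · simp only [h, if_false]
  obtain ⟨Φ', hv, hΦ'⟩ := Φ.exists_recolor (fun p π => π = (hinv p).toPerm) (by
    intro p
    refine ⟨_, ?_, rfl⟩
    intro e
    rw [Function.Involutive.coe_toPerm]
    split_ifs
    · exact ⟨hτ.hs e, hτ.ht e⟩
    · exact ⟨rfl, rfl⟩)
  refine ⟨Φ', hv, ?_⟩
  funext p e
  obtain ⟨π, _, hπ, hact⟩ := hΦ' p
  rw [hact, hπ, Function.Involutive.coe_toPerm]
  unfold tw
  split_ifs <;> rfl

/-- fair weights are stationary for the associated automaton -/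
lemma FairWeights.toStat (Φ : RightResolver G H) {pr : H.V → H.V → ℝ} {μ : G.V → ℝ}
    (h : FairWeights Φ.v pr μ) :
    Stat H.src Φ.v Φ.act (fun e => pr (H.src e) (H.tgt e)) μ := by
  refine ⟨h.pos, h.mu_pos, fun q => ?_⟩
  rw [← h.stat q]
  rw [finsum_mem_eq_finite_toFinset_sum _ (Set.toFinite _)]
  rw [← Finset.sum_product', ← Finset.sum_filter]
  symm
  refine Finset.sum_bij (fun f _ => (G.src f, Φ.e f)) ?_ ?_ ?_ ?_
  · intro f hf
    rw [Set.Finite.mem_toFinset] at hf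
    rw [Finset.mem_filter]
    refine ⟨Finset.mem_product.2 ⟨Finset.mem_univ _, Finset.mem_univ _⟩, Φ.src_comm f, ?_⟩
    rw [Φ.act_eq]; exact hf
  · intro f _ f' _ hff
    rw [Prod.mk.injEq] at hff
    exact Φ.edge_unique hff.1 hff.2
  · rintro ⟨p, e⟩ hpe
    rw [Finset.mem_filter] at hpe
    obtain ⟨_, h1, h2⟩ := hpe
    obtain ⟨f, rfl, rfl⟩ := Φ.exists_edge p h1
    rw [Φ.act_eq] at h2
    refine ⟨f, ?_, rfl⟩
    rw [Set.Finite.mem_toFinset]; exact h2
  · intro f hf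
    rw [Set.Finite.mem_toFinset] at hf
    have hf' : G.tgt f = q := hf
    simp only [Φ.src_comm, Φ.tgt_comm, hf']

lemma share_eq (v : G.V → H.V) (μ : G.V → ℝ) (x : G.V) : share v μ x = wt v μ x := by
  unfold share wt mass
  congr 1
  rw [finsum_mem_eq_finite_toFinset_sum _ (Set.toFinite _), ← Finset.sum_filter]
  refine Finset.sum_congr ?_ fun _ _ => rfl
  ext y
  rw [Set.Finite.mem_toFinset, Finset.mem_filter]
  simp

/-- a choice of two letters in each multiple edge -/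
lemma exists_pairing (H : Graph) : ∃ τ : H.E → H.E, Swp H.src H.tgt τ ∧
    (∀ I J, 2 ≤ H.mult I J → ∃ e, H.src e = I ∧ H.tgt e = J ∧ τ e ≠ e) ∧
    ∀ e e', H.src e' = H.src e → H.tgt e' = H.tgt e → τ e ≠ e → τ e' ≠ e' →
      e' = e ∨ e' = τ e := by
  have hex : ∀ I J : H.V, ∃ A : Set H.E, (∀ x ∈ A, H.src x = I ∧ H.tgt x = J) ∧
      ((∃ x y, x ≠ y ∧ A = {x, y}) ∨ (A = ∅ ∧ ¬ 2 ≤ H.mult I J)) := by
    intro I J
    by_cases h : 2 ≤ H.mult I J
    · obtain ⟨x, hx, y, hy, hxy⟩ := (Set.one_lt_ncard_iff_nontrivial_and_finite.1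
        (lt_of_lt_of_le one_lt_two h)).1
      refine ⟨{x, y}, ?_, Or.inl ⟨x, y, hxy, rfl⟩⟩
      rintro z (rfl | rfl)
      · exact hx
      · exact hy
    · exact ⟨∅, by simp, Or.inr ⟨rfl, h⟩⟩
  choose A hA1 hA2 using hex
  have hτ : ∀ e : H.E, ∃ e', (e' = e ∧ e ∉ A (H.src e) (H.tgt e)) ∨
      (e' ≠ e ∧ A (H.src e) (H.tgt e) = {e, e'}) := by
    intro e
    by_cases he : e ∈ A (H.src e) (H.tgt e)
    · rcases hA2 (H.src e) (H.tgt e) with ⟨x, y, hxy, hA⟩ | ⟨hA, _⟩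
      · rw [hA] at he
        rcases he with he | he
        · exact ⟨y, Or.inr ⟨fun h => hxy (by rw [h, he]), by rw [hA, he]⟩⟩
        · rw [Set.mem_singleton_iff] at he
          exact ⟨x, Or.inr ⟨fun h => hxy (by rw [h, he]), by rw [hA, he, Set.pair_comm]⟩⟩
      · rw [hA] at he; exact absurd he (Set.notMem_empty _)
    · exact ⟨e, Or.inl ⟨rfl, he⟩⟩
  choose τ hτ using hτ
  have hbase : ∀ e, H.src (τ e) = H.src e ∧ H.tgt (τ e) = H.tgt e := by
    intro e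
    rcases hτ e with ⟨h, _⟩ | ⟨_, h⟩
    · rw [h]; exact ⟨rfl, rfl⟩
    · exact hA1 _ _ (τ e) (by rw [h]; exact Or.inr rfl)
  refine ⟨τ, ⟨?_, fun e => (hbase e).1, fun e => (hbase e).2⟩, ?_, ?_⟩
  · intro e
    rcases hτ e with ⟨h, _⟩ | ⟨hne, h⟩
    · rw [h, h]
    · rcases hτ (τ e) with ⟨_, h'⟩ | ⟨hne', h'⟩
      · rw [(hbase e).1, (hbase e).2, h] at h'
        exact absurd (Or.inr rfl) h'
      · rw [(hbase e).1, (hbase e).2, h] at h'
        have h1 : e ∈ ({τ e, τ (τ e)} : Set H.E) := by rw [← h']; exact Or.inl rfl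
        rcases h1 with h1 | h1
        · exact absurd h1.symm hne
        · exact h1.symm
  · intro I J hIJ
    rcases hA2 I J with ⟨x, y, hxy, hA⟩ | ⟨_, h⟩
    · have hx := hA1 I J x (by rw [hA]; exact Or.inl rfl)
      refine ⟨x, hx.1, hx.2, ?_⟩
      rcases hτ x with ⟨_, h⟩ | ⟨h, _⟩
      · rw [hx.1, hx.2, hA] at h
        exact absurd (Or.inl rfl) h
      · exact h
    · exact absurd hIJ h
  · intro e e' h1 h2 h3 h4
    rcases hτ e with ⟨h5, _⟩ | ⟨_, h5⟩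
    · exact absurd h5 h3
    · rcases hτ e' with ⟨h6, _⟩ | ⟨_, h6⟩
      · exact absurd h6 h4
      · rw [h1, h2, h5] at h6
        have : e' ∈ ({e, τ e} : Set H.E) := by rw [h6]; exact Or.inl rfl
        exact this

/-- gluing permutations of the bundles -/
lemma exists_glue (π : H.V → H.V → Equiv.Perm H.E)
    (hπ : ∀ I J g, H.src (π I J g) = H.src g ∧ H.tgt (π I J g) = H.tgt g) :
    ∃ ρ : Equiv.Perm H.E, ∀ e, ρ e = π (H.src e) (H.tgt e) e := by
  have hinv : ∀ I J g, H.src ((π I J).symm g) = H.src g ∧ H.tgt ((π I J).symm g) = H.tgt g := by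
    intro I J g
    have := hπ I J ((π I J).symm g)
    rw [Equiv.apply_symm_apply] at this
    exact ⟨this.1.symm, this.2.symm⟩
  refine ⟨⟨fun e => π (H.src e) (H.tgt e) e, fun e => (π (H.src e) (H.tgt e)).symm e, ?_, ?_⟩,
    fun e => rfl⟩
  · intro e
    simp only [(hπ _ _ _).1, (hπ _ _ _).2, Equiv.symm_apply_apply]
  · intro e
    simp only [(hinv _ _ _).1, (hinv _ _ _).2, Equiv.apply_symm_apply]

/-- a recolouring for which the paired letters differ wherever possible -/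
lemma exists_spread (Φ : RightResolver G H) {τ : H.E → H.E} (hτ : Swp H.src H.tgt τ)
    (hone : ∀ e e', H.src e' = H.src e → H.tgt e' = H.tgt e → τ e ≠ e → τ e' ≠ e' →
      e' = e ∨ e' = τ e) :
    ∃ Φ' : RightResolver G H, Φ'.v = Φ.v ∧ ∀ p e, H.src e = Φ.v p → τ e ≠ e →
      2 ≤ (FollowersOver Φ.v p (H.tgt e)).ncard → Φ'.act p e ≠ Φ'.act p (τ e) := by
  -- permutations for single bundles
  have h1 : ∀ (p : G.V) (I J : H.V), ∃ π : Equiv.Perm H.E,
      (∀ g, H.src (π g) = H.src g ∧ H.tgt (π g) = H.tgt g) ∧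
      ∀ e, H.src e = I → H.tgt e = J → H.src e = Φ.v p → τ e ≠ e →
        2 ≤ (FollowersOver Φ.v p (H.tgt e)).ncard → Φ.act p (π e) ≠ Φ.act p (π (τ e)) := by
    intro p I J
    by_cases hex : ∃ e, H.src e = I ∧ H.tgt e = J ∧ H.src e = Φ.v p ∧ τ e ≠ e ∧
        2 ≤ (FollowersOver Φ.v p (H.tgt e)).ncard
    · obtain ⟨e, hI, hJ, hp, he, h2⟩ := hex
      obtain ⟨q₁, hq₁, q₂, hq₂, hq⟩ := (Set.one_lt_ncard_iff_nontrivial_and_finite.1
        (lt_of_lt_of_le one_lt_two h2)).1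
      rw [Φ.mem_followersOver] at hq₁ hq₂
      obtain ⟨f₁, a1, b1, c1⟩ := hq₁
      obtain ⟨f₂, a2, b2, c2⟩ := hq₂
      have hf : f₁ ≠ f₂ := fun h => hq (by rw [← c1, ← c2, h])
      obtain ⟨π, hπ, -, hπ1, hπ2⟩ := exists_perm2 H (e1 := e) (e2 := τ e) (f1 := f₁) (f2 := f₂)
        he.symm hf (hτ.hs e).symm (hτ.ht e).symm (by rw [hp, a1]) (by rw [b1])
        (by rw [hp, a2]) (by rw [b2])
      have hne : Φ.act p (π e) ≠ Φ.act p (π (τ e)) := by
        rw [hπ1, hπ2, c1, c2]; exact hq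
      refine ⟨π, hπ, ?_⟩
      intro e' hI' hJ' _ he' _
      rcases hone e e' (by rw [hI, hI']) (by rw [hJ, hJ']) he he' with h | h
      · rw [h]; exact hne
      · rw [h, hτ.inv]; exact hne.symm
    · exact ⟨1, fun _ => ⟨rfl, rfl⟩, fun e h1 h2 h3 h4 h5 =>
        absurd ⟨e, h1, h2, h3, h4, h5⟩ hex⟩
  choose π hπ hπ' using h1
  obtain ⟨Φ', hv, hΦ'⟩ := Φ.exists_recolor (fun p ρ => ∀ e, ρ e = π p (H.src e) (H.tgt e) e) (by
    intro p
    obtain ⟨ρ, hρ⟩ := exists_glue (π p) (hπ p)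
    refine ⟨ρ, fun g => ?_, hρ⟩
    rw [hρ]; exact hπ p _ _ g)
  refine ⟨Φ', hv, fun p e hp he h2 => ?_⟩
  obtain ⟨ρ, _, hρ, hact⟩ := hΦ' p
  rw [hact, hact, hρ, hρ, hτ.hs, hτ.ht]
  exact hπ' p _ _ e rfl rfl hp he h2

lemma two_le_rank_graph (Φ : RightResolver G H) (hG : G.StronglyConnected)
    (hno : NoStable H.src H.tgt Φ.v Φ.act) {p₀ : G.V} {J₀ : H.V}
    (h₀ : 2 ≤ (FollowersOver Φ.v p₀ J₀).ncard) : 2 ≤ rank H.src H.tgt Φ.v Φ.act := by
  obtain ⟨q₁, hq₁, q₂, hq₂, hq⟩ := (Set.one_lt_ncard_iff_nontrivial_and_finite.1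
    (lt_of_lt_of_le one_lt_two h₀)).1
  rw [Φ.mem_followersOver] at hq₁ hq₂
  obtain ⟨f₁, a1, b1, c1⟩ := hq₁
  obtain ⟨f₂, a2, b2, c2⟩ := hq₂
  exact two_le_rank Φ.act_typed (Φ.conn hG) hno (e := f₁) (e' := f₂) (by rw [a1, a2])
    (by rw [b1, b2]) a1 (by rw [c1, c2]; exact hq)

/-- the end vertices of a path -/
lemma ends_eq (Φ : RightResolver G H) {J : H.V} {u : List H.E} (hu : H.IsPath J u) :
    {K | ∃ I, Φ.v I = J ∧ Φ.Leads I u K} = img Φ.v Φ.act J u := by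
  ext K
  constructor
  · rintro ⟨I, rfl, h⟩
    rw [Φ.leads_iff] at h
    exact ⟨I, rfl, h.2⟩
  · rintro ⟨I, rfl, h⟩
    exact ⟨I, rfl, (Φ.leads_iff _ _ _).2 ⟨(isPath_iff _ _ _).1 hu, h⟩⟩

/-- **Weight bound for graphs without stable recolourings.** -/
theorem weight_bound_graph (Φ : RightResolver G H) (hG : G.StronglyConnected)
    (hno : ∀ Φ' : RightResolver G H, Φ'.v = Φ.v → NoStable H.src H.tgt Φ'.v Φ'.act)
    {ρ : ℕ} (hρ : ∀ Φ' : RightResolver G H, Φ'.v = Φ.v → ρ ≤ rank H.src H.tgt Φ'.v Φ'.act)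
    {pr : H.V → H.V → ℝ} {μ : G.V → ℝ} (hf : FairWeights Φ.v pr μ) (z : G.V) :
    (ρ : ℝ) * (2 * share Φ.v μ z + ∑ᶠ x, (splits Φ.v x : ℝ) * share Φ.v μ x) ≤ 2 := by
  obtain ⟨τ, hτ, hpair, hone⟩ := exists_pairing H
  obtain ⟨Φ', hv, hΦ'⟩ := exists_spread Φ hτ hone
  -- the letter of the pair over `J`
  have hlet : ∀ p J, 2 ≤ (FollowersOver Φ.v p J).ncard → ∃ e, H.src e = Φ.v p ∧ H.tgt e = J ∧
      Φ'.act p e ≠ Φ'.act p (τ e) := by
    intro p J h2
    obtain ⟨e, h3, h4, h5⟩ := hpair (Φ.v p) J (h2.trans (Φ.ncard_followersOver_le p J))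
    exact ⟨e, h3, h4, hΦ' p e h3 h5 (by rw [h4]; exact h2)⟩
  have hf' : FairWeights Φ'.v pr μ := by rw [hv]; exact hf
  have hstat := hf'.toStat
  have htwist : ∀ δ, ∃ Φ'' : RightResolver G H, Φ''.v = Φ.v ∧ Φ''.act = tw τ δ Φ'.act := by
    intro δ
    obtain ⟨Φ'', hv'', hact''⟩ := exists_twist Φ' hτ δ
    exact ⟨Φ'', by rw [hv'', hv], hact''⟩
  have hb := weight_bound (τ := τ) hτ Φ'.act_typed (Φ'.conn hG) hstat
    (fun e => by simp only [hτ.hs, hτ.ht])
    (fun e => by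
      obtain ⟨p, hp⟩ := Φ'.v_surj (H.src e)
      exact ⟨p, hp.symm⟩)
    (fun δ => by
      obtain ⟨Φ'', hv'', hact''⟩ := htwist δ
      have := hno Φ'' hv''
      rw [hv'', hact''] at this
      rw [hv]
      exact this)
    (ρ := ρ) (fun δ => by
      obtain ⟨Φ'', hv'', hact''⟩ := htwist δ
      have := hρ Φ'' hv''
      rw [hv'', hact''] at this
      rw [hv]
      exact this) z
  rw [hv] at hb
  rw [share_eq]
  refine le_trans (mul_le_mul_of_nonneg_left (add_le_add_right ?_ _)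
    (Nat.cast_nonneg (α := ℝ) ρ)) hb
  rw [finsum_eq_sum_of_fintype]
  simp only [share_eq]
  -- compare the sums
  by_cases hEne : Nonempty H.E
  swap
  · have h0 : ∀ x, (splits Φ.v x : ℝ) = 0 := by
      intro x
      rw [Nat.cast_eq_zero]
      unfold splits
      rw [Set.ncard_eq_zero (Set.toFinite _), Set.eq_empty_iff_forall_notMem]
      intro J hJ
      obtain ⟨e, _⟩ := hlet x J hJ
      exact hEne ⟨e⟩
    simp only [h0, zero_mul, Finset.sum_const_zero]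
    exact Finset.sum_nonneg fun x _ => (wt_pos hf.mu_pos _).le
  choose! e he1 he2 he3 using hlet
  set P : Finset (G.V × H.V) := Finset.univ.filter fun x => 2 ≤ (FollowersOver Φ.v x.1 x.2).ncard
    with hP
  have h1 : ∑ x, (splits Φ.v x : ℝ) * wt Φ.v μ x = ∑ x ∈ P, wt Φ.v μ x.1 := by
    rw [hP, Finset.sum_filter, ← Finset.univ_product_univ, Finset.sum_product]
    refine Finset.sum_congr rfl fun p _ => ?_
    simp only
    rw [← Finset.sum_filter, Finset.sum_const, nsmul_eq_mul]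
    congr 2
    unfold splits
    rw [Set.ncard_eq_toFinset_card _ (Set.toFinite _)]
    congr 1
    ext J
    rw [Set.Finite.mem_toFinset, Finset.mem_filter]
    simp
  rw [h1]
  have hinj : Set.InjOn (fun x : G.V × H.V => slot τ x.1 (e x.1 x.2)) (P : Set (G.V × H.V)) := by
    rintro ⟨p, J⟩ hp ⟨q, J'⟩ hq heq
    simp only [hP, Finset.coe_filter, Finset.mem_univ, true_and, Set.mem_setOf_eq] at hp hq
    have h2 := slot_eq heq
    simp only at h2
    obtain ⟨rfl, h3⟩ := h2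
    have h4 : J = J' := by
      rw [← he2 p J hp, ← he2 p J' hq]
      rcases h3 with h | h
      · rw [h]
      · rw [h, hτ.ht]
    rw [h4]
  have h2 : ∑ x ∈ P, wt Φ.v μ x.1 =
      ∑ y ∈ P.image (fun x : G.V × H.V => slot τ x.1 (e x.1 x.2)), wt Φ.v μ y.1 := by
    rw [Finset.sum_image hinj]
    rfl
  rw [h2]
  refine Finset.sum_le_sum_of_subset_of_nonneg ?_ (fun y _ _ => (wt_pos hf.mu_pos _).le)
  intro y hy
  rw [Finset.mem_image] at hy
  obtain ⟨⟨p, J⟩, hpJ, rfl⟩ := hy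
  rw [hP, Finset.mem_filter] at hpJ
  unfold flex
  rw [Finset.mem_filter]
  exact ⟨Finset.mem_univ _, e p J, he1 p J hpJ.2, he3 p J hpJ.2, rfl⟩

end

end Pool.Agent.H26.Bunchy
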