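import Pool.Agent.H97.Bun.Two
import Pool.Agent.H97.Bun.TwoWt
import Pool.Agent.H26.Bunchy.Graphs
import Pool.Agent.H75.Bunchy.Quot

/-!
# Rank two: a double cover

If a right resolver without stable pairs has rank two, then its domain is a double cover of a graph
with a synchronizing right resolver onto the base.
-/

set_option autoImplicit false
set_option linter.unusedSectionVars false
set_option linter.deprecated false

namespace Pool.Agent.H26.Bunchy

open Pool.Agent.H75.Bunchy
open scoped Classical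

section Quot

variable {G H : Graph} (Φ : RightResolver G H) (S : Setoid G.V)

/-- the quotient graph by a congruence -/
noncomputable def cquot : Graph where
  V := Quotient S
  E := {x : Quotient S × H.E // H.src x.2 = Φ.v x.1.out}
  src := fun x => x.1.1
  tgt := fun x => Quotient.mk S (Φ.act x.1.1.out x.1.2)

variable {S}

lemma out_rel (p : G.V) : S.r (Quotient.mk S p).out p :=
  Quotient.exact (s := S) (Quotient.out_eq _)

/-- the projection onto the quotient -/
noncomputable def cproj (h1 : ∀ x y, S.r x y → Φ.v x = Φ.v y)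
    (h2 : ∀ x y e, S.r x y → H.src e = Φ.v x → S.r (Φ.act x e) (Φ.act y e)) :
    RightResolver G (cquot Φ S) :=
  RightResolver.mk' (H := cquot Φ S) (fun p => Quotient.mk S p)
    (fun f => ⟨(Quotient.mk S (G.src f), Φ.e f), by
      simp only; rw [h1 _ _ (out_rel (S := S) (G.src f)), Φ.src_comm]⟩)
    (fun _ => rfl)
    (fun f => by
      apply Quotient.sound (s := S)
      have h3 := h2 _ _ (Φ.e f) (out_rel (S := S) (G.src f))
        (by rw [h1 _ _ (out_rel (S := S) (G.src f)), Φ.src_comm])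
      rw [Φ.act_eq] at h3
      exact h3)
    (Quotient.mk_surjective)
    (by
      intro I
      refine ⟨?_, ?_, ?_⟩
      · rintro f rfl; rfl
      · rintro f rfl f' hf' h
        have h2 := congrArg (fun x => x.1.2) h
        exact Φ.edge_unique (Eq.symm hf') h2
      · rintro ⟨⟨c, g⟩, hg⟩ hc
        change c = Quotient.mk S I at hc
        subst hc
        simp only at hg
        rw [h1 _ _ (out_rel (S := S) I)] at hg
        obtain ⟨f, rfl, rfl⟩ := Φ.exists_edge I hg
        exact ⟨f, rfl, rfl⟩)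

/-- the induced right resolver of the quotient -/
noncomputable def cdesc (h1 : ∀ x y, S.r x y → Φ.v x = Φ.v y) : RightResolver (cquot Φ S) H :=
  RightResolver.mk' (G := cquot Φ S) (fun c => Φ.v (Quotient.out (s := S) c)) (fun x => x.1.2)
    (fun x => x.2)
    (fun x => by
      change H.tgt x.1.2 = Φ.v (Quotient.mk S (Φ.act x.1.1.out x.1.2)).out
      rw [h1 _ _ (out_rel (S := S) _)]
      exact (Φ.act_typed _ _ x.2).symm)
    (by
      intro k
      obtain ⟨p, hp⟩ := Φ.v_surj k
      exact ⟨Quotient.mk S p, by simp only; rw [h1 _ _ (out_rel (S := S) _), hp]⟩)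
    (by
      intro c
      refine ⟨?_, ?_, ?_⟩
      · rintro x rfl; exact x.2
      · rintro ⟨⟨c1, g1⟩, h1⟩ hc1 ⟨⟨c2, g2⟩, h2⟩ hc2 h
        change c1 = c at hc1
        change c2 = c at hc2
        change g1 = g2 at h
        subst hc1 hc2 h
        rfl
      · intro g hg
        exact ⟨⟨(c, g), hg⟩, rfl, rfl⟩)

lemma cleads (h1 : ∀ x y, S.r x y → Φ.v x = Φ.v y)
    (h2 : ∀ x y e, S.r x y → H.src e = Φ.v x → S.r (Φ.act x e) (Φ.act y e))
    {q K : G.V} {w : List H.E} (h : Φ.Leads q w K) :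
    (RightResolver.comp (cdesc Φ h1) (cproj Φ h1 h2)).Leads q w K := by
  induction h with
  | nil I => exact RightResolver.Leads.nil I
  | cons f w K _ ih =>
    exact RightResolver.Leads.cons
      (Φ := RightResolver.comp (cdesc Φ h1) (cproj Φ h1 h2)) f w K ih

end Quot

section Aut

variable {V K E : Type*} [Fintype V] {s t : E → K} {σ : V → K} {a : V → E → V}

/-- in rank two the dead pairs are the pairs of partners -/
lemma dead_partner (hb : Typed s t σ a) (hcn : Conn s σ a) (hno : NoStable s t σ a)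
    (hr : rank s t σ a = 2) {T : V → V} (hT2 : ∀ p, T p ≠ p) (hT3 : ∀ p, σ (T p) = σ p)
    (hT4 : ∀ p e, s e = σ p → a (T p) e = T (a p e)) {p q : V} (hpq : Dead s t σ a p q) :
    q = T p := by
  have hdeadT : Dead s t σ a p (T p) := by
    refine ⟨(hT3 p).symm, fun v hv => ?_⟩
    rw [Pool.Agent.H97.Bun.run_tau hb hT4 v p hv]
    exact (hT2 _).symm
  have hpair : ∀ x y, Dead s t σ a x y → DeadSet s t σ a {y, x} := by
    intro x y hxy u hu v hv huv
    rcases hu with rfl | hu <;> rcases hv with rfl | hv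
    · exact absurd rfl huv
    · rw [Set.mem_singleton_iff] at hv; subst hv; exact hxy.symm
    · rw [Set.mem_singleton_iff] at hu; subst hu; exact hxy
    · rw [Set.mem_singleton_iff] at hu hv; exact absurd (hu.trans hv.symm) huv
  refine hno q (T p) (stable_of_swap hb hcn (Z := {p}) (x := q) (y := T p) ?_ ?_ ?_ ?_ ?_ ?_)
  · simpa using hpq.ne.symm
  · simpa using hT2 p
  · rw [← hpq.1, hT3]
  · exact hpair _ _ hpq
  · exact hpair _ _ hdeadT
  · rw [hr]
    exact Set.ncard_pair hpq.ne.symm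

end Aut

variable {H N : Graph}

/-- **Rank two: a double cover.** -/
theorem exists_cover (Λ : RightResolver H N) (hH : H.StronglyConnected)
    (hno : NoStable N.src N.tgt Λ.v Λ.act) (hr : rank N.src N.tgt Λ.v Λ.act = 2) :
    ∃ (N' : Graph) (Λ₁ : RightResolver H N') (Λ₂ : RightResolver N' N),
      (∀ x, Λ₂.v (Λ₁.v x) = Λ.v x) ∧ Λ₂.Synchronizing ∧
      ∀ y, {x | Λ₁.v x = y}.ncard = 2 := by
  have : Fintype H.V := Fintype.ofFinite _
  have ha := Λ.act_typed
  have hcn := Λ.conn hH
  obtain ⟨T, hT1, hT2, hT3, hT4⟩ := Pool.Agent.H97.Bun.exists_tau ha hcn hno hr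
  set S : Setoid H.V :=
    { r := fun x y => y = x ∨ y = T x
      iseqv := by
        refine ⟨fun x => Or.inl rfl, ?_, ?_⟩
        · rintro x y (rfl | rfl)
          · exact Or.inl rfl
          · exact Or.inr (hT1 x).symm
        · rintro x y z (rfl | rfl) (rfl | rfl)
          · exact Or.inl rfl
          · exact Or.inr rfl
          · exact Or.inr rfl
          · exact Or.inl (hT1 x) } with hS
  have h1 : ∀ x y, S.r x y → Λ.v x = Λ.v y := by
    rintro x y (rfl | rfl)
    · rfl
    · exact (hT3 x).symm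
  have h2 : ∀ x y e, S.r x y → N.src e = Λ.v x → S.r (Λ.act x e) (Λ.act y e) := by
    rintro x y e (rfl | rfl) he
    · exact Or.inl rfl
    · exact Or.inr (hT4 x e he)
  refine ⟨cquot Λ S, cproj Λ h1 h2, cdesc Λ h1, fun x => h1 _ _ (out_rel (S := S) x), ?_, ?_⟩
  · -- synchronizing
    intro J
    obtain ⟨p, hp⟩ := Λ.v_surj J
    obtain ⟨u, hu, hru⟩ := exists_rank ha hcn p
    refine ⟨u, by rw [isPath_iff, ← hp]; exact hu, ?_⟩
    rw [Set.ncard_eq_one]
    have hC : IsFC N.src N.tgt Λ.v Λ.act (img Λ.v Λ.act (Λ.v p) u) := ⟨p, u, hu, rfl, hru⟩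
    have hd := hC.deadSet ha
    have key : ∀ q, Λ.v q = Λ.v p → S.r (run Λ.act p u) (run Λ.act q u) := by
      intro q hq
      by_cases heq : run Λ.act q u = run Λ.act p u
      · exact Or.inl heq
      · right
        exact dead_partner ha hcn hno hr hT2 hT3 hT4
          (hd _ ⟨p, rfl, rfl⟩ _ ⟨q, hq, rfl⟩ (Ne.symm heq))
    -- the end vertex of the lifted path
    have hlead : ∀ q, Λ.v q = J → (cdesc Λ h1).Leads (Quotient.mk S q) u
        (Quotient.mk S (run Λ.act q u)) := by
      intro q hq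
      have h4 : Λ.Leads q u (run Λ.act q u) :=
        (Λ.leads_iff _ _ _).2 ⟨by rw [hq, ← hp]; exact hu, rfl⟩
      exact RightResolver.leads_down _ _ (cleads Λ h1 h2 h4)
    refine ⟨Quotient.mk S (run Λ.act p u), ?_⟩
    ext c
    rw [Set.mem_setOf_eq, Set.mem_singleton_iff]
    constructor
    · rintro ⟨I, hI, hIc⟩
      obtain ⟨q, rfl⟩ := Quotient.mk_surjective (s := S) I
      have hq : Λ.v q = J := by
        rw [← hI]; exact (h1 _ _ (out_rel (S := S) q)).symm
      have h3 := RightResolver.leads_unique _ hIc (hlead q hq)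
      rw [h3]
      exact (Quotient.sound (s := S) (key q (by rw [hq, hp]))).symm
    · rintro rfl
      refine ⟨Quotient.mk S p, ?_, hlead p hp⟩
      rw [← hp]; exact h1 _ _ (out_rel (S := S) p)
  · -- two elements in each fibre
    intro y
    obtain ⟨x, rfl⟩ := Quotient.mk_surjective (s := S) y
    have h3 : {z | (cproj Λ h1 h2).v z = Quotient.mk S x} = {x, T x} := by
      ext z
      rw [Set.mem_setOf_eq, Set.mem_insert_iff, Set.mem_singleton_iff]
      constructor
      · intro h
        have h4 : S.r x z := Quotient.exact (s := S) (Eq.symm h)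
        exact h4
      · intro h
        have h4 : S.r x z := h
        exact (Quotient.sound (s := S) h4).symm
    rw [h3]
    exact Set.ncard_pair (hT2 x).symm

/-- If all fibres have two vertices and no recolouring has a stable pair, then nothing splits. -/
theorem inj_of_two (Λ : RightResolver H N) (hH : H.StronglyConnected)
    (hno : ∀ Λ' : RightResolver H N, Λ'.v = Λ.v → NoStable N.src N.tgt Λ'.v Λ'.act)
    (h2 : ∀ y, {x | Λ.v x = y}.ncard = 2) (x : H.V) (J : N.V) :
    (FollowersOver Λ.v x J).ncard ≤ 1 := by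
  by_contra hlt
  push Not at hlt
  -- the fibre over `J` are the two followers
  have hJ : FollowersOver Λ.v x J = {z | Λ.v z = J} := by
    refine Set.eq_of_subset_of_ncard_le (fun z hz => hz.2) ?_ (Set.toFinite _)
    rw [h2 J]
    exact hlt
  -- the other vertex in the fibre of `x`
  obtain ⟨y, hy, hyx⟩ : ∃ y, Λ.v y = Λ.v x ∧ y ≠ x := by
    by_contra hcon
    push Not at hcon
    have h3 : {z | Λ.v z = Λ.v x} ⊆ {x} := fun z hz => hcon z hz
    have h4 := Set.ncard_le_ncard h3 (Set.toFinite _)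
    rw [h2, Set.ncard_singleton] at h4
    omega
  have hfib : ∀ z, Λ.v z = Λ.v x → z = x ∨ z = y := by
    intro z hz
    have h3 : ({x, y} : Set H.V) = {z | Λ.v z = Λ.v x} := by
      refine Set.eq_of_subset_of_ncard_le ?_ ?_ (Set.toFinite _)
      · rintro w (rfl | hw)
        · rfl
        · rw [Set.mem_singleton_iff] at hw; subst hw; exact hy
      · rw [h2, Set.ncard_pair hyx.symm]
    have h4 : z ∈ ({x, y} : Set H.V) := by rw [h3]; exact hz
    exact h4
  -- a letter
  obtain ⟨q, hq⟩ : (FollowersOver Λ.v x J).Nonempty := by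
    rw [← Set.ncard_pos (Set.toFinite _)]; omega
  have hq' := hq
  rw [Λ.mem_followersOver] at hq'
  obtain ⟨e, he1, he2, he3⟩ := hq'
  set r := Λ.act y e with hr
  have hrJ : Λ.v r = J := by rw [hr, Λ.act_typed y e (by rw [he1, hy]), he2]
  have hrF : r ∈ FollowersOver Λ.v x J := by rw [hJ]; exact hrJ
  rw [Λ.mem_followersOver] at hrF
  obtain ⟨f, hf1, hf2, hf3⟩ := hrF
  obtain ⟨Λ', hv, hΛ'⟩ := Λ.exists_recolor
    (fun p π => (p = x → π e = f) ∧ (p ≠ x → π = 1)) (by
      intro p
      by_cases hp : p = x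
      · obtain ⟨π, hπ, -, hπ1⟩ := exists_perm1 N (e := e) (f := f)
          (he1.trans hf1.symm) (he2.trans hf2.symm)
        exact ⟨π, hπ, fun _ => hπ1, fun h => absurd hp h⟩
      · exact ⟨1, fun _ => ⟨rfl, rfl⟩, fun h => absurd h hp, fun _ => rfl⟩)
  have hx : Λ'.act x e = r := by
    obtain ⟨π, _, ⟨hπ, _⟩, hact⟩ := hΛ' x
    rw [hact, hπ rfl, hf3]
  have hy' : Λ'.act y e = r := by
    obtain ⟨π, _, ⟨_, hπ⟩, hact⟩ := hΛ' y
    rw [hact, hπ hyx]; rfl
  have hno' := hno Λ' hv
  rw [hv] at hno'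
  have ha' : Typed N.src N.tgt Λ.v Λ'.act := by rw [← hv]; exact Λ'.act_typed
  have hcn' : Conn N.src Λ.v Λ'.act := by rw [← hv]; exact Λ'.conn hH
  -- all pairs in one fibre merge
  have hmerge : ∀ p q, Λ.v p = Λ.v q → ∃ u, Valid N.src N.tgt (Λ.v p) u ∧
      run Λ'.act p u = run Λ'.act q u := by
    intro p q hpq
    obtain ⟨w, hw, hwx⟩ := exists_word ha' (hcn' p x)
    have h3 : Λ.v (run Λ'.act q w) = Λ.v x := by
      rw [ha'.run q w (by rw [← hpq]; exact hw), ← hpq, ← ha'.run p w hw, hwx]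
    rcases hfib _ h3 with h4 | h4
    · exact ⟨w, hw, by rw [hwx, h4]⟩
    · refine ⟨w ++ [e], ?_, ?_⟩
      · rw [valid_append]
        refine ⟨hw, ?_, trivial⟩
        rw [← ha'.run p w hw, hwx, he1]
      · rw [run_append, run_append, hwx, h4]
        change Λ'.act x e = Λ'.act y e
        rw [hx, hy']
  refine hyx (hno' y x ⟨hy, fun v hv' => ?_⟩)
  have h5 : Λ.v (run Λ'.act y v) = Λ.v (run Λ'.act x v) := by
    rw [ha'.run y v hv', ha'.run x v (by rw [← hy]; exact hv'), hy]
  obtain ⟨u, hu, hru⟩ := hmerge _ _ h5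
  refine ⟨u, ?_, ?_⟩
  · rw [← ha'.run y v hv']; exact hu
  · rw [run_append, run_append, hru]

/-- The structure clause for rank two, for a graph over `B` none of whose right resolvers onto
graphs over `B` has a stable pair. -/
theorem cover_clause {B : Graph} (Θ : RightResolver H B) (hH : H.StronglyConnected)
    (hall : ∀ (N : Graph) (Λ : RightResolver H N),
      (Minimal B ∨ ∃ Γ : RightResolver N B, ∀ x, Γ.v (Λ.v x) = Θ.v x) →
      ∀ Λ' : RightResolver H N, Λ'.v = Λ.v → NoStable N.src N.tgt Λ'.v Λ'.act)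
    {N : Graph} (Λ : RightResolver H N)
    (hov : Minimal B ∨ ∃ Γ : RightResolver N B, ∀ x, Γ.v (Λ.v x) = Θ.v x)
    (Λ₀ : RightResolver H N) (hv₀ : Λ₀.v = Λ.v) (hr : rank N.src N.tgt Λ₀.v Λ₀.act = 2) :
    ∃ (N' : Graph) (Λ₁ : RightResolver H N') (Λ₂ : RightResolver N' N), Λ₂.Synchronizing ∧
      (∀ x, Λ₂.v (Λ₁.v x) = Λ.v x) ∧ (∀ y, {x | Λ₁.v x = y}.ncard = 2) ∧
      ∀ x J, (FollowersOver Λ₁.v x J).ncard ≤ 1 := by
  obtain ⟨N', Λ₁, Λ₂, h1, h2, h3⟩ := exists_cover Λ₀ hH (hall N Λ hov Λ₀ hv₀) hr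
  refine ⟨N', Λ₁, Λ₂, h2, fun x => by rw [h1, hv₀], h3, inj_of_two Λ₁ hH ?_ h3⟩
  refine hall N' Λ₁ ?_
  rcases hov with hB | ⟨Γ, hΓ⟩
  · exact Or.inl hB
  · refine Or.inr ⟨RightResolver.comp Γ Λ₂, fun x => ?_⟩
    rw [RightResolver.comp_v, h1, hv₀, hΓ]

end Pool.Agent.H26.Bunchy
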