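import Pool.Agent.H26.Bunchy.Graphs

/-!
# Final theorems
-/

set_option autoImplicit false
set_option linter.unusedSectionVars false
set_option linter.deprecated false

namespace Pool.Agent.H26.Bunchy

open Pool.Agent.H75.Bunchy
open scoped Classical

noncomputable local instance (G : Graph) : Fintype G.V := Fintype.ofFinite _
noncomputable local instance (G : Graph) : Fintype G.E := Fintype.ofFinite _

section
variable {G H : Graph}

lemma stat_sum_eq (Φ : RightResolver G H) (pr : H.V → H.V → ℝ) (μ : G.V → ℝ) (q : G.V) :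
    ∑ p, ∑ e, (if H.src e = Φ.v p ∧ Φ.act p e = q then pr (H.src e) (H.tgt e) * μ p else 0) =
      ∑ᶠ f ∈ {f : G.E | G.tgt f = q}, pr (Φ.v (G.src f)) (Φ.v q) * μ (G.src f) := by
  rw [finsum_mem_eq_finite_toFinset_sum _ (Set.toFinite _)]
  rw [← Finset.sum_product', ← Finset.sum_filter]
  symm
  refine Finset.sum_bij (fun f _ => (G.src f, Φ.e f)) ?_ ?_ ?_ ?_
  · intro f hf
    rw [Set.Finite.mem_toFinset] at hf
    rw [Finset.mem_filter]
    refine ⟨Finset.mem_product.2 ⟨Finset.mem_univ _, Finset.mem_univ _⟩, Φ.src_comm f, ?_⟩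
    rw [Φ.act_eq]; exact hf
  · intro f _ f' _ hff
    rw [Prod.mk.injEq] at hff
    exact Φ.edge_unique hff.1 hff.2
  · rintro ⟨p, e⟩ hpe
    rw [Finset.mem_filter] at hpe
    obtain ⟨_, h1, h2⟩ := hpe
    obtain ⟨f, rfl, rfl⟩ := Φ.exists_edge p h1
    rw [Φ.act_eq] at h2
    refine ⟨f, ?_, rfl⟩
    rw [Set.Finite.mem_toFinset]; exact h2
  · intro f hf
    rw [Set.Finite.mem_toFinset] at hf
    have hf' : G.tgt f = q := hf
    simp only [Φ.src_comm, Φ.tgt_comm, hf']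

/-- existence of fair weights -/
lemma exists_fair (Φ : RightResolver G H) (hG : G.StronglyConnected) {p₀ : G.V}
    {g₀ : H.E} (hg₀ : H.src g₀ = Φ.v p₀) : ∃ pr μ, FairWeights Φ.v pr μ := by
  have hout : ∀ I : H.V, ∃ g, H.src g = I := by
    intro I
    obtain ⟨p, rfl⟩ := Φ.v_surj I
    rcases (hG p p₀).cases_head with h | ⟨c, ⟨f, hf, _⟩, _⟩
    · exact ⟨g₀, by rw [hg₀, h]⟩
    · exact ⟨Φ.e f, by rw [Φ.src_comm, hf]⟩
  set N : H.V → ℕ := fun I => {g : H.E | H.src g = I}.ncard with hN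
  have hNpos : ∀ I, 0 < N I := by
    intro I
    rw [hN]
    exact (Set.ncard_pos (Set.toFinite _)).2 (hout I)
  have hpos : ∀ e : H.E, (0 : ℝ) < 1 / (N (H.src e) : ℝ) := fun e => by
    have := hNpos (H.src e)
    positivity
  have hcount : ∀ I, ∑ e : H.E, (if H.src e = I then (1 : ℝ) / (N (H.src e) : ℝ) else 0) = 1 := by
    intro I
    have h1 : ∑ e : H.E, (if H.src e = I then (1 : ℝ) / (N (H.src e) : ℝ) else 0) =
        ∑ e : H.E, (if H.src e = I then (1 : ℝ) / (N I : ℝ) else 0) := by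
      refine Finset.sum_congr rfl fun e _ => ?_
      split_ifs with h
      · rw [h]
      · rfl
    rw [h1, ← Finset.sum_filter, Finset.sum_const, nsmul_eq_mul]
    have h2 : (Finset.univ.filter fun e : H.E => H.src e = I).card = N I := by
      show _ = {g : H.E | H.src g = I}.ncard
      rw [Set.ncard_eq_toFinset_card _ (Set.toFinite _)]
      congr 1
      ext e
      rw [Set.Finite.mem_toFinset, Finset.mem_filter]
      simp
    rw [h2]
    have := hNpos I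
    field_simp
  have : Nonempty G.V := ⟨p₀⟩
  obtain ⟨μ, hμ⟩ := exists_stat (pr := fun e => 1 / (N (H.src e) : ℝ)) Φ.act_typed (Φ.conn hG) hpos
    (fun p => hcount (Φ.v p))
  refine ⟨fun I _ => 1 / (N I : ℝ), μ, hpos, fun I => ?_, hμ.mu_pos, fun q => ?_⟩
  · have h3 := hcount I
    rw [← Finset.sum_filter] at h3
    rw [finsum_mem_eq_finite_toFinset_sum _ (Set.toFinite _)]
    refine Eq.trans (Finset.sum_congr ?_ ?_) h3
    · ext e
      rw [Set.Finite.mem_toFinset, Finset.mem_filter]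
      simp
    · intro e he
      rw [Finset.mem_filter] at he
      rw [he.2]
  · rw [← hμ.stat q, ← stat_sum_eq Φ (fun I _ => 1 / (N I : ℝ)) μ q]

lemma not_noStable_of_split (Φ : RightResolver G H)
    (h : ¬ ∃ Φ' : RightResolver G H, Φ'.v = Φ.v ∧ ¬ NoStable H.src H.tgt Φ'.v Φ'.act) :
    ∀ Φ' : RightResolver G H, Φ'.v = Φ.v → NoStable H.src H.tgt Φ'.v Φ'.act := by
  intro Φ' hv
  by_contra hcon
  exact h ⟨Φ', hv, hcon⟩

lemma splits_pos {Φ : RightResolver G H} {p : G.V} {J : H.V}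
    (h : 2 ≤ (FollowersOver Φ.v p J).ncard) : (1 : ℝ) ≤ splits Φ.v p := by
  have : 0 < splits Φ.v p := (Set.ncard_pos (Set.toFinite _)).2 ⟨J, h⟩
  exact_mod_cast this

/-- The step for at most five vertices over `I`. -/
lemma step_five (Φ : RightResolver G H) (hG : G.StronglyConnected) {I J : H.V} {p₀ : G.V}
    {g g' : H.E} (hsg : H.src g = Φ.v p₀) (hsg' : H.src g' = H.src g)
    (htg' : H.tgt g' = H.tgt g) (hI : I = H.src g) (hJ : J = H.tgt g)
    (hne : Φ.act p₀ g ≠ Φ.act p₀ g') (h5 : {p | Φ.v p = I}.ncard ≤ 5) :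
    ∃ Φ' : RightResolver G H, Φ'.v = Φ.v ∧ ¬ NoStable H.src H.tgt Φ'.v Φ'.act := by
  by_contra hcon
  have hno := not_noStable_of_split Φ hcon
  have h12 : g ≠ g' := fun h => hne (by rw [h])
  have hmult : 2 ≤ H.mult I J := by
    rw [← Set.ncard_pair h12]
    refine Set.ncard_le_ncard ?_ (Set.toFinite _)
    rintro x (rfl | rfl)
    · exact ⟨hI.symm, hJ.symm⟩
    · exact ⟨by rw [hsg', hI], by rw [htg', hJ]⟩
  -- at least four full vertices
  have hfull : 4 ≤ (Full Φ.v I J).ncard := by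
    by_contra hlt
    refine hcon (exists_recolor_stable Φ hG hsg hsg' htg' hne ?_)
    rw [← hI, ← hJ]
    left; omega
  set NB : Finset G.V := Finset.univ.filter fun p => Φ.v p = I ∧
    2 ≤ (FollowersOver Φ.v p J).ncard with hNB
  set F : Finset G.V := Finset.univ.filter fun p => Φ.v p = I with hF
  have hNF : NB ⊆ F := by
    intro p hp
    rw [hNB, Finset.mem_filter] at hp
    rw [hF, Finset.mem_filter]
    exact ⟨hp.1, hp.2.1⟩
  have hFcard : F.card ≤ 5 := by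
    refine le_trans (le_of_eq ?_) h5
    rw [Set.ncard_eq_toFinset_card _ (Set.toFinite _)]
    congr 1
    ext e
    rw [Set.Finite.mem_toFinset, hF, Finset.mem_filter]
    simp
  have hNBcard : 4 ≤ NB.card := by
    refine hfull.trans ?_
    rw [Set.ncard_eq_toFinset_card _ (Set.toFinite _)]
    refine Finset.card_le_card ?_
    intro p hp
    rw [Set.Finite.mem_toFinset] at hp
    rw [hNB, Finset.mem_filter]
    exact ⟨Finset.mem_univ _, hp.1, by rw [hp.2]; exact hmult⟩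
  have hcard : (F \ NB).card ≤ 1 := by
    rw [Finset.card_sdiff_of_subset hNF]; omega
  have hp₀ : 2 ≤ (FollowersOver Φ.v p₀ J).ncard := by
    rw [← Set.ncard_pair hne]
    refine Set.ncard_le_ncard ?_ (Set.toFinite _)
    rintro x (rfl | rfl)
    · rw [Φ.mem_followersOver]; exact ⟨g, hsg, hJ.symm, rfl⟩
    · rw [Φ.mem_followersOver]; exact ⟨g', by rw [hsg', hsg], by rw [htg', hJ], rfl⟩
  have hvp₀ : Φ.v p₀ = I := by rw [hI, hsg]
  obtain ⟨pr, μ, hf⟩ := exists_fair Φ hG hsg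
  have hpos : ∀ z, 0 < share Φ.v μ z := fun z => by
    rw [share_eq]; exact wt_pos hf.mu_pos z
  have hbound : ∀ z, 2 * share Φ.v μ z + ∑ᶠ x, (splits Φ.v x : ℝ) * share Φ.v μ x ≤ 1 := by
    intro z
    have h1 := weight_bound_graph Φ hG hno (ρ := 2) (fun Φ' hv =>
      two_le_rank_graph Φ' hG (hno Φ' hv) (by rw [hv]; exact hp₀)) hf z
    push_cast at h1
    linarith
  have hsum : ∑ p ∈ F, share Φ.v μ p = 1 := by
    have := sum_wt_fibre (σ := Φ.v) hf.mu_pos p₀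
    rw [hvp₀] at this
    rw [← this]
    exact Finset.sum_congr rfl fun p _ => share_eq _ _ _
  have hNBsum : ∑ p ∈ NB, share Φ.v μ p ≤ ∑ᶠ x, (splits Φ.v x : ℝ) * share Φ.v μ x := by
    rw [finsum_eq_sum_of_fintype]
    have h1 : ∑ p ∈ NB, share Φ.v μ p ≤ ∑ p ∈ NB, (splits Φ.v p : ℝ) * share Φ.v μ p := by
      refine Finset.sum_le_sum fun p hp => ?_
      rw [hNB, Finset.mem_filter] at hp
      have h2 := splits_pos (Φ := Φ) hp.2.2
      have h3 := hpos p
      nlinarith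
    refine h1.trans (Finset.sum_le_sum_of_subset_of_nonneg (Finset.subset_univ _) ?_)
    intro p _ _
    exact mul_nonneg (Nat.cast_nonneg _) (hpos p).le
  have hsplit : ∑ p ∈ F \ NB, share Φ.v μ p + ∑ p ∈ NB, share Φ.v μ p = 1 := by
    rw [Finset.sum_sdiff hNF, hsum]
  rcases Finset.eq_empty_or_nonempty (F \ NB) with h0 | ⟨z, hz⟩
  · rw [h0, Finset.sum_empty, zero_add] at hsplit
    have h1 := hbound p₀
    have h2 := hpos p₀
    linarith
  · have h1 : F \ NB = {z} := by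
      refine Finset.eq_singleton_iff_unique_mem.2 ⟨hz, fun x hx => ?_⟩
      exact Finset.card_le_one.1 hcard x hx z hz
    rw [h1, Finset.sum_singleton] at hsplit
    have h2 := hbound z
    have h3 := hpos z
    linarith

end

/-- **Bunchy factors when, over each source of a multiple edge, the pair is good or there are at
most five vertices**: relative form. -/
theorem relative_five (H : Graph) : ∀ (n : ℕ) (G : Graph), Nat.card G.V = n →
    G.StronglyConnected → ∀ Φ : RightResolver G H,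
    (∀ I J, 2 ≤ H.mult I J → Good Φ.v I J ∨ {p | Φ.v p = I}.ncard ≤ 5) →
    ∃ (Q : Graph) (Θ : RightResolver Q H) (Ψ : RightResolver G Q), Ψ.Synchronizing ∧
      (∀ p, Θ.v (Ψ.v p) = Φ.v p) ∧
      ∀ c : Q.V, Set.BijOn Θ.v (Q.Followers c) (H.Followers (Θ.v c)) := by
  intro n
  induction n using Nat.strong_induction_on with
  | _ n ih =>
  intro G hn hG Φ hgood
  by_cases hb : ∀ c : G.V, Set.BijOn Φ.v (G.Followers c) (H.Followers (Φ.v c))
  · exact ⟨G, Φ, RightResolver.id G, RightResolver.id_synchronizing G, fun _ => rfl, hb⟩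
  push Not at hb
  obtain ⟨p₀, hp₀⟩ := hb
  -- two followers with the same image
  have hmaps : Set.MapsTo Φ.v (G.Followers p₀) (H.Followers (Φ.v p₀)) := by
    intro q hq; rw [followers_image]; exact ⟨q, hq, rfl⟩
  have hsurj : Set.SurjOn Φ.v (G.Followers p₀) (H.Followers (Φ.v p₀)) := by
    rw [followers_image]; exact Set.surjOn_image _ _
  have hninj : ¬ Set.InjOn Φ.v (G.Followers p₀) := fun h => hp₀ ⟨hmaps, h, hsurj⟩
  unfold Set.InjOn at hninj
  push Not at hninj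
  obtain ⟨q, ⟨f, hf1, hf2⟩, q', ⟨f', hf1', hf2'⟩, hqq, hne⟩ := hninj
  have hsg : H.src (Φ.e f) = Φ.v p₀ := by rw [Φ.src_comm, hf1]
  have hsg' : H.src (Φ.e f') = H.src (Φ.e f) := by rw [Φ.src_comm, Φ.src_comm, hf1, hf1']
  have htg' : H.tgt (Φ.e f') = H.tgt (Φ.e f) := by
    rw [Φ.tgt_comm, Φ.tgt_comm, hf2, hf2', hqq]
  have hact : Φ.act p₀ (Φ.e f) ≠ Φ.act p₀ (Φ.e f') := by
    have h1 := Φ.act_eq f
    have h2 := Φ.act_eq f'
    rw [hf1] at h1
    rw [hf1'] at h2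
    rw [h1, h2, hf2, hf2']; exact hne
  have hmult : 2 ≤ H.mult (H.src (Φ.e f)) (H.tgt (Φ.e f)) := by
    have h12 : Φ.e f ≠ Φ.e f' := fun h => hact (by rw [h])
    rw [← Set.ncard_pair h12]
    refine Set.ncard_le_ncard ?_ (Set.toFinite _)
    rintro x (rfl | rfl)
    · exact ⟨rfl, rfl⟩
    · exact ⟨hsg', htg'⟩
  obtain ⟨Φ', hv, hst⟩ : ∃ Φ' : RightResolver G H, Φ'.v = Φ.v ∧
      ¬ NoStable H.src H.tgt Φ'.v Φ'.act := by
    rcases hgood _ _ hmult with h | h
    · exact exists_recolor_stable Φ hG hsg hsg' htg' hact h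
    · exact step_five Φ hG hsg hsg' htg' rfl rfl hact h
  have hlt := card_quot_lt Φ' hst
  rw [hn] at hlt
  obtain ⟨Q, Θ, Ψ, hΨ, hcomm, hbij⟩ := ih _ hlt Φ'.quot rfl (StronglyConnected.map Φ'.proj hG)
    Φ'.desc (fun I J hIJ => by
      rcases hgood I J hIJ with h | h
      · left
        refine Good.image Φ'.proj Φ'.desc.v Φ' (fun p => Φ'.desc_proj_v p) I J ?_
        rw [hv]; exact h
      · right
        have hsub : {c : Φ'.quot.V | Φ'.desc.v c = I} ⊆ Φ'.proj.v '' {p | Φ.v p = I} := by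
          intro c hc
          obtain ⟨p, rfl⟩ := Φ'.proj.v_surj c
          refine ⟨p, ?_, rfl⟩
          have h1 : Φ'.desc.v (Φ'.proj.v p) = I := hc
          rw [Φ'.desc_proj_v, hv] at h1
          exact h1
        exact (Set.ncard_le_ncard hsub (Set.toFinite _)).trans
          ((Set.ncard_image_le (Set.toFinite _)).trans h))
  refine ⟨Q, Θ, RightResolver.comp Ψ Φ'.proj,
    RightResolver.Synchronizing.comp hΨ Φ'.proj_synchronizing, fun p => ?_, hbij⟩
  rw [RightResolver.comp_v, hcomm, Φ'.desc_proj_v, hv]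

theorem main_five (G B : Graph) (hG : G.StronglyConnected) (hB : IsBunchy B)
    (Φ : RightResolver G B)
    (hgood : ∀ I J, 2 ≤ B.mult I J → Good Φ.v I J ∨ {p | Φ.v p = I}.ncard ≤ 5) :
    ∃ H : Graph, IsBunchy H ∧ ∃ Ψ : RightResolver G H, Ψ.Synchronizing := by
  obtain ⟨Q, Θ, Ψ, hΨ, _, hbij⟩ := relative_five B _ G rfl hG Φ hgood
  obtain ⟨M, hM, Λ, hΛ⟩ := hB
  refine ⟨Q, ⟨M, hM, RightResolver.comp Λ Θ, fun I => ?_⟩, Ψ, hΨ⟩
  exact (hΛ (Θ.v I)).comp (hbij I)

/-- Every right resolver factors through a synchronizing one onto a graph none of whose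
recolourings has a stable pair. -/
theorem exists_noStable (H : Graph) : ∀ (n : ℕ) (G : Graph), Nat.card G.V = n →
    G.StronglyConnected → ∀ Φ : RightResolver G H,
    ∃ (Q : Graph) (Θ : RightResolver Q H) (Ψ : RightResolver G Q), Ψ.Synchronizing ∧
      (∀ p, Θ.v (Ψ.v p) = Φ.v p) ∧ Q.StronglyConnected ∧
      ∀ Θ' : RightResolver Q H, Θ'.v = Θ.v → NoStable H.src H.tgt Θ'.v Θ'.act := by
  intro n
  induction n using Nat.strong_induction_on with
  | _ n ih =>
  intro G hn hG Φ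
  by_cases hex : ∃ Φ' : RightResolver G H, Φ'.v = Φ.v ∧ ¬ NoStable H.src H.tgt Φ'.v Φ'.act
  · obtain ⟨Φ', hv, hst⟩ := hex
    have hlt := card_quot_lt Φ' hst
    rw [hn] at hlt
    obtain ⟨Q, Θ, Ψ, hΨ, hcomm, hQ, hno⟩ := ih _ hlt Φ'.quot rfl
      (StronglyConnected.map Φ'.proj hG) Φ'.desc
    refine ⟨Q, Θ, RightResolver.comp Ψ Φ'.proj,
      RightResolver.Synchronizing.comp hΨ Φ'.proj_synchronizing, fun p => ?_, hQ, hno⟩
    rw [RightResolver.comp_v, hcomm, Φ'.desc_proj_v, hv]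
  · exact ⟨G, Φ, RightResolver.id G, RightResolver.id_synchronizing G, fun _ => rfl, hG,
      not_noStable_of_split Φ hex⟩

/-- the least number of end vertices over all recolourings -/
lemma exists_least {G H : Graph} (Θ : RightResolver G H) (hne : Nonempty G.V) :
    ∃ ρ : ℕ, (∀ Θ' : RightResolver G H, Θ'.v = Θ.v → ρ ≤ rank H.src H.tgt Θ'.v Θ'.act) ∧
      ∃ Θ' : RightResolver G H, Θ'.v = Θ.v ∧ ∃ (J : H.V) (u : List H.E), H.IsPath J u ∧
        {K | ∃ I, Θ'.v I = J ∧ Θ'.Leads I u K}.ncard = ρ := by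
  set S : Set ℕ := {n | ∃ Θ' : RightResolver G H, Θ'.v = Θ.v ∧
    rank H.src H.tgt Θ'.v Θ'.act = n} with hS
  have hSne : S.Nonempty := ⟨_, Θ, rfl, rfl⟩
  refine ⟨sInf S, fun Θ' hv => Nat.sInf_le ⟨Θ', hv, rfl⟩, ?_⟩
  obtain ⟨Θ', hv, hr⟩ := Nat.sInf_mem hSne
  refine ⟨Θ', hv, ?_⟩
  obtain ⟨p, u, hu, hcard⟩ := exists_rank0 (V := G.V) (s := H.src) (t := H.tgt) (σ := Θ'.v)
    (a := Θ'.act)
  have hu' : H.IsPath (Θ'.v p) u := (isPath_iff _ _ _).2 hu
  refine ⟨Θ'.v p, u, hu', ?_⟩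
  rw [ends_eq Θ' hu', hcard, hr]

/-- **Weight bound.** -/
theorem main_weight (G B : Graph) (hG : G.StronglyConnected) (hB : IsBunchy B)
    (Φ : RightResolver G B) :
    ∃ (H : Graph) (Θ : RightResolver H B) (Ψ : RightResolver G H), Ψ.Synchronizing ∧
      (∀ p, Θ.v (Ψ.v p) = Φ.v p) ∧
      (IsBunchy H ∨ ∃ ρ : ℕ, 2 ≤ ρ ∧
        (∀ (Θ' : RightResolver H B) (J : B.V) (u : List B.E), Θ'.v = Θ.v → B.IsPath J u →
          ρ ≤ {K | ∃ I, Θ'.v I = J ∧ Θ'.Leads I u K}.ncard) ∧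
        (∃ (Θ' : RightResolver H B) (J : B.V) (u : List B.E), Θ'.v = Θ.v ∧ B.IsPath J u ∧
          {K | ∃ I, Θ'.v I = J ∧ Θ'.Leads I u K}.ncard = ρ) ∧
        ∀ (pr : B.V → B.V → ℝ) (μ : H.V → ℝ), FairWeights Θ.v pr μ → ∀ z,
          (ρ : ℝ) * (2 * share Θ.v μ z + ∑ᶠ x, (splits Θ.v x : ℝ) * share Θ.v μ x) ≤ 2) := by
  obtain ⟨H, Θ, Ψ, hΨ, hcomm, hH, hno⟩ := exists_noStable B _ G rfl hG Φ
  refine ⟨H, Θ, Ψ, hΨ, hcomm, ?_⟩
  by_cases hex : ∃ p J, 2 ≤ (FollowersOver Θ.v p J).ncard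
  · obtain ⟨p, J, h⟩ := hex
    right
    obtain ⟨ρ, hρ, Θ₀, hv₀, J₀, u₀, hu₀, hcard⟩ := exists_least Θ ⟨p⟩
    have hle : ∀ (Θ' : RightResolver H B) (J : B.V) (u : List B.E), Θ'.v = Θ.v → B.IsPath J u →
        rank B.src B.tgt Θ'.v Θ'.act ≤ {K | ∃ I, Θ'.v I = J ∧ Θ'.Leads I u K}.ncard := by
      intro Θ' J u hv hu
      obtain ⟨q, rfl⟩ := Θ'.v_surj J
      rw [ends_eq Θ' hu]
      exact rank_le q u ((isPath_iff _ _ _).1 hu)
    refine ⟨ρ, ?_, fun Θ' J u hv hu => (hρ Θ' hv).trans (hle Θ' J u hv hu),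
      ⟨Θ₀, J₀, u₀, hv₀, hu₀, hcard⟩, fun pr μ hf z => weight_bound_graph Θ hH hno hρ hf z⟩
    rw [← hcard]
    exact (two_le_rank_graph Θ₀ hH (hno Θ₀ hv₀) (by rw [hv₀]; exact h)).trans
      (hle Θ₀ J₀ u₀ hv₀ hu₀)
  · left
    push Not at hex
    obtain ⟨M, hM, Λ, hΛ⟩ := hB
    refine ⟨M, hM, RightResolver.comp Λ Θ, fun I => ?_⟩
    refine (hΛ (Θ.v I)).comp ⟨?_, ?_, ?_⟩
    · intro q hq; rw [followers_image]; exact ⟨q, hq, rfl⟩
    · intro q hq q' hq' hqq
      by_contra hne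
      have h1 : ({q, q'} : Set H.V) ⊆ FollowersOver Θ.v I (Θ.v q) := by
        rintro x (rfl | rfl)
        · exact ⟨hq, rfl⟩
        · exact ⟨hq', hqq.symm⟩
      have h2 := Set.ncard_le_ncard h1 (Set.toFinite _)
      rw [Set.ncard_pair hne] at h2
      have := hex I (Θ.v q)
      omega
    · rw [followers_image]; exact Set.surjOn_image _ _

end Pool.Agent.H26.Bunchy
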