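import Pool.Agent.H26.Bunchy.Pot

/-!
# Maximisers of the potential
-/

set_option autoImplicit false
set_option linter.unusedSectionVars false
set_option linter.deprecated false

namespace Pool.Agent.H26.Bunchy

open Pool.Agent.H75.Bunchy
open scoped Classical

variable {V K E : Type*} [Fintype V] [Fintype E] {s t : E → K} {σ : V → K} {a : V → E → V}
  {τ : E → E} {pr : E → ℝ} {μ : V → ℝ}

/-- preimage of `c` under the word `v` read from type `j` -/
noncomputable def pre (σ : V → K) (a' : V → E → V) (c : Finset V) (v : List E) (j : K) :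
    Finset V := Finset.univ.filter fun x => σ x = j ∧ run a' x v ∈ c

/-- all preimages are maximisers -/
structure Top (s t : E → K) (σ : V → K) (a : V → E → V) (τ : E → E) (μ : V → ℝ) (M : ℝ)
    (c : Finset V) (B : Finset (V × Sym2 E)) (δ : Set (V × Sym2 E)) : Prop where
  val : Val s t σ a τ c B δ
  eq : Phi σ μ c B = M

lemma Phi_empty_le (hμ : ∀ p, 0 < μ p) (B : Finset (V × Sym2 E)) : Phi σ μ ∅ B ≤ 0 := by
  unfold Phi
  rw [Finset.sum_empty]
  have : 0 ≤ ∑ x ∈ B, wt σ μ x.1 := Finset.sum_nonneg fun x _ => (wt_pos hμ _).le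
  linarith

lemma Phi_le (hμ : ∀ p, 0 < μ p) (c : Finset V) (B : Finset (V × Sym2 E)) :
    Phi σ μ c B ≤ ∑ p ∈ c, wt σ μ p := by
  unfold Phi
  have : 0 ≤ ∑ x ∈ B, wt σ μ x.1 := Finset.sum_nonneg fun x _ => (wt_pos hμ _).le
  linarith

lemma Top.step (hτ : Swp s t τ) (ha : Typed s t σ a) (h : Stat s σ a pr μ)
    (hpr : ∀ e, pr (τ e) = pr e) (hsu : ∀ e, ∃ p, s e = σ p)
    {M : ℝ} {B : Finset (V × Sym2 E)} {δ : Set (V × Sym2 E)}
    (hM : ∀ c' B' δ', Val s t σ a τ c' B' δ' → Phi σ μ c' B' ≤ M)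
    (hN : ∀ c' B' δ', Val s t σ a τ c' B' δ' → Phi σ μ c' B' = M → B'.card ≤ B.card)
    {c : Finset V} (hc : Top s t σ a τ μ M c B δ) {z : V} (hz : z ∈ c) {e : E}
    (he : t e = σ z) : cut s σ a τ c B e = ∅ ∧
      Top s t σ a τ μ M (Finset.univ.filter fun p => s e = σ p ∧ tw τ δ a p e ∈ c) B δ := by
  obtain ⟨k, hk, -⟩ := hc.val
  have hkz := hk z hz
  have hav := Phi_average hτ ha h hpr B δ hk
  rw [hc.eq] at hav
  have hval : ∀ e, t e = k → Val s t σ a τ (pull s σ a τ c B δ e) (B ∪ news s σ a τ c B e)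
      (ncol s σ a τ c B δ e) := fun e he => hc.val.pull hτ ha hz (by rw [he, hkz])
  have hmass : ∀ e, 0 ≤ mass σ μ (s e) := by
    intro e
    unfold mass
    refine Finset.sum_nonneg fun p _ => ?_
    split_ifs
    · exact (h.mu_pos p).le
    · exact le_rfl
  have hsum : ∑ e, (if t e = k then mass σ μ (s e) * pr e *
      (M - Phi σ μ (pull s σ a τ c B δ e) (B ∪ news s σ a τ c B e)) else 0) = 0 := by
    have h1 : ∑ e, (if t e = k then mass σ μ (s e) * pr e *
        (M - Phi σ μ (pull s σ a τ c B δ e) (B ∪ news s σ a τ c B e)) else 0) =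
        M * ∑ e, (if t e = k then mass σ μ (s e) * pr e else 0) -
        ∑ e, (if t e = k then mass σ μ (s e) * pr e *
          Phi σ μ (pull s σ a τ c B δ e) (B ∪ news s σ a τ c B e) else 0) := by
      rw [Finset.mul_sum, ← Finset.sum_sub_distrib]
      refine Finset.sum_congr rfl fun e _ => ?_
      split_ifs <;> ring
    rw [h1, hav, h.mass_sum ha]
    ring
  rw [Finset.sum_eq_zero_iff_of_nonneg] at hsum
  swap
  · intro e _
    split_ifs with hek
    · refine mul_nonneg (mul_nonneg (hmass e) (h.pr_pos e).le) ?_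
      have := hM _ _ _ (hval e hek)
      linarith
    · exact le_rfl
  have hek : t e = k := by rw [he, hkz]
  obtain ⟨p, hp⟩ := hsu e
  have h1 := hsum e (Finset.mem_univ _)
  rw [if_pos hek] at h1
  have h2 : mass σ μ (s e) * pr e ≠ 0 := by
    rw [hp]
    exact mul_ne_zero (mass_pos h.mu_pos p).ne' (h.pr_pos e).ne'
  have h3 : Phi σ μ (pull s σ a τ c B δ e) (B ∪ news s σ a τ c B e) = M := by
    rcases mul_eq_zero.1 h1 with h | h
    · exact absurd h h2
    · linarith
  have h4 := hN _ _ _ (hval e hek) h3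
  rw [Finset.card_union_of_disjoint (news_disj c B e)] at h4
  have h5 : news s σ a τ c B e = ∅ := by
    rw [← Finset.card_eq_zero]; omega
  have h6 : cut s σ a τ c B e = ∅ := by
    unfold news at h5
    rwa [Finset.image_eq_empty] at h5
  refine ⟨h6, ?_⟩
  have h7 : ncol s σ a τ c B δ e = δ := by
    unfold ncol
    rw [h5]
    simp
  have h8 : pull s σ a τ c B δ e = Finset.univ.filter fun p => s e = σ p ∧ tw τ δ a p e ∈ c := by
    unfold pull
    refine Finset.filter_congr fun q _ => ?_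
    refine and_congr_right fun hq => ?_
    by_cases hB : slot τ q e ∈ B
    · rw [if_pos hB]
    · rw [if_neg hB]
      have hcut : a q e ∈ c ↔ a q (τ e) ∈ c := by
        by_contra hcon
        have : q ∈ cut s σ a τ c B e := by
          unfold cut
          rw [Finset.mem_filter]
          exact ⟨Finset.mem_univ _, hq, hB, hcon⟩
        rw [h6] at this
        simp at this
      unfold tw
      split_ifs
      · rw [← hcut, or_self, hcut]
      · rw [hcut, or_self]
  have h9 := hval e hek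
  rw [h5, Finset.union_empty, h7, h8] at h9
  rw [h5, Finset.union_empty, h8] at h3
  exact ⟨h9, h3⟩

lemma mem_pre {a' : V → E → V} {c : Finset V} {v : List E} {j : K} {x : V} :
    x ∈ pre σ a' c v j ↔ σ x = j ∧ run a' x v ∈ c := by
  unfold pre; simp

lemma Top.words (hτ : Swp s t τ) (ha : Typed s t σ a) (h : Stat s σ a pr μ)
    (hpr : ∀ e, pr (τ e) = pr e) (hsu : ∀ e, ∃ p, s e = σ p)
    {M : ℝ} (hM0 : 0 < M) {B : Finset (V × Sym2 E)} {δ : Set (V × Sym2 E)}
    (hM : ∀ c' B' δ', Val s t σ a τ c' B' δ' → Phi σ μ c' B' ≤ M)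
    (hN : ∀ c' B' δ', Val s t σ a τ c' B' δ' → Phi σ μ c' B' = M → B'.card ≤ B.card)
    {c : Finset V} (hc : Top s t σ a τ μ M c B δ) {z : V} (hz : z ∈ c) (v : List E) :
    ∀ j, Valid s t j v → fin t j v = σ z → Top s t σ a τ μ M (pre σ (tw τ δ a) c v j) B δ := by
  have htw := tw_typed hτ ha δ
  induction v with
  | nil =>
    intro j _ hj
    have : pre σ (tw τ δ a) c [] j = c := by
      obtain ⟨k, hk, -⟩ := hc.val
      ext x
      rw [mem_pre]
      simp only [run_nil]
      constructor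
      · rintro ⟨_, h⟩; exact h
      · intro hx
        refine ⟨?_, hx⟩
        rw [hk x hx]
        rw [fin_nil] at hj
        rw [hj, hk z hz]
    rw [this]; exact hc
  | cons e v ih =>
    rintro j ⟨hj, hv⟩ hf
    have h1 := ih (t e) hv hf
    -- nonempty
    have h2 : (pre σ (tw τ δ a) c v (t e)).Nonempty := by
      rw [Finset.nonempty_iff_ne_empty]
      intro h0
      have h3 := h1.eq
      rw [h0] at h3
      have := Phi_empty_le (σ := σ) h.mu_pos B
      linarith
    obtain ⟨y, hy⟩ := h2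
    have hyt : t e = σ y := (mem_pre.1 hy).1.symm
    have h3 := (h1.step hτ ha h hpr hsu hM hN hy hyt).2
    have h4 : pre σ (tw τ δ a) c (e :: v) j =
        Finset.univ.filter fun p => s e = σ p ∧ tw τ δ a p e ∈ pre σ (tw τ δ a) c v (t e) := by
      ext x
      rw [mem_pre, Finset.mem_filter, mem_pre, run_cons]
      constructor
      · rintro ⟨h5, h6⟩
        have h7 : s e = σ x := by rw [hj, h5]
        exact ⟨Finset.mem_univ _, h7, htw x e h7, h6⟩
      · rintro ⟨_, h5, _, h6⟩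
        exact ⟨by rw [← h5, hj], h6⟩
    rw [h4]; exact h3

/-- An undecided slot of a top triple gives a stable pair. -/
lemma Top.stable (hτ : Swp s t τ) (ha : Typed s t σ a) (hcn : Conn s σ a) (h : Stat s σ a pr μ)
    (hpr : ∀ e, pr (τ e) = pr e) (hsu : ∀ e, ∃ p, s e = σ p)
    {M : ℝ} (hM0 : 0 < M) {B : Finset (V × Sym2 E)} {δ : Set (V × Sym2 E)}
    (hM : ∀ c' B' δ', Val s t σ a τ c' B' δ' → Phi σ μ c' B' ≤ M)
    (hN : ∀ c' B' δ', Val s t σ a τ c' B' δ' → Phi σ μ c' B' = M → B'.card ≤ B.card)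
    {c : Finset V} (hc : Top s t σ a τ μ M c B δ) {z : V} (hz : z ∈ c) {p : V} {e : E}
    (he : s e = σ p) (hB : slot τ p e ∉ B) :
    Stable s t σ (tw τ δ a) (a p e) (a p (τ e)) := by
  have htw := tw_typed hτ ha δ
  have hte : σ (a p e) = t e := ha p e he
  have hte' : σ (a p (τ e)) = t e := by rw [ha p _ (by rw [hτ.hs]; exact he), hτ.ht]
  refine ⟨by rw [hte, hte'], fun v hv => ?_⟩
  obtain ⟨k, hk, u₀, hu₀, hcol⟩ := hc.val
  have hX : σ (run (tw τ δ a) (a p e) v) = fin t (σ (a p e)) v := htw.run _ _ hv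
  obtain ⟨v', hv', hz'⟩ := exists_word htw (tw_conn hτ hcn δ (run (tw τ δ a) (a p e) v) z)
  rw [hX] at hv'
  have hval : Valid s t (t e) (v ++ v') := by
    rw [valid_append, ← hte]; exact ⟨hv, hv'⟩
  have hrun : run (tw τ δ a) (a p e) (v ++ v') = z := by rw [run_append, hz']
  have hfin : fin t (t e) (v ++ v') = σ z := by
    rw [← hrun, htw.run _ _ (by rw [hte]; exact hval), hte]
  have h1 := hc.words hτ ha h hpr hsu hM0 hM hN hz (v ++ v') (t e) hval hfin
  have h2 : a p e ∈ pre σ (tw τ δ a) c (v ++ v') (t e) := by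
    rw [mem_pre]; exact ⟨hte, by rw [hrun]; exact hz⟩
  have h3 := (h1.step hτ ha h hpr hsu hM hN h2 hte.symm).1
  have h4 : a p (τ e) ∈ pre σ (tw τ δ a) c (v ++ v') (t e) := by
    by_contra hcon
    have : p ∈ cut s σ a τ (pre σ (tw τ δ a) c (v ++ v') (t e)) B e := by
      unfold cut
      rw [Finset.mem_filter]
      refine ⟨Finset.mem_univ _, he, hB, fun hiff => hcon (hiff.1 h2)⟩
    rw [h3] at this
    simp at this
  have h5 : run (tw τ δ a) (a p (τ e)) (v ++ v') ∈ c := (mem_pre.1 h4).2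
  have h6 := hcol δ (fun _ _ => Iff.rfl) _ hz _ h5
  refine ⟨v' ++ u₀, ?_, ?_⟩
  · rw [valid_append]
    refine ⟨hv', ?_⟩
    have : fin t (fin t (σ (a p e)) v) v' = k := by
      rw [← fin_append, hte, hfin, hk z hz]
    rw [this]; exact hu₀
  · rw [← List.append_assoc, run_append, run_append (u := v ++ v'), hrun]
    exact h6

/-- **The potential argument.** If no colouring has a nontrivial stable pair, then some collapsible
set outweighs every state and half of the flexible slots. -/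
theorem exists_top (hτ : Swp s t τ) (ha : Typed s t σ a) (hcn : Conn s σ a)
    (h : Stat s σ a pr μ) (hpr : ∀ e, pr (τ e) = pr e) (hsu : ∀ e, ∃ p, s e = σ p)
    (hno : ∀ δ, NoStable s t σ (tw τ δ a)) (z₀ : V) :
    ∃ (c : Finset V) (B : Finset (V × Sym2 E)) (δ : Set (V × Sym2 E)),
      Val s t σ a τ c B δ ∧ (∀ p e, s e = σ p → a p e ≠ a p (τ e) → slot τ p e ∈ B) ∧
      ∀ z, wt σ μ z ≤ Phi σ μ c B := by
  set S : Set (Finset V × Finset (V × Sym2 E) × Set (V × Sym2 E)) :=
    {x | Val s t σ a τ x.1 x.2.1 x.2.2} with hS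
  have hsing : ∀ z : V, ({z}, ∅, ∅) ∈ S := by
    intro z
    refine ⟨σ z, ?_, [], trivial, ?_⟩
    · intro x hx
      rw [Finset.mem_singleton] at hx
      rw [hx]
    · intro δ' _ x hx y hy
      rw [Finset.mem_singleton] at hx hy
      rw [hx, hy]
  obtain ⟨x₁, hx₁, hmax⟩ := Set.exists_max_image S (fun x => Phi σ μ x.1 x.2.1)
    (Set.toFinite _) ⟨_, hsing z₀⟩
  set M := Phi σ μ x₁.1 x₁.2.1 with hMdef
  obtain ⟨x₂, hx₂, hmax₂⟩ := Set.exists_max_image {x ∈ S | Phi σ μ x.1 x.2.1 = M}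
    (fun x => x.2.1.card) (Set.toFinite _) ⟨x₁, hx₁, rfl⟩
  obtain ⟨c, B, δ⟩ := x₂
  obtain ⟨hval, hPhi⟩ := hx₂
  simp only at hval hPhi
  have hwt : ∀ z, wt σ μ z ≤ M := by
    intro z
    have := hmax _ (hsing z)
    simpa [Phi] using this
  have hM0 : 0 < M := lt_of_lt_of_le (wt_pos h.mu_pos z₀) (hwt z₀)
  have hM : ∀ c' B' δ', Val s t σ a τ c' B' δ' → Phi σ μ c' B' ≤ M :=
    fun c' B' δ' hv => hmax (c', B', δ') hv
  have hN : ∀ c' B' δ', Val s t σ a τ c' B' δ' → Phi σ μ c' B' = M → B'.card ≤ B.card :=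
    fun c' B' δ' hv he => hmax₂ (c', B', δ') ⟨hv, he⟩
  have hne : c.Nonempty := by
    rw [Finset.nonempty_iff_ne_empty]
    rintro rfl
    have := Phi_empty_le (σ := σ) h.mu_pos B
    linarith
  obtain ⟨z, hz⟩ := hne
  refine ⟨c, B, δ, hval, ?_, fun z => by rw [hPhi]; exact hwt z⟩
  intro p e he hpe
  by_contra hB
  exact hpe (hno δ _ _ (Top.stable hτ ha hcn h hpr hsu hM0 hM hN ⟨hval, hPhi⟩ hz he hB))

end Pool.Agent.H26.Bunchy
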