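import Pool.Agent.H26.Bunchy.SetBound

/-!
# Two thirds
-/

set_option autoImplicit false
set_option linter.unusedSectionVars false
set_option linter.deprecated false

namespace Pool.Agent.H26.Bunchy

open Pool.Agent.H75.Bunchy
open scoped Classical

section Third

variable {V K E : Type*} [Fintype V] [Fintype E] {s t : E → K} {σ : V → K} {a : V → E → V}
  {τ : E → E} {pr : E → ℝ} {μ : V → ℝ}

/-! ### The argument of `Top.stable`, relative to a class of sets of slots -/

lemma Top.step' (hτ : Swp s t τ) (ha : Typed s t σ a) (h : Stat s σ a pr μ)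
    (hpr : ∀ e, pr (τ e) = pr e) (hsu : ∀ e, ∃ p, s e = σ p)
    {P : Finset (V × Sym2 E) → Prop}
    {M : ℝ} {B : Finset (V × Sym2 E)} {δ : Set (V × Sym2 E)}
    (hM : ∀ c' B' δ', P B' → Val s t σ a τ c' B' δ' → Phi σ μ c' B' ≤ M)
    (hN : ∀ c' B' δ', P B' → Val s t σ a τ c' B' δ' → Phi σ μ c' B' = M → B'.card ≤ B.card)
    (hP : ∀ c', Top s t σ a τ μ M c' B δ → ∀ z' ∈ c', ∀ e', t e' = σ z' →
      P (B ∪ news s σ a τ c' B e'))
    {c : Finset V} (hc : Top s t σ a τ μ M c B δ) {z : V} (hz : z ∈ c) {e : E}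
    (he : t e = σ z) : cut s σ a τ c B e = ∅ ∧
      Top s t σ a τ μ M (Finset.univ.filter fun p => s e = σ p ∧ tw τ δ a p e ∈ c) B δ := by
  obtain ⟨k, hk, -⟩ := hc.val
  have hkz := hk z hz
  have hav := Phi_average hτ ha h hpr B δ hk
  rw [hc.eq] at hav
  have hval : ∀ e, t e = k → Val s t σ a τ (pull s σ a τ c B δ e) (B ∪ news s σ a τ c B e)
      (ncol s σ a τ c B δ e) := fun e he => hc.val.pull hτ ha hz (by rw [he, hkz])
  have hPe : ∀ e, t e = k → P (B ∪ news s σ a τ c B e) := fun e he =>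
    hP c hc z hz e (by rw [he, hkz])
  have hmass : ∀ e, 0 ≤ mass σ μ (s e) := by
    intro e
    unfold mass
    refine Finset.sum_nonneg fun p _ => ?_
    split_ifs
    · exact (h.mu_pos p).le
    · exact le_rfl
  have hsum : ∑ e, (if t e = k then mass σ μ (s e) * pr e *
      (M - Phi σ μ (pull s σ a τ c B δ e) (B ∪ news s σ a τ c B e)) else 0) = 0 := by
    have h1 : ∑ e, (if t e = k then mass σ μ (s e) * pr e *
        (M - Phi σ μ (pull s σ a τ c B δ e) (B ∪ news s σ a τ c B e)) else 0) =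
        M * ∑ e, (if t e = k then mass σ μ (s e) * pr e else 0) -
        ∑ e, (if t e = k then mass σ μ (s e) * pr e *
          Phi σ μ (pull s σ a τ c B δ e) (B ∪ news s σ a τ c B e) else 0) := by
      rw [Finset.mul_sum, ← Finset.sum_sub_distrib]
      refine Finset.sum_congr rfl fun e _ => ?_
      split_ifs <;> ring
    rw [h1, hav, h.mass_sum ha]
    ring
  rw [Finset.sum_eq_zero_iff_of_nonneg] at hsum
  swap
  · intro e _
    split_ifs with hek
    · refine mul_nonneg (mul_nonneg (hmass e) (h.pr_pos e).le) ?_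
      have := hM _ _ _ (hPe e hek) (hval e hek)
      linarith
    · exact le_rfl
  have hek : t e = k := by rw [he, hkz]
  obtain ⟨p, hp⟩ := hsu e
  have h1 := hsum e (Finset.mem_univ _)
  rw [if_pos hek] at h1
  have h2 : mass σ μ (s e) * pr e ≠ 0 := by
    rw [hp]
    exact mul_ne_zero (mass_pos h.mu_pos p).ne' (h.pr_pos e).ne'
  have h3 : Phi σ μ (pull s σ a τ c B δ e) (B ∪ news s σ a τ c B e) = M := by
    rcases mul_eq_zero.1 h1 with h | h
    · exact absurd h h2
    · linarith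
  have h4 := hN _ _ _ (hPe e hek) (hval e hek) h3
  rw [Finset.card_union_of_disjoint (news_disj c B e)] at h4
  have h5 : news s σ a τ c B e = ∅ := by
    rw [← Finset.card_eq_zero]; omega
  have h6 : cut s σ a τ c B e = ∅ := by
    unfold news at h5
    rwa [Finset.image_eq_empty] at h5
  refine ⟨h6, ?_⟩
  have h7 : ncol s σ a τ c B δ e = δ := by
    unfold ncol
    rw [h5]
    simp
  have h8 : pull s σ a τ c B δ e = Finset.univ.filter fun p => s e = σ p ∧ tw τ δ a p e ∈ c := by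
    unfold pull
    refine Finset.filter_congr fun q _ => ?_
    refine and_congr_right fun hq => ?_
    by_cases hB : slot τ q e ∈ B
    · rw [if_pos hB]
    · rw [if_neg hB]
      have hcut : a q e ∈ c ↔ a q (τ e) ∈ c := by
        by_contra hcon
        have : q ∈ cut s σ a τ c B e := by
          unfold cut
          rw [Finset.mem_filter]
          exact ⟨Finset.mem_univ _, hq, hB, hcon⟩
        rw [h6] at this
        simp at this
      unfold tw
      split_ifs
      · rw [← hcut, or_self, hcut]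
      · rw [hcut, or_self]
  have h9 := hval e hek
  rw [h5, Finset.union_empty, h7, h8] at h9
  rw [h5, Finset.union_empty, h8] at h3
  exact ⟨h9, h3⟩

lemma Top.words' (hτ : Swp s t τ) (ha : Typed s t σ a) (h : Stat s σ a pr μ)
    (hpr : ∀ e, pr (τ e) = pr e) (hsu : ∀ e, ∃ p, s e = σ p)
    {P : Finset (V × Sym2 E) → Prop}
    {M : ℝ} (hM0 : 0 < M) {B : Finset (V × Sym2 E)} {δ : Set (V × Sym2 E)}
    (hM : ∀ c' B' δ', P B' → Val s t σ a τ c' B' δ' → Phi σ μ c' B' ≤ M)
    (hN : ∀ c' B' δ', P B' → Val s t σ a τ c' B' δ' → Phi σ μ c' B' = M → B'.card ≤ B.card)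
    (hP : ∀ c', Top s t σ a τ μ M c' B δ → ∀ z' ∈ c', ∀ e', t e' = σ z' →
      P (B ∪ news s σ a τ c' B e'))
    {c : Finset V} (hc : Top s t σ a τ μ M c B δ) {z : V} (hz : z ∈ c) (v : List E) :
    ∀ j, Valid s t j v → fin t j v = σ z → Top s t σ a τ μ M (pre σ (tw τ δ a) c v j) B δ := by
  have htw := tw_typed hτ ha δ
  induction v with
  | nil =>
    intro j _ hj
    have : pre σ (tw τ δ a) c [] j = c := by
      obtain ⟨k, hk, -⟩ := hc.val
      ext x
      rw [mem_pre]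
      simp only [run_nil]
      constructor
      · rintro ⟨_, h⟩; exact h
      · intro hx
        refine ⟨?_, hx⟩
        rw [hk x hx]
        rw [fin_nil] at hj
        rw [hj, hk z hz]
    rw [this]; exact hc
  | cons e v ih =>
    rintro j ⟨hj, hv⟩ hf
    have h1 := ih (t e) hv hf
    -- nonempty
    have h2 : (pre σ (tw τ δ a) c v (t e)).Nonempty := by
      rw [Finset.nonempty_iff_ne_empty]
      intro h0
      have h3 := h1.eq
      rw [h0] at h3
      have := Phi_empty_le (σ := σ) h.mu_pos B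
      linarith
    obtain ⟨y, hy⟩ := h2
    have hyt : t e = σ y := (mem_pre.1 hy).1.symm
    have h3 := (h1.step' hτ ha h hpr hsu hM hN hP hy hyt).2
    have h4 : pre σ (tw τ δ a) c (e :: v) j =
        Finset.univ.filter fun p => s e = σ p ∧ tw τ δ a p e ∈ pre σ (tw τ δ a) c v (t e) := by
      ext x
      rw [mem_pre, Finset.mem_filter, mem_pre, run_cons]
      constructor
      · rintro ⟨h5, h6⟩
        have h7 : s e = σ x := by rw [hj, h5]
        exact ⟨Finset.mem_univ _, h7, htw x e h7, h6⟩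
      · rintro ⟨_, h5, _, h6⟩
        exact ⟨by rw [← h5, hj], h6⟩
    rw [h4]; exact h3

/-- An undecided slot of a top triple gives a stable pair. -/
lemma Top.stable' (hτ : Swp s t τ) (ha : Typed s t σ a) (hcn : Conn s σ a) (h : Stat s σ a pr μ)
    (hpr : ∀ e, pr (τ e) = pr e) (hsu : ∀ e, ∃ p, s e = σ p)
    {P : Finset (V × Sym2 E) → Prop}
    {M : ℝ} (hM0 : 0 < M) {B : Finset (V × Sym2 E)} {δ : Set (V × Sym2 E)}
    (hM : ∀ c' B' δ', P B' → Val s t σ a τ c' B' δ' → Phi σ μ c' B' ≤ M)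
    (hN : ∀ c' B' δ', P B' → Val s t σ a τ c' B' δ' → Phi σ μ c' B' = M → B'.card ≤ B.card)
    (hP : ∀ c', Top s t σ a τ μ M c' B δ → ∀ z' ∈ c', ∀ e', t e' = σ z' →
      P (B ∪ news s σ a τ c' B e'))
    {c : Finset V} (hc : Top s t σ a τ μ M c B δ) {z : V} (hz : z ∈ c) {p : V} {e : E}
    (he : s e = σ p) (hB : slot τ p e ∉ B) :
    Stable s t σ (tw τ δ a) (a p e) (a p (τ e)) := by
  have htw := tw_typed hτ ha δ
  have hte : σ (a p e) = t e := ha p e he
  have hte' : σ (a p (τ e)) = t e := by rw [ha p _ (by rw [hτ.hs]; exact he), hτ.ht]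
  refine ⟨by rw [hte, hte'], fun v hv => ?_⟩
  obtain ⟨k, hk, u₀, hu₀, hcol⟩ := hc.val
  have hX : σ (run (tw τ δ a) (a p e) v) = fin t (σ (a p e)) v := htw.run _ _ hv
  obtain ⟨v', hv', hz'⟩ := exists_word htw (tw_conn hτ hcn δ (run (tw τ δ a) (a p e) v) z)
  rw [hX] at hv'
  have hval : Valid s t (t e) (v ++ v') := by
    rw [valid_append, ← hte]; exact ⟨hv, hv'⟩
  have hrun : run (tw τ δ a) (a p e) (v ++ v') = z := by rw [run_append, hz']
  have hfin : fin t (t e) (v ++ v') = σ z := by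
    rw [← hrun, htw.run _ _ (by rw [hte]; exact hval), hte]
  have h1 := hc.words' hτ ha h hpr hsu hM0 hM hN hP hz (v ++ v') (t e) hval hfin
  have h2 : a p e ∈ pre σ (tw τ δ a) c (v ++ v') (t e) := by
    rw [mem_pre]; exact ⟨hte, by rw [hrun]; exact hz⟩
  have h3 := (h1.step' hτ ha h hpr hsu hM hN hP h2 hte.symm).1
  have h4 : a p (τ e) ∈ pre σ (tw τ δ a) c (v ++ v') (t e) := by
    by_contra hcon
    have : p ∈ cut s σ a τ (pre σ (tw τ δ a) c (v ++ v') (t e)) B e := by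
      unfold cut
      rw [Finset.mem_filter]
      refine ⟨Finset.mem_univ _, he, hB, fun hiff => hcon (hiff.1 h2)⟩
    rw [h3] at this
    simp at this
  have h5 : run (tw τ δ a) (a p (τ e)) (v ++ v') ∈ c := (mem_pre.1 h4).2
  have h6 := hcol δ (fun _ _ => Iff.rfl) _ hz _ h5
  refine ⟨v' ++ u₀, ?_, ?_⟩
  · rw [valid_append]
    refine ⟨hv', ?_⟩
    have : fin t (fin t (σ (a p e)) v) v' = k := by
      rw [← fin_append, hte, hfin, hk z hz]
    rw [this]; exact hu₀
  · rw [← List.append_assoc, run_append, run_append (u := v ++ v'), hrun]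
    exact h6

/-! ### Weight of a child that uses a new slot -/

lemma cut_tau (hτ : Swp s t τ) (c : Finset V) (B : Finset (V × Sym2 E)) (e : E) :
    cut s σ a τ c B (τ e) = cut s σ a τ c B e := by
  unfold cut
  refine Finset.filter_congr fun p _ => ?_
  rw [hτ.hs, slot_tau hτ, hτ.inv]
  constructor
  · rintro ⟨h1, h2, h3⟩; exact ⟨h1, h2, fun h => h3 h.symm⟩
  · rintro ⟨h1, h2, h3⟩; exact ⟨h1, h2, fun h => h3 h.symm⟩

lemma news_tau (hτ : Swp s t τ) (c : Finset V) (B : Finset (V × Sym2 E)) (e : E) :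
    news s σ a τ c B (τ e) = news s σ a τ c B e := by
  unfold news
  rw [cut_tau hτ]
  refine Finset.image_congr fun p _ => ?_
  exact slot_tau hτ p e

lemma mem_cut {c : Finset V} {B : Finset (V × Sym2 E)} {e : E} {p : V} :
    p ∈ cut s σ a τ c B e ↔ s e = σ p ∧ slot τ p e ∉ B ∧ ¬ (a p e ∈ c ↔ a p (τ e) ∈ c) := by
  unfold cut; rw [Finset.mem_filter]; simp

lemma mem_flex_slot {p : V} {e : E} (he : s e = σ p) (hne : a p e ≠ a p (τ e)) :
    slot τ p e ∈ flex s σ a τ := by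
  unfold flex
  rw [Finset.mem_filter]
  exact ⟨Finset.mem_univ _, e, he, hne, rfl⟩

lemma ne_of_mem_cut {c : Finset V} {B : Finset (V × Sym2 E)} {e : E} {p : V}
    (hp : p ∈ cut s σ a τ c B e) : a p e ≠ a p (τ e) := by
  intro h
  have := (mem_cut.1 hp).2.2
  rw [h] at this
  exact this Iff.rfl

/-- the decisions put the states of the child into `c` -/
lemma pull_mem {c : Finset V} {B : Finset (V × Sym2 E)} {δ δ' : Set (V × Sym2 E)} {e : E} {x : V}
    (hx : x ∈ pull s σ a τ c B δ e)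
    (hδ' : slot τ x e ∈ B ∪ news s σ a τ c B e →
      (slot τ x e ∈ δ' ↔ slot τ x e ∈ ncol s σ a τ c B δ e)) : tw τ δ' a x e ∈ c := by
  unfold pull at hx
  rw [Finset.mem_filter] at hx
  obtain ⟨_, hsx, hx⟩ := hx
  by_cases hxB : slot τ x e ∈ B
  · rw [if_pos hxB] at hx
    have h0 := hδ' (Finset.mem_union_left _ hxB)
    have hnn : slot τ x e ∉ news s σ a τ c B e := fun h =>
      (Finset.disjoint_left.1 (news_disj c B e) hxB) h
    have h1 : slot τ x e ∈ ncol s σ a τ c B δ e ↔ slot τ x e ∈ δ := by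
      unfold ncol
      simp [hnn]
    rw [h1] at h0
    unfold tw at hx ⊢
    by_cases h1 : slot τ x e ∈ δ
    · rw [if_pos h1] at hx; rw [if_pos (h0.2 h1)]; exact hx
    · rw [if_neg h1] at hx; rw [if_neg (fun h => h1 (h0.1 h))]; exact hx
  · rw [if_neg hxB] at hx
    by_cases hcut : a x e ∈ c ↔ a x (τ e) ∈ c
    · have h1 : a x e ∈ c := by
        rcases hx with h | h
        · exact h
        · exact hcut.2 h
      unfold tw
      split_ifs
      · exact hcut.1 h1
      · exact h1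
    · have hn : slot τ x e ∈ news s σ a τ c B e := by
        rw [mem_news]
        exact mem_cut.2 ⟨hsx, hxB, hcut⟩
      have h2 := hδ' (Finset.mem_union_right _ hn)
      have h3 : slot τ x e ∈ ncol s σ a τ c B δ e ↔ a x e ∉ c := by
        unfold ncol
        simp only [Set.mem_setOf_eq, hn, if_true]
        rfl
      rw [h3] at h2
      unfold tw
      by_cases h4 : a x e ∈ c
      · rw [if_neg (fun h => (h2.1 h) h4)]; exact h4
      · rw [if_pos (h2.2 h4)]
        rcases hx with h | h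
        · exact absurd h h4
        · exact h

lemma pull_le (hτ : Swp s t τ) (ha : Typed s t σ a) (hcn : Conn s σ a)
    (h : Stat s σ a pr μ) (hpr : ∀ e, pr (τ e) = pr e) (hsu : ∀ e, ∃ p, s e = σ p)
    (hno : ∀ δ, NoStable s t σ (tw τ δ a))
    (hnsf : ∀ (δ : Set (V × Sym2 E)) (p : V) (e : E), s e = σ p → a p e ≠ a p (τ e) →
      rank s t σ (tw τ δ a) = 2 → rank s t σ (tw τ (symmDiff δ {slot τ p e}) a) ≠ 2)
    {c : Finset V} {B : Finset (V × Sym2 E)} {δ : Set (V × Sym2 E)}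
    (hv : Val s t σ a τ c B δ) {z : V} (hz : z ∈ c) {e : E} (he : t e = σ z) {p₀ : V}
    (hp₀ : p₀ ∈ cut s σ a τ c B e) :
    3 * ∑ p ∈ pull s σ a τ c B δ e, wt σ μ p ≤ 1 + 3 * wt σ μ p₀ := by
  obtain ⟨hs, hB, hcut⟩ := mem_cut.1 hp₀
  have hne := ne_of_mem_cut hp₀
  have hw0 := wt_pos (σ := σ) h.mu_pos p₀
  -- every colouring has rank at least two
  have hr2 : ∀ δ₁ : Set (V × Sym2 E), 2 ≤ rank s t σ (tw τ δ₁ a) := fun δ₁ =>
    two_le_rank (tw_typed hτ ha δ₁) (tw_conn hτ hcn δ₁) (hno δ₁) (hτ.hs e) (hτ.ht e) hs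
      (tw_ne hτ δ₁ hne)
  have hbd : ∀ (δ₁ : Set (V × Sym2 E)) (c₁ : Finset V), 3 ≤ rank s t σ (tw τ δ₁ a) →
      Coll s t σ (tw τ δ₁ a) c₁ → 3 * ∑ p ∈ c₁, wt σ μ p ≤ 1 := by
    intro δ₁ c₁ h3 hc₁
    have h1 := rank_mul_le (tw_typed hτ ha δ₁) (tw_conn hτ hcn δ₁) (h.tw hτ hpr δ₁) hsu hc₁ z
    have h2 : (3 : ℝ) ≤ rank s t σ (tw τ δ₁ a) := by exact_mod_cast h3
    have h4 : 0 ≤ ∑ p ∈ c₁, wt σ μ p := Finset.sum_nonneg fun p _ => (wt_pos h.mu_pos p).le
    exact (mul_le_mul_of_nonneg_right h2 h4).trans h1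
  set δ' := ncol s σ a τ c B δ e with hδ'
  obtain ⟨k, hk, u, hu, hcol⟩ := id hv
  have hkz := hk z hz
  have htype : ∀ x ∈ pull s σ a τ c B δ e, σ x = s e := by
    intro x hx
    unfold pull at hx
    rw [Finset.mem_filter] at hx
    exact hx.2.1.symm
  have hvu : Valid s t (s e) (e :: u) := ⟨rfl, by rw [he, hkz]; exact hu⟩
  have hncol : ∀ x ∈ B, x ∈ δ' ↔ x ∈ δ := by
    intro x hx
    have : x ∉ news s σ a τ c B e := fun h =>
      (Finset.disjoint_left.1 (news_disj c B e) hx) h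
    rw [hδ']
    unfold ncol
    simp [this]
  rcases Nat.lt_or_ge 2 (rank s t σ (tw τ δ' a)) with h3 | h3
  · -- rank at least three
    have hcoll : Coll s t σ (tw τ δ' a) (pull s σ a τ c B δ e) := by
      refine ⟨s e, htype, e :: u, hvu, fun x hx y hy => ?_⟩
      rw [run_cons, run_cons]
      exact hcol δ' hncol _ (pull_mem hx fun _ => Iff.rfl) _ (pull_mem hy fun _ => Iff.rfl)
    have := hbd δ' _ h3 hcoll
    linarith
  · -- rank two
    have h2 : rank s t σ (tw τ δ' a) = 2 := le_antisymm h3 (hr2 δ')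
    have h4 := hnsf δ' p₀ e hs hne h2
    set δ'' := symmDiff δ' {slot τ p₀ e} with hδ''
    have h5 : 3 ≤ rank s t σ (tw τ δ'' a) := by
      have := hr2 δ''
      omega
    have hmem : ∀ y, y ≠ slot τ p₀ e → (y ∈ δ'' ↔ y ∈ δ') := by
      intro y hy
      rw [hδ'', Set.mem_symmDiff, Set.mem_singleton_iff]
      constructor
      · rintro (⟨h, _⟩ | ⟨h, _⟩)
        · exact h
        · exact absurd h hy
      · intro h; exact Or.inl ⟨h, hy⟩
    have hcoll : Coll s t σ (tw τ δ'' a) ((pull s σ a τ c B δ e).erase p₀) := by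
      have hin : ∀ x ∈ (pull s σ a τ c B δ e).erase p₀, tw τ δ'' a x e ∈ c := by
        intro x hx
        rw [Finset.mem_erase] at hx
        refine pull_mem hx.2 fun _ => hmem _ fun heq => hx.1 (slot_eq heq).1
      refine ⟨s e, fun x hx => htype x (Finset.mem_of_mem_erase hx), e :: u, hvu,
        fun x hx y hy => ?_⟩
      rw [run_cons, run_cons]
      refine hcol δ'' (fun y hy => ?_) _ (hin x hx) _ (hin y hy)
      rw [hmem y (fun h => hB (h ▸ hy))]
      exact hncol y hy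
    have h6 := hbd δ'' _ h5 hcoll
    have h7 : ∑ p ∈ pull s σ a τ c B δ e, wt σ μ p ≤
        ∑ p ∈ (pull s σ a τ c B δ e).erase p₀, wt σ μ p + wt σ μ p₀ := by
      by_cases hin : p₀ ∈ pull s σ a τ c B δ e
      · rw [Finset.sum_erase_add _ _ hin]
      · rw [Finset.erase_eq_of_notMem hin]
        linarith
    linarith

/-! ### The bound -/

/-- **Two thirds**, from the fact that two colourings which differ at one flexible slot are never
both of rank two. -/
theorem third_bound_of (hτ : Swp s t τ) (ha : Typed s t σ a) (hcn : Conn s σ a)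
    (h : Stat s σ a pr μ) (hpr : ∀ e, pr (τ e) = pr e) (hsu : ∀ e, ∃ p, s e = σ p)
    (hno : ∀ δ, NoStable s t σ (tw τ δ a))
    (hnsf : ∀ (δ : Set (V × Sym2 E)) (p : V) (e : E), s e = σ p → a p e ≠ a p (τ e) →
      rank s t σ (tw τ δ a) = 2 → rank s t σ (tw τ (symmDiff δ {slot τ p e}) a) ≠ 2)
    (hfl : (flex s σ a τ).Nonempty) :
    ∃ x ∈ flex s σ a τ, ∀ c₀, Val s t σ a τ c₀ ∅ ∅ →
      3 * (2 * ∑ p ∈ c₀, wt σ μ p + ∑ y ∈ flex s σ a τ, wt σ μ y.1) ≤ 2 + 6 * wt σ μ x.1 := by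
  obtain ⟨y₀, hy₀⟩ := hfl
  set P : Finset (V × Sym2 E) → Prop := fun B => ∃ y ∈ flex s σ a τ, y ∉ B with hPdef
  have hP0 : P ∅ := ⟨y₀, hy₀, by simp⟩
  set S : Set (Finset V × Finset (V × Sym2 E) × Set (V × Sym2 E)) :=
    {x | P x.2.1 ∧ Val s t σ a τ x.1 x.2.1 x.2.2} with hS
  have hsing : ∀ z : V, Val s t σ a τ {z} ∅ ∅ := by
    intro z
    refine ⟨σ z, ?_, [], trivial, ?_⟩
    · intro x hx
      rw [Finset.mem_singleton] at hx
      rw [hx]
    · intro δ' _ x hx y hy
      rw [Finset.mem_singleton] at hx hy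
      rw [hx, hy]
  obtain ⟨x₁, hx₁, hmax⟩ := Set.exists_max_image S (fun x => Phi σ μ x.1 x.2.1)
    (Set.toFinite _) ⟨({y₀.1}, ∅, ∅), hP0, hsing y₀.1⟩
  set M := Phi σ μ x₁.1 x₁.2.1 with hMdef
  obtain ⟨x₂, hx₂, hmax₂⟩ := Set.exists_max_image {x ∈ S | Phi σ μ x.1 x.2.1 = M}
    (fun x => x.2.1.card) (Set.toFinite _) ⟨x₁, hx₁, rfl⟩
  obtain ⟨c, B, δ⟩ := x₂
  obtain ⟨⟨hPB, hval⟩, hPhi⟩ := hx₂
  simp only at hval hPhi hPB
  have hset : ∀ c₀ : Finset V, Val s t σ a τ c₀ ∅ ∅ → ∑ p ∈ c₀, wt σ μ p ≤ M := by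
    intro c₀ hc₀
    have := hmax (c₀, ∅, ∅) ⟨hP0, hc₀⟩
    simpa [Phi] using this
  have hM0 : 0 < M := by
    refine lt_of_lt_of_le (wt_pos (σ := σ) h.mu_pos y₀.1) ?_
    have := hset {y₀.1} (hsing y₀.1)
    rwa [Finset.sum_singleton] at this
  have hM : ∀ c' B' δ', P B' → Val s t σ a τ c' B' δ' → Phi σ μ c' B' ≤ M :=
    fun c' B' δ' hp hv => hmax (c', B', δ') ⟨hp, hv⟩
  have hN : ∀ c' B' δ', P B' → Val s t σ a τ c' B' δ' → Phi σ μ c' B' = M →
      B'.card ≤ B.card :=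
    fun c' B' δ' hp hv he => hmax₂ (c', B', δ') ⟨⟨hp, hv⟩, he⟩
  have hnonempty : ∀ c', Phi σ μ c' B = M → c'.Nonempty := by
    intro c' hc'
    rw [Finset.nonempty_iff_ne_empty]
    rintro rfl
    have := Phi_empty_le (σ := σ) h.mu_pos B
    linarith
  obtain ⟨y, hyF, hyB⟩ := hPB
  -- a top triple with a letter that uses all remaining slots
  have hA : ∃ c', Top s t σ a τ μ M c' B δ ∧ ∃ z ∈ c', ∃ e, t e = σ z ∧
      flex s σ a τ ⊆ B ∪ news s σ a τ c' B e := by
    by_contra hcon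
    push Not at hcon
    have hP : ∀ c', Top s t σ a τ μ M c' B δ → ∀ z' ∈ c', ∀ e', t e' = σ z' →
        P (B ∪ news s σ a τ c' B e') := by
      intro c' hc' z' hz' e' he'
      have := hcon c' hc' z' hz' e' he'
      rw [Finset.not_subset] at this
      exact this
    obtain ⟨z, hz⟩ := hnonempty c hPhi
    have hy := hyF
    unfold flex at hy
    rw [Finset.mem_filter] at hy
    obtain ⟨_, e, he, hne, hye⟩ := hy
    rw [hye] at hyB
    exact hne (hno δ _ _ (Top.stable' hτ ha hcn h hpr hsu hM0 hM hN hP ⟨hval, hPhi⟩ hz he hyB))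
  obtain ⟨c', hc', z, hz, e₀, he₀, hcov⟩ := hA
  -- the flexible state
  have hyn : y ∈ news s σ a τ c' B e₀ := by
    rcases Finset.mem_union.1 (hcov hyF) with h | h
    · exact absurd h hyB
    · exact h
  obtain ⟨p₀, hp₀, hyp₀⟩ : ∃ p₀ ∈ cut s σ a τ c' B e₀, slot τ p₀ e₀ = y := by
    unfold news at hyn
    rw [Finset.mem_image] at hyn
    exact hyn
  have hne := ne_of_mem_cut hp₀
  have he0τ : e₀ ≠ τ e₀ := fun h => hne (by rw [← h])
  refine ⟨y, hyF, fun c₀ hc₀ => ?_⟩
  rw [← hyp₀]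
  show 3 * (2 * ∑ p ∈ c₀, wt σ μ p + ∑ y ∈ flex s σ a τ, wt σ μ y.1) ≤ 2 + 6 * wt σ μ p₀
  obtain ⟨k, hk, -⟩ := hc'.val
  have hkz := hk z hz
  have hek : t e₀ = k := by rw [he₀, hkz]
  -- the other letters
  have hother : ∀ e, t e = k → e ≠ e₀ → e ≠ τ e₀ →
      Phi σ μ (pull s σ a τ c' B δ e) (B ∪ news s σ a τ c' B e) ≤ M := by
    intro e het h1 h2
    have hcutE : cut s σ a τ c' B e = ∅ := by
      rw [Finset.eq_empty_iff_forall_notMem]
      intro q hq
      have h3 := mem_cut.1 hq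
      have h4 := mem_flex_slot (τ := τ) h3.1 (ne_of_mem_cut hq)
      rcases Finset.mem_union.1 (hcov h4) with h5 | h5
      · exact h3.2.1 h5
      · unfold news at h5
        rw [Finset.mem_image] at h5
        obtain ⟨q', _, h6⟩ := h5
        rcases (slot_eq h6).2 with h7 | h7
        · exact h1 h7.symm
        · exact h2 (by rw [h7, hτ.inv])
    have hnews : news s σ a τ c' B e = ∅ := by
      unfold news; rw [hcutE, Finset.image_empty]
    refine hM _ _ (ncol s σ a τ c' B δ e) ?_ (hc'.val.pull hτ ha hz (by rw [het, hkz]))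
    rw [hnews, Finset.union_empty]
    exact ⟨y, hyF, hyB⟩
  -- the average
  have hav := Phi_average hτ ha h hpr B δ hk
  rw [hc'.eq] at hav
  have hmass : ∀ e, 0 ≤ mass σ μ (s e) := by
    intro e
    unfold mass
    refine Finset.sum_nonneg fun p _ => ?_
    split_ifs
    · exact (h.mu_pos p).le
    · exact le_rfl
  have hsum : ∑ e, (if t e = k then mass σ μ (s e) * pr e *
      (M - Phi σ μ (pull s σ a τ c' B δ e) (B ∪ news s σ a τ c' B e)) else 0) = 0 := by
    have h1 : ∑ e, (if t e = k then mass σ μ (s e) * pr e *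
        (M - Phi σ μ (pull s σ a τ c' B δ e) (B ∪ news s σ a τ c' B e)) else 0) =
        M * ∑ e, (if t e = k then mass σ μ (s e) * pr e else 0) -
        ∑ e, (if t e = k then mass σ μ (s e) * pr e *
          Phi σ μ (pull s σ a τ c' B δ e) (B ∪ news s σ a τ c' B e) else 0) := by
      rw [Finset.mul_sum, ← Finset.sum_sub_distrib]
      refine Finset.sum_congr rfl fun e _ => ?_
      split_ifs <;> ring
    rw [h1, hav, h.mass_sum ha]
    ring
  have hpair : ∑ e ∈ ({e₀, τ e₀} : Finset E), (if t e = k then mass σ μ (s e) * pr e *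
      (M - Phi σ μ (pull s σ a τ c' B δ e) (B ∪ news s σ a τ c' B e)) else 0) ≤ 0 := by
    refine le_of_le_of_eq ?_ hsum
    refine Finset.sum_le_sum_of_subset_of_nonneg
      (Finset.subset_univ ({e₀, τ e₀} : Finset E)) fun e _ he => ?_
    rw [Finset.mem_insert, Finset.mem_singleton, not_or] at he
    split_ifs with hek'
    · refine mul_nonneg (mul_nonneg (hmass e) (h.pr_pos e).le) ?_
      have := hother e hek' he.1 he.2
      linarith
    · exact le_rfl
  rw [Finset.sum_pair he0τ, if_pos hek, if_pos (by rw [hτ.ht]; exact hek), hτ.hs, hpr,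
    ← mul_add] at hpair
  obtain ⟨p, hp⟩ := hsu e₀
  have hpos : 0 < mass σ μ (s e₀) * pr e₀ := by
    rw [hp]
    exact mul_pos (mass_pos h.mu_pos p) (h.pr_pos e₀)
  have h2M : (M - Phi σ μ (pull s σ a τ c' B δ e₀) (B ∪ news s σ a τ c' B e₀)) +
      (M - Phi σ μ (pull s σ a τ c' B δ (τ e₀)) (B ∪ news s σ a τ c' B (τ e₀))) ≤ 0 := by
    by_contra hcon
    push Not at hcon
    have := mul_pos hpos hcon
    linarith
  -- weights
  have hF : ∑ x ∈ flex s σ a τ, wt σ μ x.1 ≤ ∑ x ∈ B ∪ news s σ a τ c' B e₀, wt σ μ x.1 :=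
    Finset.sum_le_sum_of_subset_of_nonneg hcov fun x _ _ => (wt_pos h.mu_pos _).le
  have h1 := pull_le hτ ha hcn h hpr hsu hno hnsf hc'.val hz he₀ hp₀
  have h2 := pull_le hτ ha hcn h hpr hsu hno hnsf hc'.val hz (e := τ e₀)
    (by rw [hτ.ht]; exact he₀) (p₀ := p₀) (by rw [cut_tau hτ]; exact hp₀)
  rw [news_tau hτ] at h2M
  unfold Phi at h2M
  have h3 := hset c₀ hc₀
  linarith

end Third

end Pool.Agent.H26.Bunchy
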