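import Pool.Agent.H97.Bun.TwoWt
import Pool.Agent.H97.Bun.Two
import Pool.Agent.H26.Bunchy.Third

/-!
# Two colourings that differ in one flexible slot are not both of rank two
-/

set_option autoImplicit false
set_option linter.unusedSectionVars false
set_option linter.deprecated false

namespace Pool.Agent.H26.Bunchy

open Pool.Agent.H75.Bunchy
open scoped Classical

/-- a function that changes its sign under two involutions without fixed points -/
lemma exists_sign {V : Type*} [Fintype V] {T T' : V → V} (h1 : ∀ p, T (T p) = p)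
    (h2 : ∀ p, T p ≠ p) (h1' : ∀ p, T' (T' p) = p) (h2' : ∀ p, T' p ≠ p) :
    ∃ f : V → ℝ, (∀ p, f p ≠ 0) ∧ (∀ p, f (T p) = - f p) ∧ ∀ p, f (T' p) = - f p := by
  set A : Equiv.Perm V := Function.Involutive.toPerm T h1 with hA
  set A' : Equiv.Perm V := Function.Involutive.toPerm T' h1' with hA'
  have hAT : ∀ p, A p = T p := fun p => rfl
  have hAT' : ∀ p, A' p = T' p := fun p => rfl
  have hAA : A * A = 1 := by
    ext p; simp [Equiv.Perm.mul_apply, hAT, h1]
  have hAA' : A' * A' = 1 := by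
    ext p; simp [Equiv.Perm.mul_apply, hAT', h1']
  set R : Equiv.Perm V := A * A' with hR
  have hAR : A * R = R⁻¹ * A := by
    have e1 : A⁻¹ = A := inv_eq_of_mul_eq_one_left hAA
    have e2 : A'⁻¹ = A' := inv_eq_of_mul_eq_one_left hAA'
    rw [hR, mul_inv_rev, e1, e2, ← mul_assoc, hAA, one_mul, mul_assoc, hAA, mul_one]
  have hsemi : ∀ i : ℤ, A * R ^ i = R⁻¹ ^ i * A := by
    intro i
    have : SemiconjBy A R R⁻¹ := hAR
    exact this.zpow_right i
  have hsemi' : ∀ (i : ℤ) (p : V), A ((R ^ i) p) = (R ^ (-i)) (A p) := by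
    intro i p
    have := congrArg (fun g : Equiv.Perm V => g p) (hsemi i)
    simp only [Equiv.Perm.mul_apply] at this
    rw [this, inv_zpow, zpow_neg]
  have hno : ∀ (i : ℤ) (p : V), (R ^ i) p ≠ A p := by
    intro i p hp
    obtain ⟨m, rfl | rfl⟩ := Int.even_or_odd' i
    · have h3 : A ((R ^ m) p) = (R ^ m) p := by
        rw [hsemi', ← hp, ← Equiv.Perm.mul_apply, ← zpow_add]
        congr 2
        ring
      exact h2 _ h3
    · have h3 : A ((R ^ m) p) = R ((R ^ m) p) := by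
        rw [hsemi', ← hp, ← Equiv.Perm.mul_apply, ← zpow_add, ← Equiv.Perm.mul_apply,
          ← zpow_one_add]
        congr 2
        ring
      rw [hR, Equiv.Perm.mul_apply] at h3
      have h4 := A.injective h3
      exact h2' _ h4.symm
  have hno' : ∀ p, ¬ R.SameCycle p (A p) := by
    rintro p ⟨i, hi⟩
    exact hno i p hi
  set S := Equiv.Perm.SameCycle.setoid R with hS
  set r : V → V := fun p => (Quotient.mk S p).out with hr
  have hreq : ∀ p q, r p = r q ↔ R.SameCycle p q := by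
    intro p q
    simp only [hr]
    rw [Quotient.out_inj, Quotient.eq]
    rfl
  have hrT : ∀ p, r p ≠ r (T p) := fun p h => hno' p ((hreq _ _).1 h)
  have hrT' : ∀ p, r (T' p) = r (T p) := by
    intro p
    rw [hreq]
    refine ⟨1, ?_⟩
    rw [zpow_one, hR, Equiv.Perm.mul_apply]
    show T (T' (T' p)) = T p
    rw [h1']
  have hrTT' : ∀ p, r (T (T' p)) = r p := by
    intro p
    rw [hreq]
    refine ⟨-1, ?_⟩
    rw [zpow_neg_one, Equiv.Perm.inv_eq_iff_eq]
    rfl
  set idx := Fintype.equivFin V with hidx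
  refine ⟨fun p => if idx (r p) < idx (r (T p)) then 1 else -1, fun p => ?_, fun p => ?_,
    fun p => ?_⟩
  · simp only
    split_ifs <;> norm_num
  · simp only
    rw [h1]
    have h3 : idx (r p) ≠ idx (r (T p)) := fun h => hrT p (idx.injective h)
    rcases lt_or_gt_of_ne h3 with h4 | h4
    · rw [if_neg (not_lt.2 h4.le), if_pos h4]
    · rw [if_pos h4, if_neg (not_lt.2 h4.le), neg_neg]
  · simp only
    rw [hrT', hrTT']
    have h3 : idx (r p) ≠ idx (r (T p)) := fun h => hrT p (idx.injective h)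
    rcases lt_or_gt_of_ne h3 with h4 | h4
    · rw [if_neg (not_lt.2 h4.le), if_pos h4]
    · rw [if_pos h4, if_neg (not_lt.2 h4.le), neg_neg]

variable {V K E : Type*} [Fintype V] [Fintype E] {s t : E → K} {σ : V → K} {a : V → E → V}
  {τ : E → E} {pr : E → ℝ} {μ : V → ℝ}

/-- Two automata that differ at one state by an exchange of two letters: not both of rank two. -/
theorem nsf22_aut {b b' : V → E → V} (hb : Typed s t σ b) (hb' : Typed s t σ b')
    (hcn : Conn s σ b) (hcn' : Conn s σ b') (h : Stat s σ b pr μ) (h' : Stat s σ b' pr μ)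
    (hno : NoStable s t σ b) (hno' : NoStable s t σ b') (hr : rank s t σ b = 2)
    (hr' : rank s t σ b' = 2) {p₀ : V} {e₀ : E} (he₀ : s e₀ = σ p₀) {τe₀ : E}
    (hsτ : s τe₀ = s e₀) (htτ : t τe₀ = t e₀)
    (hne : b p₀ e₀ ≠ b p₀ τe₀) (hx : b' p₀ e₀ = b p₀ τe₀) (hy : b' p₀ τe₀ = b p₀ e₀)
    (hother : ∀ p e, s e = σ p → ¬ (p = p₀ ∧ (e = e₀ ∨ e = τe₀)) → b' p e = b p e) : False := by
  obtain ⟨T, hT1, hT2, hT3, hT4⟩ := Pool.Agent.H97.Bun.exists_tau hb hcn hno hr
  obtain ⟨T', hT1', hT2', hT3', hT4'⟩ := Pool.Agent.H97.Bun.exists_tau hb' hcn' hno' hr'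
  obtain ⟨f₀, hf0, hfT, hfT'⟩ := exists_sign hT1 hT2 hT1' hT2'
  -- step 1
  have step1 : ∀ f : V → ℝ, (∀ p, f (T p) = - f p) → (∀ p, f (T' p) = - f p) →
      f (b p₀ e₀) = f (b p₀ τe₀) := by
    intro f hf hf'
    have m1 : Pool.Agent.H97.Bun.mean σ μ (s e₀) (fun p => f (b p e₀)) = 0 :=
      Pool.Agent.H97.Bun.anti_mean hT1 hT3
        (fun p => Pool.Agent.H97.Bun.wt_tau hb hcn h hT1 hT3 hT4 p)
        (fun p hp => by rw [hT4 p e₀ hp.symm, hf])
    have m2 : Pool.Agent.H97.Bun.mean σ μ (s e₀) (fun p => f (b' p e₀)) = 0 :=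
      Pool.Agent.H97.Bun.anti_mean hT1' hT3'
        (fun p => Pool.Agent.H97.Bun.wt_tau hb' hcn' h' hT1' hT3' hT4' p)
        (fun p hp => by rw [hT4' p e₀ hp.symm, hf'])
    have m3 : wt σ μ p₀ * f (b' p₀ e₀) - wt σ μ p₀ * f (b p₀ e₀) = 0 := by
      have e1 : (∑ p, ((if σ p = s e₀ then wt σ μ p * f (b' p e₀) else 0) -
          (if σ p = s e₀ then wt σ μ p * f (b p e₀) else 0))) = 0 := by
        rw [Finset.sum_sub_distrib]
        unfold Pool.Agent.H97.Bun.mean at m1 m2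
        rw [m1, m2, sub_zero]
      rw [Finset.sum_eq_single p₀] at e1
      · rw [if_pos he₀.symm, if_pos he₀.symm] at e1
        exact e1
      · intro p _ hp
        split_ifs with hs
        · rw [hother p e₀ hs.symm (fun hc => hp hc.1), sub_self]
        · rw [sub_self]
      · intro hc; exact absurd (Finset.mem_univ _) hc
    have hw := wt_pos (σ := σ) h.mu_pos p₀
    rw [hx, ← mul_sub] at m3
    rcases mul_eq_zero.1 m3 with e1 | e1
    · exact absurd e1 hw.ne'
    · linarith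
  -- step 2
  have step2 : ∀ f : V → ℝ, (∀ p, f (T p) = - f p) → (∀ p, f (T' p) = - f p) →
      ∀ p e, s e = σ p → f (b' p e) = f (b p e) := by
    intro f hf hf' p e he
    by_cases hc : p = p₀ ∧ (e = e₀ ∨ e = τe₀)
    · obtain ⟨rfl, rfl | rfl⟩ := hc
      · rw [hx]; exact (step1 f hf hf').symm
      · rw [hy]; exact step1 f hf hf'
    · rw [hother p e he hc]
  -- the congruence
  have cong : ∀ (x y : V), σ x = σ y → (∀ f : V → ℝ, (∀ p, f (T p) = - f p) →
      (∀ p, f (T' p) = - f p) → f x = f y) → ∀ v, Valid s t (σ x) v →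
      ∀ f : V → ℝ, (∀ p, f (T p) = - f p) → (∀ p, f (T' p) = - f p) →
        f (run b x v) = f (run b y v) := by
    intro x y hxy hf v
    induction v generalizing x y with
    | nil => intro _ f h1 h2; exact hf f h1 h2
    | cons e v ih =>
      rintro ⟨hs, hv⟩ f h1 h2
      rw [run_cons, run_cons]
      have hsy : s e = σ y := by rw [hs, hxy]
      refine ih (b x e) (b y e) (by rw [hb x e hs, hb y e hsy]) ?_ (by rw [hb x e hs]; exact hv)
        f h1 h2
      intro g hg hg'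
      have e1 := hf (fun p => if s e = σ p then g (b p e) else g p)
        (fun p => by
          rw [hT3]
          by_cases hp : s e = σ p
          · rw [if_pos hp, if_pos hp, hT4 p e hp, hg]
          · rw [if_neg hp, if_neg hp, hg])
        (fun p => by
          rw [hT3']
          by_cases hp : s e = σ p
          · rw [if_pos hp, if_pos hp, ← step2 g hg hg' p e hp,
              ← step2 g hg hg' (T' p) e (by rw [hT3']; exact hp), hT4' p e hp, hg']
          · rw [if_neg hp, if_neg hp, hg'])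
      rw [if_pos hs, if_pos hsy] at e1
      exact e1
  -- partners are dead
  have hdeadT : ∀ p, Dead s t σ b p (T p) := by
    intro p
    refine ⟨(hT3 p).symm, fun v hv => ?_⟩
    rw [Pool.Agent.H97.Bun.run_tau hb hT4 v p hv]
    exact (hT2 _).symm
  have hdead : ∀ p q, Dead s t σ b p q → q = T p := by
    intro p q hpq
    have hpne : ∀ x y, Dead s t σ b x y → x ≠ y := by
      rintro x y hxy rfl
      exact hxy.2 [] trivial rfl
    have hpair : ∀ x y, Dead s t σ b x y → DeadSet s t σ b {y, x} := by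
      intro x y hxy u hu v hv huv
      rcases hu with rfl | hu <;> rcases hv with rfl | hv
      · exact absurd rfl huv
      · rw [Set.mem_singleton_iff] at hv; subst hv; exact hxy.symm
      · rw [Set.mem_singleton_iff] at hu; subst hu; exact hxy
      · rw [Set.mem_singleton_iff] at hu hv; exact absurd (hu.trans hv.symm) huv
    refine hno q (T p) (stable_of_swap hb hcn (Z := {p}) (x := q) (y := T p) ?_ ?_ ?_ ?_ ?_ ?_)
    · simpa using (hpne _ _ hpq).symm
    · simpa using hT2 p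
    · rw [← hpq.1, hT3]
    · exact hpair _ _ hpq
    · exact hpair _ _ (hdeadT p)
    · rw [hr]
      exact Set.ncard_pair (hpne _ _ hpq).symm
  -- conclusion
  have hs' : s τe₀ = σ p₀ := by rw [hsτ]; exact he₀
  have hσ : σ (b p₀ e₀) = σ (b p₀ τe₀) := by rw [hb _ _ he₀, hb _ _ hs', htτ]
  refine hne (hno _ _ ⟨hσ, fun v hv => ?_⟩)
  by_contra hcon
  push Not at hcon
  have hrt : σ (run b (b p₀ e₀) v) = fin t (σ (b p₀ e₀)) v := hb.run _ _ hv
  have hrt' : σ (run b (b p₀ τe₀) v) = fin t (σ (b p₀ e₀)) v := by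
    rw [hb.run _ _ (by rw [← hσ]; exact hv), hσ]
  have hd : Dead s t σ b (run b (b p₀ e₀) v) (run b (b p₀ τe₀) v) := by
    refine ⟨by rw [hrt, hrt'], fun u hu => ?_⟩
    have := hcon u (by rw [← hrt]; exact hu)
    rwa [run_append, run_append] at this
  have e1 := hdead _ _ hd
  have e2 := cong (b p₀ e₀) (b p₀ τe₀) hσ step1 v hv f₀ hfT hfT'
  rw [e1, hfT] at e2
  have e3 := hf0 (run b (b p₀ e₀) v)
  apply e3
  linarith

/-- **nsf22** -/
theorem nsf22_tw (hτ : Swp s t τ) (ha : Typed s t σ a) (hcn : Conn s σ a)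
    (h : Stat s σ a pr μ) (hpr : ∀ e, pr (τ e) = pr e)
    (hno : ∀ δ, NoStable s t σ (tw τ δ a)) (δ : Set (V × Sym2 E)) (p : V) (e : E)
    (he : s e = σ p) (hne : a p e ≠ a p (τ e)) (hr : rank s t σ (tw τ δ a) = 2) :
    rank s t σ (tw τ (symmDiff δ {slot τ p e}) a) ≠ 2 := by
  intro hr'
  set δ' := symmDiff δ {slot τ p e} with hδ'
  have hmem : ∀ y, y ≠ slot τ p e → (y ∈ δ' ↔ y ∈ δ) := by
    intro y hy
    rw [hδ', Set.mem_symmDiff, Set.mem_singleton_iff]
    constructor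
    · rintro (⟨h, _⟩ | ⟨h, _⟩)
      · exact h
      · exact absurd h hy
    · intro h; exact Or.inl ⟨h, hy⟩
  have hmem0 : slot τ p e ∈ δ' ↔ slot τ p e ∉ δ := by
    rw [hδ', Set.mem_symmDiff, Set.mem_singleton_iff]
    tauto
  have hflip : tw τ δ' a p e = tw τ δ a p (τ e) := by
    rw [tw_tau hτ]
    unfold tw
    by_cases hd : slot τ p e ∈ δ
    · rw [if_neg (fun h => (hmem0.1 h) hd), if_pos hd]
    · rw [if_pos (hmem0.2 hd), if_neg hd]
  have hflip' : tw τ δ' a p (τ e) = tw τ δ a p e := by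
    rw [tw_tau hτ]
    unfold tw
    by_cases hd : slot τ p e ∈ δ
    · rw [if_neg (fun h => (hmem0.1 h) hd), if_pos hd]
    · rw [if_pos (hmem0.2 hd), if_neg hd]
  refine nsf22_aut (tw_typed hτ ha δ) (tw_typed hτ ha δ') (tw_conn hτ hcn δ) (tw_conn hτ hcn δ')
    (h.tw hτ hpr δ) (h.tw hτ hpr δ') (hno δ) (hno δ') hr hr' he (hτ.hs e) (hτ.ht e)
    (tw_ne hτ δ hne) hflip hflip' ?_
  intro q e' _ hc
  have hsl : slot τ q e' ≠ slot τ p e := by
    intro heq
    obtain ⟨h1, h2⟩ := slot_eq heq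
    exact hc ⟨h1, h2⟩
  unfold tw
  by_cases hd : slot τ q e' ∈ δ
  · rw [if_pos hd, if_pos ((hmem _ hsl).2 hd)]
  · rw [if_neg hd, if_neg (fun h => hd ((hmem _ hsl).1 h))]

/-- **Two thirds.** -/
theorem third_bound (hτ : Swp s t τ) (ha : Typed s t σ a) (hcn : Conn s σ a)
    (h : Stat s σ a pr μ) (hpr : ∀ e, pr (τ e) = pr e) (hsu : ∀ e, ∃ p, s e = σ p)
    (hno : ∀ δ, NoStable s t σ (tw τ δ a)) (hfl : (flex s σ a τ).Nonempty) :
    ∃ x ∈ flex s σ a τ, ∀ c₀, Val s t σ a τ c₀ ∅ ∅ →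
      3 * (2 * ∑ p ∈ c₀, wt σ μ p + ∑ y ∈ flex s σ a τ, wt σ μ y.1) ≤ 2 + 6 * wt σ μ x.1 :=
  third_bound_of hτ ha hcn h hpr hsu hno
    (fun δ p e he hne hr => nsf22_tw hτ ha hcn h hpr hno δ p e he hne hr) hfl

/-- **One third**: if some slot is flexible, then a set collapsed by one word for all colourings has
relative weight at most one third. -/
theorem third_collapse (hτ : Swp s t τ) (ha : Typed s t σ a) (hcn : Conn s σ a)
    (h : Stat s σ a pr μ) (hpr : ∀ e, pr (τ e) = pr e) (hsu : ∀ e, ∃ p, s e = σ p)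
    (hno : ∀ δ, NoStable s t σ (tw τ δ a)) (hfl : (flex s σ a τ).Nonempty)
    {c₀ : Finset V} (hc₀ : Val s t σ a τ c₀ ∅ ∅) : 3 * ∑ p ∈ c₀, wt σ μ p ≤ 1 := by
  obtain ⟨y, hy⟩ := hfl
  unfold flex at hy
  rw [Finset.mem_filter] at hy
  obtain ⟨_, e, he, hne, _⟩ := hy
  have hr2 : ∀ δ₁ : Set (V × Sym2 E), 2 ≤ rank s t σ (tw τ δ₁ a) := fun δ₁ =>
    two_le_rank (tw_typed hτ ha δ₁) (tw_conn hτ hcn δ₁) (hno δ₁) (hτ.hs e) (hτ.ht e) he
      (tw_ne hτ δ₁ hne)
  obtain ⟨δ₁, h3⟩ : ∃ δ₁ : Set (V × Sym2 E), 3 ≤ rank s t σ (tw τ δ₁ a) := by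
    by_contra hcon
    push Not at hcon
    have h4 : ∀ δ₁, rank s t σ (tw τ δ₁ a) = 2 := fun δ₁ => by
      have := hcon δ₁
      have := hr2 δ₁
      omega
    exact nsf22_tw hτ ha hcn h hpr hno ∅ y.1 e he hne (h4 _) (h4 _)
  obtain ⟨k, hk, u, hu, hcol⟩ := hc₀
  have h1 := rank_mul_le (tw_typed hτ ha δ₁) (tw_conn hτ hcn δ₁) (h.tw hτ hpr δ₁) hsu
    (c := c₀) ⟨k, hk, u, hu, hcol δ₁ fun x hx => absurd hx (Finset.notMem_empty x)⟩ y.1
  have h2 : (3 : ℝ) ≤ rank s t σ (tw τ δ₁ a) := by exact_mod_cast h3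
  have h4 : 0 ≤ ∑ p ∈ c₀, wt σ μ p := Finset.sum_nonneg fun p _ => (wt_pos h.mu_pos p).le
  exact (mul_le_mul_of_nonneg_right h2 h4).trans h1

end Pool.Agent.H26.Bunchy
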