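import Pool.Agent.H75.Bunchy.Quot

/-!
# A potential for partially coloured automata

Typed automata with an involution `τ` on the letters (swapping some parallel letters). A slot is a
pair of a state `p` and an orbit `{e, τ e}`; a colouring is a set of slots at which the two letters
are swapped.
-/

set_option autoImplicit false
set_option linter.unusedSectionVars false
set_option linter.deprecated false

namespace Pool.Agent.H26.Bunchy

open Pool.Agent.H75.Bunchy
open scoped Classical

section Basic
variable {V K E : Type*} [Fintype V] [Fintype E]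

/-- stationary weights of the walk that uses the letter `e` with probability `pr e` -/
structure Stat (s : E → K) (σ : V → K) (a : V → E → V) (pr : E → ℝ) (μ : V → ℝ) : Prop where
  pr_pos : ∀ e, 0 < pr e
  mu_pos : ∀ p, 0 < μ p
  stat : ∀ q, ∑ p, ∑ e, (if s e = σ p ∧ a p e = q then pr e * μ p else 0) = μ q

/-- total weight of the states of type `k` -/
noncomputable def mass (σ : V → K) (μ : V → ℝ) (k : K) : ℝ := ∑ p, if σ p = k then μ p else 0

/-- relative weight -/
noncomputable def wt (σ : V → K) (μ : V → ℝ) (p : V) : ℝ := μ p / mass σ μ (σ p)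

variable {s t : E → K} {σ : V → K} {a : V → E → V} {pr : E → ℝ} {μ : V → ℝ}

lemma mass_pos (hμ : ∀ p, 0 < μ p) (p : V) : 0 < mass σ μ (σ p) := by
  unfold mass
  refine Finset.sum_pos' (fun q _ => ?_) ⟨p, Finset.mem_univ _, ?_⟩
  · split_ifs
    · exact (hμ q).le
    · exact le_rfl
  · simpa using hμ p

lemma wt_pos (hμ : ∀ p, 0 < μ p) (p : V) : 0 < wt σ μ p := div_pos (hμ p) (mass_pos hμ p)

lemma wt_mul (hμ : ∀ p, 0 < μ p) (p : V) : mass σ μ (σ p) * wt σ μ p = μ p := by
  unfold wt
  field_simp [(mass_pos (σ := σ) hμ p).ne']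

lemma sum_wt_fibre (hμ : ∀ p, 0 < μ p) (p : V) :
    ∑ q ∈ Finset.univ.filter (fun q => σ q = σ p), wt σ μ q = 1 := by
  have h1 : mass σ μ (σ p) * ∑ q ∈ Finset.univ.filter (fun q => σ q = σ p), wt σ μ q =
      mass σ μ (σ p) := by
    rw [Finset.mul_sum]
    conv_rhs => unfold mass
    rw [Finset.sum_filter]
    refine Finset.sum_congr rfl fun q _ => ?_
    split_ifs with h
    · rw [← h, wt_mul hμ]
    · rfl
  have h2 := (mass_pos (σ := σ) hμ p).ne'
  have h3 : mass σ μ (σ p) * ∑ q ∈ Finset.univ.filter (fun q => σ q = σ p), wt σ μ q =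
      mass σ μ (σ p) * 1 := by rw [h1, mul_one]
  exact mul_left_cancel₀ h2 h3

lemma Stat.sum (h : Stat s σ a pr μ) (A : V → ℝ) :
    ∑ p, ∑ e, (if s e = σ p then pr e * μ p * A (a p e) else 0) = ∑ q, μ q * A q := by
  have h1 : ∀ q, μ q * A q =
      ∑ p, ∑ e, (if s e = σ p ∧ a p e = q then pr e * μ p else 0) * A q := by
    intro q
    rw [← h.stat q, Finset.sum_mul]
    refine Finset.sum_congr rfl fun p _ => ?_
    rw [Finset.sum_mul]
  have h2 : ∑ q, μ q * A q =
      ∑ q, ∑ p, ∑ e, (if s e = σ p ∧ a p e = q then pr e * μ p else 0) * A q :=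
    Finset.sum_congr rfl fun q _ => h1 q
  symm
  rw [h2, Finset.sum_comm]
  refine Finset.sum_congr rfl fun p _ => ?_
  rw [Finset.sum_comm]
  refine Finset.sum_congr rfl fun e _ => ?_
  by_cases hs : s e = σ p
  · simp only [hs, if_true, true_and]
    rw [Finset.sum_eq_single (a p e)]
    · simp
    · intro q _ hq
      rw [if_neg (fun h => hq h.symm), zero_mul]
    · intro h; exact absurd (Finset.mem_univ _) h
  · simp [hs]

lemma Stat.mass_sum (h : Stat s σ a pr μ) (ha : Typed s t σ a) (k : K) :
    ∑ e, (if t e = k then mass σ μ (s e) * pr e else 0) = mass σ μ k := by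
  have h1 := h.sum (fun q => if σ q = k then 1 else 0)
  have h2 : ∑ q, μ q * (if σ q = k then (1 : ℝ) else 0) = mass σ μ k := by
    unfold mass
    refine Finset.sum_congr rfl fun q _ => ?_
    split_ifs <;> simp
  rw [h2] at h1
  rw [← h1, Finset.sum_comm]
  refine Finset.sum_congr rfl fun e _ => ?_
  by_cases hk : t e = k
  · rw [if_pos hk]
    unfold mass
    rw [Finset.sum_mul]
    refine Finset.sum_congr rfl fun p _ => ?_
    by_cases hp : s e = σ p
    · rw [if_pos hp, if_pos hp.symm, if_pos (by rw [ha p e hp, hk])]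
      ring
    · rw [if_neg hp, if_neg (fun h => hp h.symm)]
      ring
  · rw [if_neg hk]
    symm
    refine Finset.sum_eq_zero fun p _ => ?_
    by_cases hp : s e = σ p
    · rw [if_pos hp, if_neg (by rw [ha p e hp]; exact hk), mul_zero]
    · rw [if_neg hp]

end Basic

section Twist
variable {V K E : Type*}

/-- an involution of the letters preserving source and target types -/
structure Swp (s t : E → K) (τ : E → E) : Prop where
  inv : ∀ e, τ (τ e) = e
  hs : ∀ e, s (τ e) = s e
  ht : ∀ e, t (τ e) = t e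

/-- the slot of `p` and `e` -/
def slot (τ : E → E) (p : V) (e : E) : V × Sym2 E := (p, s(e, τ e))

/-- the recoloured automaton -/
noncomputable def tw (τ : E → E) (δ : Set (V × Sym2 E)) (a : V → E → V) : V → E → V :=
  fun p e => if slot τ p e ∈ δ then a p (τ e) else a p e

variable {s t : E → K} {σ : V → K} {a : V → E → V} {τ : E → E}

lemma slot_tau (hτ : Swp s t τ) (p : V) (e : E) : slot τ p (τ e) = slot τ p e := by
  unfold slot
  rw [hτ.inv, Sym2.eq_swap]

lemma slot_eq {p q : V} {e f : E} (h : slot τ p e = slot τ q f) :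
    p = q ∧ (e = f ∨ e = τ f) := by
  unfold slot at h
  rw [Prod.mk.injEq] at h
  refine ⟨h.1, ?_⟩
  have h2 := h.2
  rw [Sym2.eq_iff] at h2
  rcases h2 with h2 | h2
  · exact Or.inl h2.1
  · exact Or.inr h2.1

lemma tw_tau (hτ : Swp s t τ) (δ : Set (V × Sym2 E)) (p : V) (e : E) :
    tw τ δ a p (τ e) = if slot τ p e ∈ δ then a p e else a p (τ e) := by
  unfold tw
  rw [slot_tau hτ, hτ.inv]

lemma tw_typed (hτ : Swp s t τ) (ha : Typed s t σ a) (δ : Set (V × Sym2 E)) :
    Typed s t σ (tw τ δ a) := by
  intro p e he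
  unfold tw
  split_ifs
  · rw [ha p _ (by rw [hτ.hs]; exact he), hτ.ht]
  · exact ha p e he

lemma tw_step (hτ : Swp s t τ) (δ : Set (V × Sym2 E)) (p q : V) :
    Step s σ (tw τ δ a) p q ↔ Step s σ a p q := by
  constructor
  · rintro ⟨e, he, hq⟩
    by_cases h : slot τ p e ∈ δ
    · refine ⟨τ e, by rw [hτ.hs]; exact he, ?_⟩
      rw [← hq]; unfold tw; rw [if_pos h]
    · refine ⟨e, he, ?_⟩
      rw [← hq]; unfold tw; rw [if_neg h]
  · rintro ⟨e, he, hq⟩
    by_cases h : slot τ p e ∈ δ
    · refine ⟨τ e, by rw [hτ.hs]; exact he, ?_⟩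
      rw [tw_tau hτ, if_pos h, hq]
    · refine ⟨e, he, ?_⟩
      unfold tw; rw [if_neg h, hq]

lemma tw_conn (hτ : Swp s t τ) (hc : Conn s σ a) (δ : Set (V × Sym2 E)) :
    Conn s σ (tw τ δ a) := by
  intro p q
  have : Step s σ (tw τ δ a) = Step s σ a := by
    funext p q; exact propext (tw_step hτ δ p q)
  rw [this]; exact hc p q

lemma tw_empty : tw τ (∅ : Set (V × Sym2 E)) a = a := by
  funext p e; simp [tw]

variable [Fintype V] [Fintype E] {pr : E → ℝ} {μ : V → ℝ}

lemma sum_tau (hτ : Swp s t τ) (f : E → ℝ) : ∑ e, f (τ e) = ∑ e, f e :=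
  Fintype.sum_bijective τ (Function.Involutive.bijective hτ.inv) _ _ (fun _ => rfl)

lemma Stat.tw (h : Stat s σ a pr μ) (hτ : Swp s t τ) (hpr : ∀ e, pr (τ e) = pr e)
    (δ : Set (V × Sym2 E)) : Stat s σ (tw τ δ a) pr μ := by
  refine ⟨h.pr_pos, h.mu_pos, fun q => ?_⟩
  rw [← h.stat q]
  refine Finset.sum_congr rfl fun p _ => ?_
  have key : ∀ g : V → E → V, ∑ e, (if s e = σ p ∧ g p e = q then pr e * μ p else 0) =
      (1 / 2) * ∑ e, (if s e = σ p then ((if g p e = q then 1 else 0) +
        (if g p (τ e) = q then 1 else 0)) * (pr e * μ p) else 0) := by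
    intro g
    have h1 : ∑ e, (if s e = σ p ∧ g p e = q then pr e * μ p else 0) =
        ∑ e, (if s e = σ p ∧ g p (τ e) = q then pr e * μ p else 0) := by
      rw [← sum_tau hτ]
      refine Finset.sum_congr rfl fun e _ => ?_
      rw [hτ.hs, hpr]
    have h2 : ∑ e, (if s e = σ p then ((if g p e = q then 1 else 0) +
        (if g p (τ e) = q then 1 else 0)) * (pr e * μ p) else 0) =
        ∑ e, (if s e = σ p ∧ g p e = q then pr e * μ p else 0) +
        ∑ e, (if s e = σ p ∧ g p (τ e) = q then pr e * μ p else 0) := by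
      rw [← Finset.sum_add_distrib]
      refine Finset.sum_congr rfl fun e _ => ?_
      by_cases h1 : s e = σ p <;> by_cases h2 : g p e = q <;> by_cases h3 : g p (τ e) = q <;>
        simp [h1, h2, h3] <;> ring
    rw [h2, ← h1]; ring
  rw [key, key]
  congr 1
  refine Finset.sum_congr rfl fun e _ => ?_
  by_cases h1 : s e = σ p
  · rw [if_pos h1, if_pos h1]
    congr 1
    rw [tw_tau hτ]
    unfold Bunchy.tw
    by_cases hδ : slot τ p e ∈ δ
    · simp only [hδ, if_true]; ring
    · simp only [hδ, if_false]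
  · rw [if_neg h1, if_neg h1]

end Twist

section Potential
variable {V K E : Type*} [Fintype V] [Fintype E] {s t : E → K} {σ : V → K} {a : V → E → V}
  {τ : E → E} {pr : E → ℝ} {μ : V → ℝ}

/-- `c` is mapped to one state by one word, whatever the colours outside `B` are -/
def Val (s t : E → K) (σ : V → K) (a : V → E → V) (τ : E → E) (c : Finset V)
    (B : Finset (V × Sym2 E)) (δ : Set (V × Sym2 E)) : Prop :=
  ∃ k, (∀ x ∈ c, σ x = k) ∧ ∃ u, Valid s t k u ∧ ∀ δ' : Set (V × Sym2 E),
    (∀ x ∈ B, x ∈ δ' ↔ x ∈ δ) → ∀ x ∈ c, ∀ y ∈ c, run (tw τ δ' a) x u = run (tw τ δ' a) y u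

/-- the potential -/
noncomputable def Phi (σ : V → K) (μ : V → ℝ) (c : Finset V) (B : Finset (V × Sym2 E)) : ℝ :=
  ∑ p ∈ c, wt σ μ p - (1 / 2) * ∑ x ∈ B, wt σ μ x.1

/-- undecided states at which the two letters disagree about `c` -/
noncomputable def cut (s : E → K) (σ : V → K) (a : V → E → V) (τ : E → E) (c : Finset V)
    (B : Finset (V × Sym2 E)) (e : E) : Finset V :=
  Finset.univ.filter fun p => s e = σ p ∧ slot τ p e ∉ B ∧ ¬ (a p e ∈ c ↔ a p (τ e) ∈ c)

/-- preimage, with favourable decisions -/
noncomputable def pull (s : E → K) (σ : V → K) (a : V → E → V) (τ : E → E) (c : Finset V)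
    (B : Finset (V × Sym2 E)) (δ : Set (V × Sym2 E)) (e : E) : Finset V :=
  Finset.univ.filter fun p => s e = σ p ∧
    if slot τ p e ∈ B then tw τ δ a p e ∈ c else (a p e ∈ c ∨ a p (τ e) ∈ c)

/-- newly decided slots -/
noncomputable def news (s : E → K) (σ : V → K) (a : V → E → V) (τ : E → E) (c : Finset V)
    (B : Finset (V × Sym2 E)) (e : E) : Finset (V × Sym2 E) :=
  (cut s σ a τ c B e).image fun p => slot τ p e

/-- the new colours -/
noncomputable def ncol (s : E → K) (σ : V → K) (a : V → E → V) (τ : E → E) (c : Finset V)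
    (B : Finset (V × Sym2 E)) (δ : Set (V × Sym2 E)) (e : E) : Set (V × Sym2 E) :=
  {x | if x ∈ news s σ a τ c B e then a x.1 e ∉ c else x ∈ δ}

lemma mem_news {c : Finset V} {B : Finset (V × Sym2 E)} {e : E} {p : V} :
    slot τ p e ∈ news s σ a τ c B e ↔ p ∈ cut s σ a τ c B e := by
  unfold news
  rw [Finset.mem_image]
  constructor
  · rintro ⟨q, hq, h⟩
    rw [← (slot_eq h).1]; exact hq
  · intro h; exact ⟨p, h, rfl⟩

lemma news_disj (c : Finset V) (B : Finset (V × Sym2 E)) (e : E) :
    Disjoint B (news s σ a τ c B e) := by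
  rw [Finset.disjoint_left]
  intro x hx hx'
  unfold news at hx'
  rw [Finset.mem_image] at hx'
  obtain ⟨p, hp, rfl⟩ := hx'
  unfold cut at hp
  rw [Finset.mem_filter] at hp
  exact hp.2.2.1 hx

lemma Val.pull (hτ : Swp s t τ) (ha : Typed s t σ a) {c : Finset V}
    {B : Finset (V × Sym2 E)} {δ : Set (V × Sym2 E)} (h : Val s t σ a τ c B δ) {e : E} {z : V}
    (hz : z ∈ c) (he : t e = σ z) :
    Val s t σ a τ (Bunchy.pull s σ a τ c B δ e) (B ∪ news s σ a τ c B e)
      (ncol s σ a τ c B δ e) := by
  obtain ⟨k, hk, u, hu, hcol⟩ := h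
  have hkz := hk z hz
  refine ⟨s e, ?_, e :: u, ⟨rfl, by rw [he, hkz]; exact hu⟩, ?_⟩
  · intro x hx
    unfold Bunchy.pull at hx
    rw [Finset.mem_filter] at hx
    exact hx.2.1.symm
  · intro δ' hδ'
    have hB : ∀ x ∈ B, x ∈ δ' ↔ x ∈ δ := by
      intro x hx
      rw [hδ' x (Finset.mem_union_left _ hx)]
      have : x ∉ news s σ a τ c B e := fun h =>
        (Finset.disjoint_left.1 (news_disj c B e) hx) h
      unfold ncol
      simp [this]
    have hin : ∀ x ∈ Bunchy.pull s σ a τ c B δ e, tw τ δ' a x e ∈ c := by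
      intro x hx
      unfold Bunchy.pull at hx
      rw [Finset.mem_filter] at hx
      obtain ⟨_, hsx, hx⟩ := hx
      by_cases hxB : slot τ x e ∈ B
      · rw [if_pos hxB] at hx
        have := hB _ hxB
        unfold tw at hx ⊢
        by_cases h1 : slot τ x e ∈ δ
        · rw [if_pos h1] at hx; rw [if_pos (this.2 h1)]; exact hx
        · rw [if_neg h1] at hx; rw [if_neg (fun h => h1 (this.1 h))]; exact hx
      · rw [if_neg hxB] at hx
        by_cases hcut : a x e ∈ c ↔ a x (τ e) ∈ c
        · have h1 : a x e ∈ c := by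
            rcases hx with h | h
            · exact h
            · exact hcut.2 h
          unfold tw
          split_ifs
          · exact hcut.1 h1
          · exact h1
        · have hn : slot τ x e ∈ news s σ a τ c B e := by
            rw [mem_news]
            unfold cut
            rw [Finset.mem_filter]
            exact ⟨Finset.mem_univ _, hsx, hxB, hcut⟩
          have h2 := hδ' _ (Finset.mem_union_right _ hn)
          have h3 : slot τ x e ∈ ncol s σ a τ c B δ e ↔ a x e ∉ c := by
            unfold ncol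
            simp only [Set.mem_setOf_eq, hn, if_true]
            rfl
          rw [h3] at h2
          unfold tw
          by_cases h4 : a x e ∈ c
          · rw [if_neg (fun h => (h2.1 h) h4)]; exact h4
          · rw [if_pos (h2.2 h4)]
            rcases hx with h | h
            · exact absurd h h4
            · exact h
    intro x hx y hy
    rw [run_cons, run_cons]
    exact hcol δ' hB _ (hin x hx) _ (hin y hy)

lemma Phi_average (hτ : Swp s t τ) (ha : Typed s t σ a) (h : Stat s σ a pr μ)
    (hpr : ∀ e, pr (τ e) = pr e) {c : Finset V} (B : Finset (V × Sym2 E))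
    (δ : Set (V × Sym2 E)) {k : K} (hk : ∀ x ∈ c, σ x = k) :
    ∑ e, (if t e = k then mass σ μ (s e) * pr e *
      Phi σ μ (pull s σ a τ c B δ e) (B ∪ news s σ a τ c B e) else 0) =
      mass σ μ k * Phi σ μ c B := by
  -- the indicator functions
  set X : V → E → ℝ := fun p e => if (if slot τ p e ∈ B then tw τ δ a p e ∈ c
    else (a p e ∈ c ∨ a p (τ e) ∈ c)) then 1 else 0 with hX
  set Y : V → E → ℝ := fun p e => if slot τ p e ∉ B ∧ ¬ (a p e ∈ c ↔ a p (τ e) ∈ c)
    then 1 else 0 with hY
  set A : V → ℝ := fun q => if q ∈ c then 1 else 0 with hA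
  have hXY : ∀ p e, X p e + X p (τ e) - Y p e = A (a p e) + A (a p (τ e)) := by
    intro p e
    simp only [hX, hY, hA, slot_tau hτ, tw_tau hτ, hτ.inv]
    by_cases hB : slot τ p e ∈ B
    · by_cases hδ : slot τ p e ∈ δ
      · simp only [tw, hB, hδ, if_true, not_true_eq_false, false_and, if_false, sub_zero]
        ring
      · simp only [tw, hB, hδ, if_true, not_true_eq_false, false_and, if_false, sub_zero]
    · by_cases h1 : a p e ∈ c <;> by_cases h2 : a p (τ e) ∈ c <;> simp [hB, h1, h2]
  -- value of the potential of the preimages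
  have hPhi : ∀ e, mass σ μ (s e) * Phi σ μ (pull s σ a τ c B δ e) (B ∪ news s σ a τ c B e) =
      ∑ p, (if s e = σ p then μ p * (X p e - (1 / 2) * Y p e) else 0) -
        mass σ μ (s e) * ((1 / 2) * ∑ x ∈ B, wt σ μ x.1) := by
    intro e
    unfold Phi
    rw [Finset.sum_union (news_disj c B e)]
    have h1 : ∑ x ∈ news s σ a τ c B e, wt σ μ x.1 = ∑ p ∈ cut s σ a τ c B e, wt σ μ p := by
      unfold news
      rw [Finset.sum_image]
      · rfl
      · intro p _ q _ hpq
        exact (slot_eq hpq).1
    have h2 : mass σ μ (s e) * ∑ p ∈ pull s σ a τ c B δ e, wt σ μ p =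
        ∑ p, (if s e = σ p then μ p * X p e else 0) := by
      unfold pull
      rw [Finset.mul_sum, Finset.sum_filter]
      refine Finset.sum_congr rfl fun p _ => ?_
      by_cases hp : s e = σ p
      · simp only [hp, true_and, if_true, hX]
        split_ifs <;> simp [wt_mul h.mu_pos]
      · simp [hp]
    have h3 : mass σ μ (s e) * ∑ p ∈ cut s σ a τ c B e, wt σ μ p =
        ∑ p, (if s e = σ p then μ p * Y p e else 0) := by
      unfold cut
      rw [Finset.mul_sum, Finset.sum_filter]
      refine Finset.sum_congr rfl fun p _ => ?_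
      by_cases hp : s e = σ p
      · simp only [hp, true_and, if_true, hY]
        split_ifs <;> simp [wt_mul h.mu_pos]
      · simp [hp]
    have h4 : ∑ p, (if s e = σ p then μ p * (X p e - (1 / 2) * Y p e) else 0) =
        ∑ p, (if s e = σ p then μ p * X p e else 0) -
          (1 / 2) * ∑ p, (if s e = σ p then μ p * Y p e else 0) := by
      rw [Finset.mul_sum, ← Finset.sum_sub_distrib]
      refine Finset.sum_congr rfl fun p _ => ?_
      split_ifs <;> ring
    rw [h4, ← h2, ← h3, h1]
    ring
  have h1 : ∑ e, (if t e = k then mass σ μ (s e) * pr e *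
      Phi σ μ (pull s σ a τ c B δ e) (B ∪ news s σ a τ c B e) else 0) =
      ∑ e, (if t e = k then pr e * ∑ p, (if s e = σ p then μ p * (X p e - (1 / 2) * Y p e)
        else 0) else 0) -
      (∑ e, (if t e = k then mass σ μ (s e) * pr e else 0)) *
        ((1 / 2) * ∑ x ∈ B, wt σ μ x.1) := by
    rw [Finset.sum_mul, ← Finset.sum_sub_distrib]
    refine Finset.sum_congr rfl fun e _ => ?_
    split_ifs
    · have := hPhi e
      calc mass σ μ (s e) * pr e * Phi σ μ (pull s σ a τ c B δ e) (B ∪ news s σ a τ c B e)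
          = pr e * (mass σ μ (s e) *
            Phi σ μ (pull s σ a τ c B δ e) (B ∪ news s σ a τ c B e)) := by ring
        _ = _ := by rw [this]; ring
    · ring
  rw [h1, h.mass_sum ha]
  -- symmetrize
  have h2 : ∑ e, (if t e = k then pr e * ∑ p, (if s e = σ p then
      μ p * (X p e - (1 / 2) * Y p e) else 0) else 0) =
      ∑ p, ∑ e, (if s e = σ p then pr e * μ p * (if t e = k then X p e - (1 / 2) * Y p e
        else 0) else 0) := by
    rw [Finset.sum_comm]
    refine Finset.sum_congr rfl fun e _ => ?_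
    by_cases hek : t e = k
    · simp only [hek, if_true]
      rw [Finset.mul_sum]
      refine Finset.sum_congr rfl fun p _ => ?_
      split_ifs <;> ring
    · simp [hek]
  have h3 : ∀ p, ∑ e, (if s e = σ p then pr e * μ p * (if t e = k then X p e - (1 / 2) * Y p e
        else 0) else 0) =
      ∑ e, (if s e = σ p then pr e * μ p * A (a p e) else 0) := by
    intro p
    have hAk : ∀ e, (if s e = σ p then pr e * μ p * A (a p e) else 0) =
        (if s e = σ p then pr e * μ p * (if t e = k then A (a p e) else 0) else 0) := by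
      intro e
      by_cases hp : s e = σ p
      · simp only [hp, if_true]
        by_cases hek : t e = k
        · simp [hek]
        · have : a p e ∉ c := by
            intro hin
            have h1 := hk _ hin
            rw [ha p e hp] at h1
            exact hek h1
          simp [hA, this, hek]
      · simp [hp]
    simp_rw [hAk]
    have sym : ∀ f : E → ℝ, ∑ e, (if s e = σ p then pr e * μ p * (if t e = k then f e else 0)
        else 0) = (1 / 2) * ∑ e, (if s e = σ p then pr e * μ p * (if t e = k then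
          f e + f (τ e) else 0) else 0) := by
      intro f
      have h4 : ∑ e, (if s e = σ p then pr e * μ p * (if t e = k then f e else 0) else 0) =
          ∑ e, (if s e = σ p then pr e * μ p * (if t e = k then f (τ e) else 0) else 0) := by
        rw [← sum_tau hτ]
        refine Finset.sum_congr rfl fun e _ => ?_
        rw [hτ.hs, hpr, hτ.ht]
      have h5 : ∑ e, (if s e = σ p then pr e * μ p * (if t e = k then
          f e + f (τ e) else 0) else 0) =
          ∑ e, (if s e = σ p then pr e * μ p * (if t e = k then f e else 0) else 0) +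
          ∑ e, (if s e = σ p then pr e * μ p * (if t e = k then f (τ e) else 0) else 0) := by
        rw [← Finset.sum_add_distrib]
        refine Finset.sum_congr rfl fun e _ => ?_
        split_ifs <;> ring
      rw [h5, ← h4]; ring
    rw [sym (fun e => X p e - (1 / 2) * Y p e), sym (fun e => A (a p e))]
    congr 1
    refine Finset.sum_congr rfl fun e _ => ?_
    have hYτ : Y p (τ e) = Y p e := by
      simp only [hY, slot_tau hτ, hτ.inv]
      congr 1
      rw [eq_iff_iff]
      constructor
      · rintro ⟨h1, h2⟩; exact ⟨h1, fun h => h2 h.symm⟩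
      · rintro ⟨h1, h2⟩; exact ⟨h1, fun h => h2 h.symm⟩
    have := hXY p e
    split_ifs
    · rw [hYτ]
      have h6 : X p e - 1 / 2 * Y p e + (X p (τ e) - 1 / 2 * Y p e) =
        A (a p e) + A (a p (τ e)) := by rw [← this]; ring
      rw [h6]
    · rfl
    · rfl
  rw [h2]
  simp_rw [h3]
  rw [h.sum]
  have h4 : ∑ q, μ q * A q = mass σ μ k * ∑ p ∈ c, wt σ μ p := by
    rw [Finset.mul_sum, ← Finset.sum_subset (Finset.subset_univ c)]
    · refine Finset.sum_congr rfl fun q hq => ?_
      rw [← hk q hq, wt_mul h.mu_pos]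
      simp [hA, hq]
    · intro q _ hq
      simp [hA, hq]
  rw [h4]
  unfold Phi
  ring

end Potential

end Pool.Agent.H26.Bunchy
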