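import Pool.Agent.H26.Bunchy.Uht
import Pool.Agent.H26.Bunchy.Graphs
import Pool.Agent.H43.TR.Comb

/-!
# Closed walks with rigid tail: double bunches

Graph form of the road colouring argument, for closed walks of the base all of whose steps but the
first are rigid.
-/

set_option autoImplicit false
set_option linter.unusedSectionVars false
set_option linter.deprecated false

namespace Pool.Agent.H26.Bunchy

open Pool.Agent.H75.Bunchy
open scoped Classical

variable {G H : Graph}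

/-- all steps of the walk `J, β` of `H` are rigid: every vertex over a vertex of the walk has
exactly one follower over the next vertex -/
def RigidWalk {G H : Graph} (v : G.V → H.V) : H.V → List H.V → Prop
  | _, [] => True
  | J, K :: β => (∀ x, v x = J → (FollowersOver v x K).ncard = 1) ∧ RigidWalk v K β

/-- the vertices over `I` at which walks over arbitrarily many repetitions of `γ`, starting over
`I`, end -/
def EndCore {G H : Graph} (v : G.V → H.V) (I : H.V) (γ : List H.V) : Set G.V :=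
  {x | ∀ m : ℕ, ∃ y, v y = I ∧ Along v y (List.replicate m γ).flatten x}

/-- the combinatorial part, on choice functions -/
def ChoiceTree : Prop :=
  ∀ (X : Type) [Finite X] (D : X → Set X), (∀ x, (D x).Nonempty) → (∀ y, ∃ x, y ∈ D x) →
    (∀ x, (D x).ncard = 1) ∨ (∃ s u r, s ≠ u ∧ D s = {r} ∧ D u = {r}) ∨
    ∃ φ : X → X, (∀ x, φ x ∈ D x) ∧ ∃ (k : ℕ) (x₀ z : X), (φ^[k]) x₀ = z ∧
      (∀ n, 0 < n → (φ^[n]) z ≠ z) ∧
      ∀ x, (φ^[k]) x = z ∨ ∃ n, 0 < n ∧ (φ^[n]) ((φ^[k]) x) = (φ^[k]) x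

lemma along_append (v : G.V → H.V) (β γ : List H.V) (x z : G.V) :
    Along v x (β ++ γ) z ↔ ∃ y, Along v x β y ∧ Along v y γ z := by
  induction β generalizing x with
  | nil => simp [Along]
  | cons K β ih =>
    simp only [List.cons_append, Along, ih]
    constructor
    · rintro ⟨q, hq, y, h1, h2⟩; exact ⟨y, ⟨q, hq, h1⟩, h2⟩
    · rintro ⟨y, ⟨q, hq, h1⟩, h2⟩; exact ⟨q, hq, y, h1, h2⟩

lemma along_last (v : G.V → H.V) (β : List H.V) (J : H.V) (x z : G.V) (hx : v x = J)
    (h : Along v x β z) : v z = (J :: β).getLast (List.cons_ne_nil _ _) := by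
  induction β generalizing x J with
  | nil =>
    simp only [Along] at h
    simp [← h, hx]
  | cons K β ih =>
    obtain ⟨q, hq, h⟩ := h
    have := ih K q hq.2 h
    rw [this]
    simp [List.getLast_cons]

/-- the word of a rigid walk -/
lemma exists_rigid_word (Φ : RightResolver G H) {J : H.V} {β : List H.V}
    (hr : RigidWalk Φ.v J β) : ∃ ρ : List H.E, Valid H.src H.tgt J ρ ∧
      fin H.tgt J ρ = (J :: β).getLast (List.cons_ne_nil _ _) ∧
      ∀ Φ' : RightResolver G H, Φ'.v = Φ.v → ∀ x, Φ.v x = J → ∀ y,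
        (Along Φ.v x β y ↔ run Φ'.act x ρ = y) := by
  induction β generalizing J with
  | nil => exact ⟨[], trivial, rfl, fun _ _ x _ y => Iff.rfl⟩
  | cons K β ih =>
    obtain ⟨h1, h2⟩ := hr
    obtain ⟨ρ, hρ, hfin, hrun⟩ := ih h2
    obtain ⟨x₀, hx₀⟩ := Φ.v_surj J
    obtain ⟨q₀, hq₀⟩ := Set.ncard_eq_one.1 (h1 x₀ hx₀)
    have hq : q₀ ∈ FollowersOver Φ.v x₀ K := by rw [hq₀]; rfl
    rw [Φ.mem_followersOver] at hq
    obtain ⟨g, hg1, hg2, -⟩ := hq
    refine ⟨g :: ρ, ⟨by rw [hg1, hx₀], by rw [hg2]; exact hρ⟩, ?_, ?_⟩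
    · change fin H.tgt (H.tgt g) ρ = _
      rw [hg2, hfin]
      simp [List.getLast_cons]
    · intro Φ' hv x hx y
      obtain ⟨q, hq⟩ := Set.ncard_eq_one.1 (h1 x hx)
      have hmem : Φ'.act x g ∈ FollowersOver Φ.v x K := by
        rw [← hv, Φ'.mem_followersOver]
        exact ⟨g, by rw [hg1, hx₀, hv, hx], hg2, rfl⟩
      have hqg : Φ'.act x g = q := by
        rw [hq] at hmem; exact hmem
      have hK : Φ.v (Φ'.act x g) = K := hmem.2
      rw [run_cons, ← hrun Φ' hv _ hK]
      constructor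
      · rintro ⟨q', hq', h⟩
        rw [hq, Set.mem_singleton_iff] at hq'
        rw [hqg, ← hq']; exact h
      · intro h
        exact ⟨_, hmem, h⟩

section Main

variable (Φ : RightResolver G H)

/-- the closed words over the walk -/
def wordsOver (H : Graph) (I J : H.V) (ρ : List H.E) : Set (List H.E) :=
  {w | ∃ e, H.src e = I ∧ H.tgt e = J ∧ w = e :: ρ}

lemma along_iff_word {I J : H.V} {β : List H.V} {ρ : List H.E}
    (hrun : ∀ Φ' : RightResolver G H, Φ'.v = Φ.v → ∀ x, Φ.v x = J → ∀ y,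
        (Along Φ.v x β y ↔ run Φ'.act x ρ = y))
    {Φ' : RightResolver G H} (hv : Φ'.v = Φ.v) {x : G.V} (hx : Φ.v x = I) (y : G.V) :
    Along Φ.v x (J :: β) y ↔ ∃ w ∈ wordsOver H I J ρ, run Φ'.act x w = y := by
  constructor
  · rintro ⟨q, hq, h⟩
    have hq2 := hq.2
    rw [← hv, Φ'.mem_followersOver] at hq
    obtain ⟨e, he1, he2, he3⟩ := hq
    refine ⟨e :: ρ, ⟨e, by rw [he1, hv, hx], he2, rfl⟩, ?_⟩
    rw [run_cons, he3]
    exact (hrun Φ' hv q hq2 y).1 h
  · rintro ⟨_, ⟨e, he1, he2, rfl⟩, h⟩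
    have hmem : Φ'.act x e ∈ FollowersOver Φ.v x J := by
      rw [← hv, Φ'.mem_followersOver]
      exact ⟨e, by rw [he1, hv, hx], he2, rfl⟩
    exact ⟨_, hmem, (hrun Φ' hv _ hmem.2 y).2 h⟩

lemma lev_iff {I J : H.V} {β : List H.V} {ρ : List H.E}
    (hlast : (J :: β).getLast (List.cons_ne_nil _ _) = I)
    (hrun : ∀ Φ' : RightResolver G H, Φ'.v = Φ.v → ∀ x, Φ.v x = J → ∀ y,
        (Along Φ.v x β y ↔ run Φ'.act x ρ = y))
    {Φ' : RightResolver G H} (hv : Φ'.v = Φ.v) (m : ℕ) (x z : G.V) (hx : Φ.v x = I) :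
    Along Φ.v x (List.replicate m (J :: β)).flatten z ↔
      ∃ ws : List (List H.E), ws.length = m ∧ (∀ w ∈ ws, w ∈ wordsOver H I J ρ) ∧
        run Φ'.act x ws.flatten = z := by
  induction m generalizing x with
  | zero =>
    constructor
    · intro h
      exact ⟨[], rfl, by simp, h⟩
    · rintro ⟨ws, hlen, -, h⟩
      rw [List.length_eq_zero_iff] at hlen
      subst hlen
      exact h
  | succ m ih =>
    rw [List.replicate_succ, List.flatten_cons, along_append]
    have hend : ∀ y, Along Φ.v x (J :: β) y → Φ.v y = I := by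
      intro y hy
      obtain ⟨q, hq, h⟩ := hy
      rw [along_last Φ.v β J q y hq.2 h, hlast]
    constructor
    · rintro ⟨y, h1, h2⟩
      obtain ⟨ws, hlen, hws, hrw⟩ := (ih y (hend y h1)).1 h2
      obtain ⟨w, hw, hwy⟩ := (along_iff_word Φ hrun hv hx y).1 h1
      refine ⟨w :: ws, by simp [hlen], ?_, ?_⟩
      · intro u hu
        rcases List.mem_cons.1 hu with rfl | hu
        · exact hw
        · exact hws u hu
      · rw [List.flatten_cons, run_append, hwy, hrw]
    · rintro ⟨ws, hlen, hws, hrw⟩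
      match ws, hlen, hws, hrw with
      | w :: ws, hlen, hws, hrw =>
        have hw := hws w (List.mem_cons_self ..)
        have h1 := (along_iff_word Φ hrun hv hx (run Φ'.act x w)).2 ⟨w, hw, rfl⟩
        refine ⟨_, h1, (ih _ (hend _ h1)).2 ⟨ws, by simpa using hlen,
          fun u hu => hws u (List.mem_cons_of_mem _ hu), ?_⟩⟩
        rw [List.flatten_cons, run_append] at hrw
        exact hrw

/-- **Double bunches behind closed walks with rigid tail.** -/
theorem double_bunch (CT : ChoiceTree) (hG : G.StronglyConnected)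
    (hno : ∀ Φ' : RightResolver G H, Φ'.v = Φ.v → NoStable H.src H.tgt Φ'.v Φ'.act)
    {I J : H.V} {β : List H.V} (hlast : (J :: β).getLast (List.cons_ne_nil _ _) = I)
    (hr : RigidWalk Φ.v J β) :
    (∀ x ∈ EndCore Φ.v I (J :: β), {y | Along Φ.v x (J :: β) y}.ncard = 1) ∨
      ∃ x ∈ EndCore Φ.v I (J :: β), ∃ y ∈ EndCore Φ.v I (J :: β), x ≠ y ∧
        ∃ r, {z | Along Φ.v x (J :: β) z} = {r} ∧ {z | Along Φ.v y (J :: β) z} = {r} := by
  obtain ⟨ρ, hρ, hfin, hrun⟩ := exists_rigid_word Φ hr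
  set P := wordsOver H I J ρ with hPdef
  have hP : ∀ w ∈ P, Valid H.src H.tgt I w ∧ fin H.tgt I w = I := by
    rintro _ ⟨e, he1, he2, rfl⟩
    refine ⟨⟨he1, by rw [he2]; exact hρ⟩, ?_⟩
    change fin H.tgt (H.tgt e) ρ = I
    rw [he2, hfin, hlast]
  have hlev : ∀ Φ' : RightResolver G H, Φ'.v = Φ.v → ∀ m x,
      (x ∈ Lev Φ.v Φ'.act I P m ↔ ∃ y, Φ.v y = I ∧
        Along Φ.v y (List.replicate m (J :: β)).flatten x) := by
    intro Φ' hv m x
    constructor
    · rintro ⟨y, hy, h⟩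
      exact ⟨y, hy, (lev_iff Φ hlast hrun hv m y x hy).2 h⟩
    · rintro ⟨y, hy, h⟩
      exact ⟨y, hy, (lev_iff Φ hlast hrun hv m y x hy).1 h⟩
  set Ev := EndCore Φ.v I (J :: β) with hEv
  have hEI : ∀ x ∈ Ev, Φ.v x = I := by
    intro x hx
    obtain ⟨y, hy, h⟩ := hx 0
    have : y = x := h
    rw [← this]; exact hy
  have hend : ∀ x y, Along Φ.v x (J :: β) y → Φ.v y = I := by
    intro x y hy
    obtain ⟨q, hq, h⟩ := hy
    rw [along_last Φ.v β J q y hq.2 h, hlast]
  -- levels, independent of the colouring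
  have h1 : ∀ Φ' : RightResolver G H, Φ'.v = Φ.v → ∀ m, ∀ x ∈ Ev, x ∈ Lev Φ.v Φ'.act I P m :=
    fun Φ' hv m x hx => (hlev Φ' hv m x).2 (hx m)
  have h2 : ∀ Φ' : RightResolver G H, Φ'.v = Φ.v → ∃ m, Lev Φ.v Φ'.act I P m ⊆ Ev := by
    intro Φ' hv
    obtain ⟨m, hm⟩ := exists_lev_subset_core (σ := Φ.v) (a := Φ'.act) (s := H.src) (t := H.tgt)
      (by rw [← hv]; exact Φ'.act_typed) hP
    refine ⟨m, fun x hx n => ?_⟩
    exact (hlev Φ' hv n x).1 (hm hx n)
  -- the successors
  have hstep : ∀ x ∈ Ev, ∀ y, Along Φ.v x (J :: β) y → y ∈ Ev := by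
    intro x hx y hxy n
    cases n with
    | zero => exact ⟨y, hend x y hxy, rfl⟩
    | succ n =>
      obtain ⟨z, hz, h⟩ := hx n
      refine ⟨z, hz, ?_⟩
      rw [List.replicate_succ', List.flatten_append, along_append]
      exact ⟨x, h, by simpa using hxy⟩
  have hpred : ∀ y ∈ Ev, ∃ x ∈ Ev, Along Φ.v x (J :: β) y := by
    intro y hy
    obtain ⟨m, hm⟩ := h2 Φ rfl
    obtain ⟨z, hz, h⟩ := hy (m + 1)
    rw [List.replicate_succ', List.flatten_append, along_append] at h
    obtain ⟨x, h3, h4⟩ := h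
    refine ⟨x, hm ((hlev Φ rfl m x).2 ⟨z, hz, h3⟩), by simpa using h4⟩
  have hcov : ∀ x ∈ Ev, ∃ y, Along Φ.v x (J :: β) y := by
    intro x hx
    obtain ⟨z, hz, h⟩ := hx 1
    rw [List.replicate_one, List.flatten_cons, List.flatten_nil, List.append_nil] at h
    obtain ⟨w, hw, -⟩ := (along_iff_word Φ hrun rfl hz x).1 h
    exact ⟨_, (along_iff_word Φ hrun rfl (hEI x hx) _).2 ⟨w, hw, rfl⟩⟩
  rcases CT Ev (fun x => {y | Along Φ.v x.1 (J :: β) y.1})
    (by
      rintro ⟨x, hx⟩
      obtain ⟨y, hy⟩ := hcov x hx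
      exact ⟨⟨y, hstep x hx y hy⟩, hy⟩)
    (by
      rintro ⟨y, hy⟩
      obtain ⟨x, hx, hxy⟩ := hpred y hy
      exact ⟨⟨x, hx⟩, hxy⟩) with hA | hA | hA
  · -- one successor each
    left
    intro x hx
    have h3 := hA ⟨x, hx⟩
    have h4 : {y | Along Φ.v x (J :: β) y} =
        Subtype.val '' {y : Ev | Along Φ.v x (J :: β) y.1} := by
      ext y
      constructor
      · intro hy; exact ⟨⟨y, hstep x hx y hy⟩, hy, rfl⟩
      · rintro ⟨⟨y, _⟩, hy, rfl⟩; exact hy
    rw [h4, Set.ncard_image_of_injective _ Subtype.val_injective]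
    exact h3
  · -- a double bunch
    right
    obtain ⟨⟨x, hx⟩, ⟨y, hy⟩, ⟨r, hr'⟩, hne, h3, h4⟩ := hA
    have key : ∀ x (hx : x ∈ Ev), {y : Ev | Along Φ.v x (J :: β) y.1} = {⟨r, hr'⟩} →
        {z | Along Φ.v x (J :: β) z} = {r} := by
      intro x hx h
      ext z
      rw [Set.mem_setOf_eq, Set.mem_singleton_iff]
      constructor
      · intro hz
        have : (⟨z, hstep x hx z hz⟩ : Ev) ∈ ({⟨r, hr'⟩} : Set Ev) := by rw [← h]; exact hz
        rw [Set.mem_singleton_iff, Subtype.mk.injEq] at this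
        exact this
      · rintro rfl
        have : (⟨z, hr'⟩ : Ev) ∈ {y : Ev | Along Φ.v x (J :: β) y.1} := by rw [h]; rfl
        exact this
    refine ⟨x, hx, y, hy, fun h => hne (Subtype.ext h), r, key x hx h3, key y hy h4⟩
  · -- a unique highest tree
    exfalso
    obtain ⟨φ, hφ, k, x₀, z, hz, hnp, hall⟩ := hA
    obtain ⟨_, ⟨e, he1, he2, rfl⟩, -⟩ :=
      (along_iff_word Φ hrun rfl (hEI x₀.1 x₀.2) _).1 (hφ x₀)
    -- letters realising the choice function
    have hlet : ∀ x : Ev, ∃ f, H.src f = I ∧ H.tgt f = J ∧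
        Along Φ.v (Φ.act x.1 f) β (φ x).1 := by
      intro x
      obtain ⟨_, ⟨f, hf1, hf2, rfl⟩, h3⟩ :=
        (along_iff_word Φ hrun rfl (hEI x.1 x.2) _).1 (hφ x)
      refine ⟨f, hf1, hf2, ?_⟩
      rw [run_cons] at h3
      refine (hrun Φ rfl _ ?_ _).2 h3
      rw [Φ.act_typed x.1 f (by rw [hf1, hEI x.1 x.2]), hf2]
    choose f hf1 hf2 hf3 using hlet
    obtain ⟨Φ', hv, hΦ'⟩ := Φ.exists_recolor (fun p π => ∀ hp : p ∈ Ev, π e = f ⟨p, hp⟩) (by
      intro p
      by_cases hp : p ∈ Ev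
      · obtain ⟨π, hπ, -, hπ1⟩ := exists_perm1 H (e := e) (f := f ⟨p, hp⟩)
          (he1.trans (hf1 _).symm) (he2.trans (hf2 _).symm)
        exact ⟨π, hπ, fun _ => hπ1⟩
      · exact ⟨1, fun _ => ⟨rfl, rfl⟩, fun h => absurd h hp⟩)
    have hact : ∀ x : Ev, Φ'.act x.1 e = Φ.act x.1 (f x) := by
      rintro ⟨x, hx⟩
      obtain ⟨π, _, hπ, hact⟩ := hΦ' x
      rw [hact, hπ hx]
    set h : G.V → G.V := fun x => run Φ'.act x (e :: ρ) with hh
    have hstepφ : ∀ x : Ev, h x.1 = (φ x).1 := by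
      intro x
      simp only [hh]
      rw [run_cons, hact x]
      refine (hrun Φ' hv _ ?_ _).1 (hf3 x)
      rw [Φ.act_typed x.1 (f x) (by rw [hf1, hEI x.1 x.2]), hf2]
    have hiter : ∀ (n : ℕ) (x : Ev), (h^[n]) x.1 = ((φ^[n]) x).1 := by
      intro n
      induction n with
      | zero => intro x; rfl
      | succ n ih =>
        intro x
        rw [Function.iterate_succ_apply, Function.iterate_succ_apply, hstepφ, ih]
    have hw : e :: ρ ∈ P := ⟨e, he1, he2, rfl⟩
    have hty : Typed H.src H.tgt Φ.v Φ'.act := by rw [← hv]; exact Φ'.act_typed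
    have hcn : Conn H.src Φ.v Φ'.act := by rw [← hv]; exact Φ'.conn hG
    obtain ⟨z', hz', hst⟩ := stable_of_uht hty hcn hP (h1 Φ' hv) (h2 Φ' hv) hw
      (k := k) (x₀ := x₀.1) (z := z.1) x₀.2
      (by
        change (h^[k]) x₀.1 = z.1
        rw [hiter, hz])
      (by
        intro n hn hcon
        change (h^[n]) z.1 = z.1 at hcon
        rw [hiter] at hcon
        exact hnp n hn (Subtype.ext hcon))
      (by
        intro x hx
        change (h^[k]) x = z.1 ∨ ∃ n, 0 < n ∧ (h^[n]) ((h^[k]) x) = (h^[k]) x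
        have h3 := hiter k ⟨x, hx⟩
        rcases hall ⟨x, hx⟩ with h4 | ⟨n, hn, h4⟩
        · left
          rw [h4] at h3
          exact h3
        · right
          refine ⟨n, hn, ?_⟩
          change (h^[k]) x = _ at h3
          rw [h3, hiter, h4])
    have hn := hno Φ' hv
    rw [hv] at hn
    exact hz' (hn _ _ hst).symm

end Main

/-- the combinatorial part holds -/
lemma choiceTree : ChoiceTree := by
  intro X _ D hne hpre
  by_cases hno : ∀ φ : X → X, (∀ x, φ x ∈ D x) → ¬ Pool.Agent.H43.TR.UHT φ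
  · rcases Pool.Agent.H43.TR.double_bunch D hne hpre hno with h | ⟨s, u, r, h1, h2, h3⟩
    · left
      intro x
      obtain ⟨y, hy⟩ := hne x
      exact Set.ncard_eq_one.2 ⟨y, Set.Subset.antisymm (fun z hz => h x hz hy)
        (Set.singleton_subset_iff.2 hy)⟩
    · exact Or.inr (Or.inl ⟨s, u, r, h1, h2, h3⟩)
  · right; right
    push Not at hno
    obtain ⟨φ, hφ, k, z, hz, ⟨x₀, hx₀⟩, hall⟩ := hno
    refine ⟨φ, hφ, k, x₀, z, hx₀, fun n hn hcon => hz ⟨n, hn, hcon⟩, fun x => ?_⟩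
    rcases hall x with ⟨n, hn, h⟩ | h
    · exact Or.inr ⟨n, hn, h⟩
    · exact Or.inl h

/-- every vertex over a vertex of the walk `J, β` has at most one follower over the next one -/
def Narrow {G H : Graph} (v : G.V → H.V) : H.V → List H.V → Prop
  | _, [] => True
  | J, K :: β => (∀ x, v x = J → (FollowersOver v x K).ncard ≤ 1) ∧ Narrow v K β

lemma Narrow.rigid (Φ : RightResolver G H) {J : H.V} {β : List H.V} (h : Narrow Φ.v J β) :
    RigidWalk Φ.v J β ∨ ∀ x, Φ.v x = J → ∀ y, ¬ Along Φ.v x β y := by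
  induction β generalizing J with
  | nil => exact Or.inl trivial
  | cons K β ih =>
    obtain ⟨h1, h2⟩ := h
    by_cases hg : ∃ g, H.src g = J ∧ H.tgt g = K
    · obtain ⟨g, hg1, hg2⟩ := hg
      have hmem : ∀ x, Φ.v x = J → Φ.act x g ∈ FollowersOver Φ.v x K := by
        intro x hx
        rw [Φ.mem_followersOver]
        exact ⟨g, by rw [hg1, hx], hg2, rfl⟩
      rcases ih h2 with h3 | h3
      · refine Or.inl ⟨fun x hx => le_antisymm (h1 x hx) ?_, h3⟩
        exact (Set.ncard_pos (Set.toFinite _)).2 ⟨_, hmem x hx⟩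
      · right
        rintro x hx y ⟨q, hq, hqy⟩
        exact h3 q hq.2 y hqy
    · right
      rintro x hx y ⟨q, hq, -⟩
      rw [Φ.mem_followersOver] at hq
      obtain ⟨g, hg1, hg2, -⟩ := hq
      exact hg ⟨g, by rw [hg1, hx], hg2⟩

/-- **Double bunches behind closed walks with narrow tail.** Let no right resolver `G → H` with the
vertex map of `Φ` have a stable pair. Let `I, J, β` be a closed walk of `H` (from `I` to `I`) such
that behind its first step all steps are narrow. Then every vertex of the end core has exactly one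
end over the walk, or two different vertices of the end core have the same single end. -/
theorem double_bunch_graph (Φ : RightResolver G H) (hG : G.StronglyConnected)
    (hno : ∀ Φ' : RightResolver G H, Φ'.v = Φ.v → NoStable H.src H.tgt Φ'.v Φ'.act)
    {I J : H.V} {β : List H.V} (hlast : (J :: β).getLast (List.cons_ne_nil _ _) = I)
    (hr : Narrow Φ.v J β) :
    (∀ x ∈ EndCore Φ.v I (J :: β), {y | Along Φ.v x (J :: β) y}.ncard = 1) ∨
      ∃ x ∈ EndCore Φ.v I (J :: β), ∃ y ∈ EndCore Φ.v I (J :: β), x ≠ y ∧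
        ∃ r, {z | Along Φ.v x (J :: β) z} = {r} ∧ {z | Along Φ.v y (J :: β) z} = {r} := by
  rcases hr.rigid Φ with h | h
  · exact double_bunch Φ choiceTree hG hno hlast h
  · left
    intro x hx
    exfalso
    obtain ⟨y, hy, hyx⟩ := hx 1
    rw [List.replicate_one, List.flatten_cons, List.flatten_nil, List.append_nil] at hyx
    obtain ⟨q, hq, hqx⟩ := hyx
    exact h q hq.2 x hqx

end Pool.Agent.H26.Bunchy
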