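import Pool.Agent.H26.Bunchy.Final

/-!
# The weight bound for sets that are collapsed by one path under every recolouring
-/

set_option autoImplicit false
set_option linter.unusedSectionVars false
set_option linter.deprecated false

namespace Pool.Agent.H26.Bunchy

open Pool.Agent.H75.Bunchy
open scoped Classical

section Aut

variable {V K E : Type*} [Fintype V] [Fintype E] {s t : E → K} {σ : V → K} {a : V → E → V}
  {τ : E → E} {pr : E → ℝ} {μ : V → ℝ}

/-- The potential argument, started from any set that is collapsed by one word for all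
colourings. -/
theorem exists_top_set (hτ : Swp s t τ) (ha : Typed s t σ a) (hcn : Conn s σ a)
    (h : Stat s σ a pr μ) (hpr : ∀ e, pr (τ e) = pr e) (hsu : ∀ e, ∃ p, s e = σ p)
    (hno : ∀ δ, NoStable s t σ (tw τ δ a)) (z₀ : V) :
    ∃ (c : Finset V) (B : Finset (V × Sym2 E)) (δ : Set (V × Sym2 E)),
      Val s t σ a τ c B δ ∧ (∀ p e, s e = σ p → a p e ≠ a p (τ e) → slot τ p e ∈ B) ∧
      ∀ c₀, Val s t σ a τ c₀ ∅ ∅ → ∑ p ∈ c₀, wt σ μ p ≤ Phi σ μ c B := by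
  set S : Set (Finset V × Finset (V × Sym2 E) × Set (V × Sym2 E)) :=
    {x | Val s t σ a τ x.1 x.2.1 x.2.2} with hS
  have hsing : ∀ z : V, ({z}, ∅, ∅) ∈ S := by
    intro z
    refine ⟨σ z, ?_, [], trivial, ?_⟩
    · intro x hx
      rw [Finset.mem_singleton] at hx
      rw [hx]
    · intro δ' _ x hx y hy
      rw [Finset.mem_singleton] at hx hy
      rw [hx, hy]
  obtain ⟨x₁, hx₁, hmax⟩ := Set.exists_max_image S (fun x => Phi σ μ x.1 x.2.1)
    (Set.toFinite _) ⟨_, hsing z₀⟩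
  set M := Phi σ μ x₁.1 x₁.2.1 with hMdef
  obtain ⟨x₂, hx₂, hmax₂⟩ := Set.exists_max_image {x ∈ S | Phi σ μ x.1 x.2.1 = M}
    (fun x => x.2.1.card) (Set.toFinite _) ⟨x₁, hx₁, rfl⟩
  obtain ⟨c, B, δ⟩ := x₂
  obtain ⟨hval, hPhi⟩ := hx₂
  simp only at hval hPhi
  have hset : ∀ c₀ : Finset V, Val s t σ a τ c₀ ∅ ∅ → ∑ p ∈ c₀, wt σ μ p ≤ M := by
    intro c₀ hc₀
    have := hmax (c₀, ∅, ∅) hc₀
    simpa [Phi] using this
  have hM0 : 0 < M := by
    refine lt_of_lt_of_le (wt_pos (σ := σ) h.mu_pos z₀) ?_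
    have := hset {z₀} (hsing z₀)
    rwa [Finset.sum_singleton] at this
  have hM : ∀ c' B' δ', Val s t σ a τ c' B' δ' → Phi σ μ c' B' ≤ M :=
    fun c' B' δ' hv => hmax (c', B', δ') hv
  have hN : ∀ c' B' δ', Val s t σ a τ c' B' δ' → Phi σ μ c' B' = M → B'.card ≤ B.card :=
    fun c' B' δ' hv he => hmax₂ (c', B', δ') ⟨hv, he⟩
  have hne : c.Nonempty := by
    rw [Finset.nonempty_iff_ne_empty]
    rintro rfl
    have := Phi_empty_le (σ := σ) h.mu_pos B
    linarith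
  obtain ⟨z, hz⟩ := hne
  refine ⟨c, B, δ, hval, ?_, fun c₀ hc₀ => by rw [hPhi]; exact hset c₀ hc₀⟩
  intro p e he hpe
  by_contra hB
  exact hpe (hno δ _ _ (Top.stable hτ ha hcn h hpr hsu hM0 hM hN ⟨hval, hPhi⟩ hz he hB))

/-- **Weight bound with a common collapsible set.** -/
theorem weight_bound_set (hτ : Swp s t τ) (ha : Typed s t σ a) (hcn : Conn s σ a)
    (h : Stat s σ a pr μ) (hpr : ∀ e, pr (τ e) = pr e) (hsu : ∀ e, ∃ p, s e = σ p)
    (hno : ∀ δ, NoStable s t σ (tw τ δ a)) {ρ : ℕ} (hρ : ∀ δ, ρ ≤ rank s t σ (tw τ δ a))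
    (z : V) {c₀ : Finset V} (hc₀ : Val s t σ a τ c₀ ∅ ∅) :
    (ρ : ℝ) * (2 * ∑ p ∈ c₀, wt σ μ p + ∑ x ∈ flex s σ a τ, wt σ μ x.1) ≤ 2 := by
  obtain ⟨c, B, δ, hval, hB, hw⟩ := exists_top_set hτ ha hcn h hpr hsu hno z
  have hcoll : Coll s t σ (tw τ δ a) c := by
    obtain ⟨k, hk, u, hu, hcol⟩ := hval
    exact ⟨k, hk, u, hu, hcol δ fun _ _ => Iff.rfl⟩
  have hr := rank_mul_le (tw_typed hτ ha δ) (tw_conn hτ hcn δ) (h.tw hτ hpr δ) hsu hcoll z
  have h2' : (ρ : ℝ) ≤ rank s t σ (tw τ δ a) := by exact_mod_cast hρ δ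
  have hc0 : 0 ≤ ∑ p ∈ c, wt σ μ p := Finset.sum_nonneg fun p _ => (wt_pos h.mu_pos p).le
  have h3 : (ρ : ℝ) * ∑ p ∈ c, wt σ μ p ≤ 1 := (mul_le_mul_of_nonneg_right h2' hc0).trans hr
  have hsub : flex s σ a τ ⊆ B := by
    intro x hx
    unfold flex at hx
    rw [Finset.mem_filter] at hx
    obtain ⟨_, e, he, hxe, hx⟩ := hx
    rw [hx]
    exact hB _ _ he hxe
  have h4 : ∑ x ∈ flex s σ a τ, wt σ μ x.1 ≤ ∑ x ∈ B, wt σ μ x.1 :=
    Finset.sum_le_sum_of_subset_of_nonneg hsub fun x _ _ => (wt_pos h.mu_pos _).le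
  have h5 := hw c₀ hc₀
  unfold Phi at h5
  have h6 : 2 * ∑ p ∈ c₀, wt σ μ p + ∑ x ∈ flex s σ a τ, wt σ μ x.1 ≤ 2 * ∑ p ∈ c, wt σ μ p := by
    linarith
  have h7 := mul_le_mul_of_nonneg_left h6 (Nat.cast_nonneg (α := ℝ) ρ)
  linarith

end Aut

section Graphs

noncomputable local instance (G : Graph) : Fintype G.V := Fintype.ofFinite _
noncomputable local instance (G : Graph) : Fintype G.E := Fintype.ofFinite _

variable {G H : Graph}

/-- `C` is a set of vertices of `G` over one vertex of `H`, and one path of `H` leads all of `C` to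
one vertex of `G`, for every right resolver with the vertex map `v`. -/
def CommonCollapse {G H : Graph} (v : G.V → H.V) (C : Set G.V) : Prop :=
  ∃ (J : H.V) (u : List H.E), (∀ x ∈ C, v x = J) ∧
    ∀ Φ' : RightResolver G H, Φ'.v = v → ∃ K, ∀ x ∈ C, Φ'.Leads x u K

/-- **Weight bound for graphs without stable recolourings, with a common collapsible set.** -/
theorem weight_bound_graph_set (Φ : RightResolver G H) (hG : G.StronglyConnected)
    (hno : ∀ Φ' : RightResolver G H, Φ'.v = Φ.v → NoStable H.src H.tgt Φ'.v Φ'.act)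
    {ρ : ℕ} (hρ : ∀ Φ' : RightResolver G H, Φ'.v = Φ.v → ρ ≤ rank H.src H.tgt Φ'.v Φ'.act)
    {pr : H.V → H.V → ℝ} {μ : G.V → ℝ} (hf : FairWeights Φ.v pr μ) {C : Set G.V}
    (hne : C.Nonempty) (hC : CommonCollapse (H := H) Φ.v C) :
    (ρ : ℝ) * (2 * ∑ᶠ z ∈ C, share Φ.v μ z + ∑ᶠ x, (splits Φ.v x : ℝ) * share Φ.v μ x) ≤ 2 := by
  obtain ⟨z, hz⟩ := hne
  obtain ⟨τ, hτ, hpair, hone⟩ := exists_pairing H
  obtain ⟨Φ', hv, hΦ'⟩ := exists_spread Φ hτ hone
  -- the letter of the pair over `J`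
  have hlet : ∀ p J, 2 ≤ (FollowersOver Φ.v p J).ncard → ∃ e, H.src e = Φ.v p ∧ H.tgt e = J ∧
      Φ'.act p e ≠ Φ'.act p (τ e) := by
    intro p J h2
    obtain ⟨e, h3, h4, h5⟩ := hpair (Φ.v p) J (h2.trans (Φ.ncard_followersOver_le p J))
    exact ⟨e, h3, h4, hΦ' p e h3 h5 (by rw [h4]; exact h2)⟩
  have hf' : FairWeights Φ'.v pr μ := by rw [hv]; exact hf
  have hstat := hf'.toStat
  have htwist : ∀ δ, ∃ Φ'' : RightResolver G H, Φ''.v = Φ.v ∧ Φ''.act = tw τ δ Φ'.act := by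
    intro δ
    obtain ⟨Φ'', hv'', hact''⟩ := exists_twist Φ' hτ δ
    exact ⟨Φ'', by rw [hv'', hv], hact''⟩
  -- the collapsible set
  obtain ⟨J, u, hCJ, hu⟩ := hC
  have hval : Val H.src H.tgt Φ'.v Φ'.act τ C.toFinite.toFinset ∅ ∅ := by
    obtain ⟨K₀, hK₀⟩ := hu Φ' hv
    have hpath := ((Φ'.leads_iff _ _ _).1 (hK₀ z hz)).1
    rw [hv, hCJ z hz] at hpath
    refine ⟨J, fun x hx => ?_, u, hpath, fun δ' _ x hx y hy => ?_⟩
    · rw [Set.Finite.mem_toFinset] at hx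
      rw [hv]; exact hCJ x hx
    · rw [Set.Finite.mem_toFinset] at hx hy
      obtain ⟨Φ'', hv'', hact''⟩ := htwist δ'
      obtain ⟨K', hK'⟩ := hu Φ'' hv''
      have h1 := ((Φ''.leads_iff _ _ _).1 (hK' x hx)).2
      have h2 := ((Φ''.leads_iff _ _ _).1 (hK' y hy)).2
      rw [← hact'', h1, h2]
  have hb := weight_bound_set (τ := τ) hτ Φ'.act_typed (Φ'.conn hG) hstat
    (fun e => by simp only [hτ.hs, hτ.ht])
    (fun e => by
      obtain ⟨p, hp⟩ := Φ'.v_surj (H.src e)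
      exact ⟨p, hp.symm⟩)
    (fun δ => by
      obtain ⟨Φ'', hv'', hact''⟩ := htwist δ
      have := hno Φ'' hv''
      rw [hv'', hact''] at this
      rw [hv]
      exact this)
    (ρ := ρ) (fun δ => by
      obtain ⟨Φ'', hv'', hact''⟩ := htwist δ
      have := hρ Φ'' hv''
      rw [hv'', hact''] at this
      rw [hv]
      exact this) z hval
  rw [hv] at hb
  rw [finsum_mem_eq_finite_toFinset_sum _ C.toFinite]
  simp only [share_eq]
  refine le_trans (mul_le_mul_of_nonneg_left (add_le_add_right ?_ _)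
    (Nat.cast_nonneg (α := ℝ) ρ)) hb
  rw [finsum_eq_sum_of_fintype]
  -- compare the sums
  by_cases hEne : Nonempty H.E
  swap
  · have h0 : ∀ x, (splits Φ.v x : ℝ) = 0 := by
      intro x
      rw [Nat.cast_eq_zero]
      unfold splits
      rw [Set.ncard_eq_zero (Set.toFinite _), Set.eq_empty_iff_forall_notMem]
      intro J hJ
      obtain ⟨e, _⟩ := hlet x J hJ
      exact hEne ⟨e⟩
    simp only [h0, zero_mul, Finset.sum_const_zero]
    exact Finset.sum_nonneg fun x _ => (wt_pos hf.mu_pos _).le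
  choose! e he1 he2 he3 using hlet
  set P : Finset (G.V × H.V) := Finset.univ.filter fun x => 2 ≤ (FollowersOver Φ.v x.1 x.2).ncard
    with hP
  have h1 : ∑ x, (splits Φ.v x : ℝ) * wt Φ.v μ x = ∑ x ∈ P, wt Φ.v μ x.1 := by
    rw [hP, Finset.sum_filter, ← Finset.univ_product_univ, Finset.sum_product]
    refine Finset.sum_congr rfl fun p _ => ?_
    simp only
    rw [← Finset.sum_filter, Finset.sum_const, nsmul_eq_mul]
    congr 2
    unfold splits
    rw [Set.ncard_eq_toFinset_card _ (Set.toFinite _)]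
    congr 1
    ext J
    rw [Set.Finite.mem_toFinset, Finset.mem_filter]
    simp
  rw [h1]
  have hinj : Set.InjOn (fun x : G.V × H.V => slot τ x.1 (e x.1 x.2)) (P : Set (G.V × H.V)) := by
    rintro ⟨p, J⟩ hp ⟨q, J'⟩ hq heq
    simp only [hP, Finset.coe_filter, Finset.mem_univ, true_and, Set.mem_setOf_eq] at hp hq
    have h2 := slot_eq heq
    simp only at h2
    obtain ⟨rfl, h3⟩ := h2
    have h4 : J = J' := by
      rw [← he2 p J hp, ← he2 p J' hq]
      rcases h3 with h | h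
      · rw [h]
      · rw [h, hτ.ht]
    rw [h4]
  have h2 : ∑ x ∈ P, wt Φ.v μ x.1 =
      ∑ y ∈ P.image (fun x : G.V × H.V => slot τ x.1 (e x.1 x.2)), wt Φ.v μ y.1 := by
    rw [Finset.sum_image hinj]
    rfl
  rw [h2]
  refine Finset.sum_le_sum_of_subset_of_nonneg ?_ (fun y _ _ => (wt_pos hf.mu_pos _).le)
  intro y hy
  rw [Finset.mem_image] at hy
  obtain ⟨⟨p, J⟩, hpJ, rfl⟩ := hy
  rw [hP, Finset.mem_filter] at hpJ
  unfold flex
  rw [Finset.mem_filter]
  exact ⟨Finset.mem_univ _, e p J, he1 p J hpJ.2, he3 p J hpJ.2, rfl⟩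

end Graphs

end Pool.Agent.H26.Bunchy
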