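import Pool.Agent.H99.TT.Both

/-!
# The bound `2 / 3` up to one or two slots
-/

set_option autoImplicit false
set_option linter.unusedSectionVars false
set_option linter.unusedVariables false
set_option linter.deprecated false

namespace Pool.Agent.H26.Bunchy

open Pool.Agent.H75.Bunchy Pool.Agent.H99.TT
open scoped Classical

variable {V K E : Type*} [Fintype V] [Fintype E] {s t : E → K} {σ : V → K} {a : V → E → V}
  {τ : E → E} {pr : E → ℝ} {μ : V → ℝ}

/-- **One third.** If some flexible slot is undecided, then a set which can be collapsed in every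
colouring that extends the decided one has weight at most one third. -/
theorem third_of_undecided (hτ : Swp s t τ) (ha : Typed s t σ a) (hcn : Conn s σ a)
    (h : Stat s σ a pr μ) (hpr : ∀ e, pr (τ e) = pr e) (hsu : ∀ e, ∃ p, s e = σ p)
    (hno : ∀ δ, NoStable s t σ (tw τ δ a)) {c : Finset V} {B : Finset (V × Sym2 E)}
    {δ : Set (V × Sym2 E)} (hv : Vala s t σ a τ c B δ) {y : V × Sym2 E}
    (hy : y ∈ flex s σ a τ) (hyB : y ∉ B) : 3 * ∑ p ∈ c, wt σ μ p ≤ 1 := by
  unfold flex at hy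
  rw [Finset.mem_filter] at hy
  obtain ⟨_, e, he, hne, hye⟩ := hy
  have h2 : 2 ≤ rank s t σ (tw τ δ a) :=
    two_le_rank (tw_typed hτ ha δ) (tw_conn hτ hcn δ) (hno δ) (hτ.hs e) (hτ.ht e) he
      (tw_ne hτ δ hne)
  obtain ⟨γ, hγ, h3⟩ : ∃ γ : Set (V × Sym2 E), (∀ x ∈ B, x ∈ γ ↔ x ∈ δ) ∧
      3 ≤ rank s t σ (tw τ γ a) := by
    by_cases h3 : 3 ≤ rank s t σ (tw τ δ a)
    · exact ⟨δ, fun _ _ => Iff.rfl, h3⟩
    · refine ⟨exch δ (slot τ y.1 e), fun x hx => mem_exch_ne δ ?_,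
        three_le_rank hτ ha hcn h hpr hno he hne δ (by omega)⟩
      rintro rfl
      rw [← hye] at hx
      exact hyB hx
  obtain ⟨k, hk, hcol⟩ := hv
  obtain ⟨u, hu, hcol⟩ := hcol γ hγ
  have h1 := rank_mul_le (tw_typed hτ ha γ) (tw_conn hτ hcn γ) (h.tw hτ hpr γ) hsu
    (c := c) ⟨k, hk, u, hu, hcol⟩ y.1
  have h3' : (3 : ℝ) ≤ rank s t σ (tw τ γ a) := by exact_mod_cast h3
  have h4 : 0 ≤ ∑ p ∈ c, wt σ μ p := Finset.sum_nonneg fun p _ => (wt_pos h.mu_pos p).le
  exact (mul_le_mul_of_nonneg_right h3' h4).trans h1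

/-- at an exit the potential is bounded by the weights of the two children -/
lemma exit_sum (hτ : Swp s t τ) (ha : Typed s t σ a) (hcn : Conn s σ a)
    (h : Stat s σ a pr μ) (hpr : ∀ e, pr (τ e) = pr e) {c : Finset V} {B : Finset (V × Sym2 E)}
    {δ : Set (V × Sym2 E)} {z : V} {e : E} (hv : Vala s t σ a τ c B δ)
    (hinc : ¬ flex s σ a τ ⊆ B) (hz : z ∈ c) (hte : t e = σ z)
    (hsub : flex s σ a τ ⊆ B ∪ news s σ a τ c B e)
    (hmax : ∀ c' B' δ', Vala s t σ a τ c' B' δ' → ¬ flex s σ a τ ⊆ B' →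
        Phi σ μ c' B' ≤ Phi σ μ c B) {p₀ : V} (hp₀ : p₀ ∈ cut s σ a τ c B e) :
    2 * Phi σ μ c B + ∑ y ∈ flex s σ a τ, wt σ μ y.1 ≤
      ∑ p ∈ pull s σ a τ c B δ e, wt σ μ p + ∑ p ∈ pull s σ a τ c B δ (τ e), wt σ μ p := by
  have hp₀' := hp₀
  unfold cut at hp₀'
  rw [Finset.mem_filter] at hp₀'
  obtain ⟨_, hsp, hslB, hcut⟩ := hp₀'
  have hne : a p₀ e ≠ a p₀ (τ e) := fun hcon => hcut (by rw [hcon])
  have heτ : τ e ≠ e := fun hcon => hne (by rw [hcon])
  obtain ⟨k, hk, -⟩ := id hv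
  have hkz := hk z hz
  have hek : t e = k := by rw [hte, hkz]
  have hcutτ : ∀ p, p ∈ cut s σ a τ c B (τ e) ↔ p ∈ cut s σ a τ c B e := by
    intro p
    unfold cut
    rw [Finset.mem_filter, Finset.mem_filter, hτ.hs, slot_tau hτ, hτ.inv]
    refine and_congr_right fun _ => and_congr_right fun _ => and_congr_right fun _ => ?_
    exact not_congr ⟨fun h => h.symm, fun h => h.symm⟩
  have hp₀τ : p₀ ∈ cut s σ a τ c B (τ e) := (hcutτ p₀).2 hp₀
  have hnewsτ : news s σ a τ c B (τ e) = news s σ a τ c B e := by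
    unfold news
    ext y
    rw [Finset.mem_image, Finset.mem_image]
    constructor
    · rintro ⟨p, hp, rfl⟩; exact ⟨p, (hcutτ p).1 hp, (slot_tau hτ p e).symm⟩
    · rintro ⟨p, hp, rfl⟩; exact ⟨p, (hcutτ p).2 hp, slot_tau hτ p e⟩
  -- the other letters decide nothing
  have hother : ∀ e', t e' = k → e' ≠ e → e' ≠ τ e →
      Phi σ μ (pull s σ a τ c B δ e') (B ∪ news s σ a τ c B e') ≤ Phi σ μ c B := by
    intro e' he' h1 h2
    have hval' := vala_pull hv hz (e := e') (by rw [he', hkz])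
    have hn : news s σ a τ c B e' = ∅ := by
      rw [Finset.eq_empty_iff_forall_notMem]
      intro y hy
      have hyB : y ∉ B := fun hyB => Finset.disjoint_left.1 (news_disj c B e') hyB hy
      unfold news at hy
      rw [Finset.mem_image] at hy
      obtain ⟨p, hp, rfl⟩ := hy
      unfold cut at hp
      rw [Finset.mem_filter] at hp
      obtain ⟨_, hsp', _, hcut'⟩ := hp
      have hfx : slot τ p e' ∈ flex s σ a τ := by
        unfold flex
        rw [Finset.mem_filter]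
        refine ⟨Finset.mem_univ _, e', hsp', fun hcon => hcut' ?_, rfl⟩
        change a p e' = a p (τ e') at hcon
        rw [hcon]
      rcases Finset.mem_union.1 (hsub hfx) with h3 | h3
      · exact hyB h3
      · unfold news at h3
        rw [Finset.mem_image] at h3
        obtain ⟨q, _, hq⟩ := h3
        rcases (slot_eq hq).2 with h4 | h4
        · exact h1 h4.symm
        · apply h2
          rw [h4, hτ.inv]
    refine hmax _ _ _ hval' ?_
    rw [hn, Finset.union_empty]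
    exact hinc
  have hsum := sum_defect hτ ha h hpr (B := B) (δ := δ) hk
  set D : E → ℝ := fun e => if t e = k then mass σ μ (s e) * pr e *
      (Phi σ μ c B - Phi σ μ (pull s σ a τ c B δ e) (B ∪ news s σ a τ c B e)) else 0 with hD
  have hDpos : ∀ e', e' ∉ ({e, τ e} : Finset E) → 0 ≤ D e' := by
    intro e' he'
    rw [Finset.mem_insert, Finset.mem_singleton, not_or] at he'
    simp only [hD]
    split_ifs with h1
    · refine mul_nonneg (mul_nonneg (mass_nonneg h e') (h.pr_pos e').le) ?_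
      have := hother e' h1 he'.1 he'.2
      linarith
    · exact le_rfl
  have hD2 : D e + D (τ e) ≤ 0 := by
    have h1 : ∑ e', D e' = ∑ e' ∈ ({e, τ e} : Finset E), D e' +
        ∑ e' ∈ Finset.univ \ ({e, τ e} : Finset E), D e' := by
      rw [add_comm]
      exact (Finset.sum_sdiff (Finset.subset_univ _)).symm
    have h2 : ∑ e' ∈ ({e, τ e} : Finset E), D e' = D e + D (τ e) := by
      rw [Finset.sum_pair heτ.symm]
    have h3 : 0 ≤ ∑ e' ∈ Finset.univ \ ({e, τ e} : Finset E), D e' :=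
      Finset.sum_nonneg fun e' he' => hDpos e' (Finset.mem_sdiff.1 he').2
    rw [hsum, h2] at h1
    linarith
  have hm : 0 < mass σ μ (s e) * pr e := by
    rw [hsp]
    exact mul_pos (mass_pos h.mu_pos p₀) (h.pr_pos e)
  have hD3 : 2 * Phi σ μ c B ≤ Phi σ μ (pull s σ a τ c B δ e) (B ∪ news s σ a τ c B e) +
      Phi σ μ (pull s σ a τ c B δ (τ e)) (B ∪ news s σ a τ c B (τ e)) := by
    simp only [hD, hτ.ht, hek, if_true, hτ.hs, hpr] at hD2
    rw [← mul_add] at hD2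
    by_contra hlt
    push Not at hlt
    have := mul_pos hm (show 0 < (Phi σ μ c B - Phi σ μ (pull s σ a τ c B δ e)
      (B ∪ news s σ a τ c B e)) + (Phi σ μ c B - Phi σ μ (pull s σ a τ c B δ (τ e))
      (B ∪ news s σ a τ c B (τ e))) by linarith)
    linarith
  rw [hnewsτ] at hD3
  have hW : ∑ y ∈ flex s σ a τ, wt σ μ y.1 ≤ ∑ y ∈ B ∪ news s σ a τ c B e, wt σ μ y.1 :=
    Finset.sum_le_sum_of_subset_of_nonneg hsub fun y _ _ => (wt_pos h.mu_pos _).le
  unfold Phi at hD3 ⊢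
  linarith

/-- at an exit the potential is bounded with any of the states that are cut -/
lemma exit_bound (hτ : Swp s t τ) (ha : Typed s t σ a) (hcn : Conn s σ a)
    (h : Stat s σ a pr μ) (hpr : ∀ e, pr (τ e) = pr e) (hsu : ∀ e, ∃ p, s e = σ p)
    (hno : ∀ δ, NoStable s t σ (tw τ δ a)) {c : Finset V} {B : Finset (V × Sym2 E)}
    {δ : Set (V × Sym2 E)} {z : V} {e : E} (hv : Vala s t σ a τ c B δ)
    (hinc : ¬ flex s σ a τ ⊆ B) (hz : z ∈ c) (hte : t e = σ z)
    (hsub : flex s σ a τ ⊆ B ∪ news s σ a τ c B e)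
    (hmax : ∀ c' B' δ', Vala s t σ a τ c' B' δ' → ¬ flex s σ a τ ⊆ B' →
        Phi σ μ c' B' ≤ Phi σ μ c B) {p₀ : V} (hp₀ : p₀ ∈ cut s σ a τ c B e) :
    3 * (2 * Phi σ μ c B + ∑ y ∈ flex s σ a τ, wt σ μ y.1) ≤ 2 + 6 * wt σ μ p₀ := by
  have hp₀τ : p₀ ∈ cut s σ a τ c B (τ e) := by
    unfold cut at hp₀ ⊢
    rw [Finset.mem_filter] at hp₀ ⊢
    rw [hτ.hs, slot_tau hτ, hτ.inv]
    exact ⟨hp₀.1, hp₀.2.1, hp₀.2.2.1, fun h => hp₀.2.2.2 h.symm⟩
  have hc1 := child_third hτ ha hcn h hpr hsu hno hv hz hte hp₀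
  have hc2 := child_third hτ ha hcn h hpr hsu hno hv hz (e := τ e) (by rw [hτ.ht, hte]) hp₀τ
  have h1 := exit_sum hτ ha hcn h hpr hv hinc hz hte hsub hmax hp₀
  linarith

/-- **Two thirds up to one or two slots.** -/
theorem third_bound2 (hτ : Swp s t τ) (ha : Typed s t σ a) (hcn : Conn s σ a)
    (h : Stat s σ a pr μ) (hpr : ∀ e, pr (τ e) = pr e) (hsu : ∀ e, ∃ p, s e = σ p)
    (hno : ∀ δ, NoStable s t σ (tw τ δ a)) (hfl : (flex s σ a τ).Nonempty) :
    ∃ D ⊆ flex s σ a τ, D.Nonempty ∧ D.card ≤ 2 ∧ (∀ x ∈ D, ∀ y ∈ D, x.2 = y.2) ∧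
      ∀ c₀ : Finset V, Vala s t σ a τ c₀ ∅ ∅ →
        3 * ∑ p ∈ c₀, wt σ μ p ≤ 1 ∧
        3 * (2 * ∑ p ∈ c₀, wt σ μ p + ∑ y ∈ flex s σ a τ, wt σ μ y.1) ≤
          2 + 3 * ∑ x ∈ D, wt σ μ x.1 := by
  obtain ⟨c, B, δ, z, e, hv, hinc, hz, hte, hsub, hmax⟩ :=
    exists_exit hτ ha hcn h hpr hsu hno hfl
  have hemp : ¬ flex s σ a τ ⊆ ∅ := fun hcon => by
    obtain ⟨x, hx⟩ := hfl
    have := hcon hx
    simp at this
  have hM0 : ∀ c₀ : Finset V, Vala s t σ a τ c₀ ∅ ∅ → ∑ p ∈ c₀, wt σ μ p ≤ Phi σ μ c B := by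
    intro c₀ hc₀
    have := hmax c₀ ∅ ∅ hc₀ hemp
    simpa [Phi] using this
  obtain ⟨x₀, hx₀⟩ := hfl
  have hthird : ∀ c₀ : Finset V, Vala s t σ a τ c₀ ∅ ∅ → 3 * ∑ p ∈ c₀, wt σ μ p ≤ 1 :=
    fun c₀ hc₀ => third_of_undecided hτ ha hcn h hpr hsu hno hc₀ hx₀ (by simp)
  -- the undecided slots
  set U := flex s σ a τ \ B with hU
  have hUne : U.Nonempty := by
    rw [Finset.not_subset] at hinc
    obtain ⟨x, hx, hxB⟩ := hinc
    exact ⟨x, Finset.mem_sdiff.2 ⟨hx, hxB⟩⟩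
  have hUF : U ⊆ flex s σ a τ := Finset.sdiff_subset
  have hUcut : ∀ x ∈ U, x.1 ∈ cut s σ a τ c B e ∧ x = slot τ x.1 e := by
    intro x hx
    rw [hU, Finset.mem_sdiff] at hx
    rcases Finset.mem_union.1 (hsub hx.1) with h1 | h1
    · exact absurd h1 hx.2
    · unfold news at h1
      rw [Finset.mem_image] at h1
      obtain ⟨p, hp, rfl⟩ := h1
      exact ⟨hp, rfl⟩
  have hU2 : ∀ x ∈ U, ∀ y ∈ U, x.2 = y.2 := by
    intro x hx y hy
    rw [(hUcut x hx).2, (hUcut y hy).2]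
    rfl
  obtain ⟨x, hx, hmin⟩ := Finset.exists_min_image U (fun x => wt σ μ x.1) hUne
  by_cases h1 : ∃ y ∈ U, y ≠ x
  · -- at least two undecided slots
    obtain ⟨y, hy, hyx⟩ := h1
    refine ⟨{x, y}, ?_, ⟨x, by simp⟩, Finset.card_le_two, ?_, fun c₀ hc₀ => ⟨hthird c₀ hc₀, ?_⟩⟩
    · intro w hw
      rw [Finset.mem_insert, Finset.mem_singleton] at hw
      rcases hw with rfl | rfl
      · exact hUF hx
      · exact hUF hy
    · intro v hv' w hw
      rw [Finset.mem_insert, Finset.mem_singleton] at hv' hw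
      have hvU : v ∈ U := by
        rcases hv' with rfl | rfl
        · exact hx
        · exact hy
      have hwU : w ∈ U := by
        rcases hw with rfl | rfl
        · exact hx
        · exact hy
      exact hU2 v hvU w hwU
    · rw [Finset.sum_pair hyx.symm]
      have h2 := exit_bound hτ ha hcn h hpr hsu hno hv hinc hz hte hsub hmax (hUcut x hx).1
      have h3 := hmin y hy
      have h4 := hM0 c₀ hc₀
      linarith
  · -- one undecided slot
    push Not at h1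
    have hUx : U = {x} := by
      rw [Finset.eq_singleton_iff_unique_mem]
      exact ⟨hx, h1⟩
    refine ⟨{x}, ?_, ⟨x, by simp⟩, by simp, ?_, fun c₀ hc₀ => ⟨hthird c₀ hc₀, ?_⟩⟩
    · rw [Finset.singleton_subset_iff]; exact hUF hx
    · intro v hv' w hw
      rw [Finset.mem_singleton] at hv' hw
      rw [hv', hw]
    · rw [Finset.sum_singleton]
      have hxU := hx
      rw [hU, Finset.mem_sdiff] at hxU
      have h2 := third_of_undecided hτ ha hcn h hpr hsu hno hv hxU.1 hxU.2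
      have h3 : ∑ y ∈ flex s σ a τ, wt σ μ y.1 ≤ ∑ y ∈ B, wt σ μ y.1 + wt σ μ x.1 := by
        have h4 : flex s σ a τ ⊆ insert x B := by
          intro y hy
          rw [Finset.mem_insert]
          by_cases hyB : y ∈ B
          · exact Or.inr hyB
          · left
            exact h1 y (Finset.mem_sdiff.2 ⟨hy, hyB⟩)
        refine (Finset.sum_le_sum_of_subset_of_nonneg h4
          fun y _ _ => (wt_pos h.mu_pos _).le).trans ?_
        rw [Finset.sum_insert hxU.2]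
        linarith
      have h4 := hM0 c₀ hc₀
      unfold Phi at h4
      linarith

end Pool.Agent.H26.Bunchy
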