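import Pool.Agent.H26.Bunchy.Third2
import Pool.Agent.H97.Bun.Two
import Pool.Agent.H97.Bun.TwoWt

/-!
# Collapsible sets have weight at most `1 / 3 - S / 4`
-/

set_option autoImplicit false
set_option linter.unusedSectionVars false
set_option linter.unusedVariables false
set_option linter.deprecated false

namespace Pool.Agent.H26.Bunchy

open Pool.Agent.H75.Bunchy Pool.Agent.H99.TT
open scoped Classical

variable {V K E : Type*} [Fintype V] [Fintype E] {s t : E → K} {σ : V → K} {a : V → E → V}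
  {τ : E → E} {pr : E → ℝ} {μ : V → ℝ}

/-- in rank two the flexible slots of a collapsible set have at most half of the weight -/
lemma flex_half (hτ : Swp s t τ) (ha : Typed s t σ a) (hcn : Conn s σ a)
    (h : Stat s σ a pr μ) (hpr : ∀ e, pr (τ e) = pr e)
    {γ : Set (V × Sym2 E)} (hno : NoStable s t σ (tw τ γ a))
    (hr : rank s t σ (tw τ γ a) = 2) {c : Finset V} (hc : Coll s t σ (tw τ γ a) c)
    {U : Finset (V × Sym2 E)} (hU : U ⊆ flex s σ a τ) (hUc : ∀ x ∈ U, x.1 ∈ c) :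
    2 * ∑ x ∈ U, wt σ μ x.1 ≤ ∑ x ∈ flex s σ a τ, wt σ μ x.1 := by
  have hb := tw_typed hτ ha γ
  have hcb := tw_conn hτ hcn γ
  have hst := h.tw hτ hpr γ
  obtain ⟨T, hT1, hT2, hT3, hT4⟩ := Pool.Agent.H97.Bun.exists_tau hb hcb hno hr
  have hTinj : Function.Injective T := (show Function.Involutive T from hT1).injective
  have hwt : ∀ p, wt σ μ (T p) = wt σ μ p := fun p =>
    Pool.Agent.H97.Bun.wt_tau hb hcb hst hT1 hT3 hT4 p
  set g : V × Sym2 E → V × Sym2 E := fun x => (T x.1, x.2) with hg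
  have hginj : Function.Injective g := by
    rintro ⟨p, x⟩ ⟨q, y⟩ hxy
    simp only [hg, Prod.mk.injEq] at hxy
    rw [hTinj hxy.1, hxy.2]
  have hgU : U.image g ⊆ flex s σ a τ := by
    intro y hy
    rw [Finset.mem_image] at hy
    obtain ⟨x, hx, rfl⟩ := hy
    have hx' := hU hx
    unfold flex at hx' ⊢
    rw [Finset.mem_filter] at hx' ⊢
    obtain ⟨_, e, he, hne, hxe⟩ := hx'
    have he' : s e = σ (T x.1) := by rw [hT3]; exact he
    refine ⟨Finset.mem_univ _, e, he', ?_, ?_⟩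
    · show a (T x.1) e ≠ a (T x.1) (τ e)
      intro hcon
      have h1 := tw_ne hτ γ hne
      have h2 : tw τ γ a (T x.1) e = tw τ γ a (T x.1) (τ e) := by
        rw [tw_tau hτ]
        unfold tw
        rw [hcon]
      rw [hT4 _ _ he, hT4 _ _ (by rw [hτ.hs]; exact he)] at h2
      exact h1 (hTinj h2)
    · show (T x.1, x.2) = slot τ (T x.1) e
      rw [hxe]
      rfl
  have hdisj : Disjoint U (U.image g) := by
    rw [Finset.disjoint_left]
    intro y hy hy'
    rw [Finset.mem_image] at hy'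
    obtain ⟨x, hx, hxy⟩ := hy'
    obtain ⟨k, hk, u, hu, hcol⟩ := hc
    have hx1 := hUc x hx
    have hy1 := hUc y hy
    have h1 : y.1 = T x.1 := by rw [← hxy]
    have h2 := hcol _ hx1 _ hy1
    rw [h1, Pool.Agent.H97.Bun.run_tau hb hT4 u x.1 (by rw [hk _ hx1]; exact hu)] at h2
    exact hT2 _ h2.symm
  have h1 : ∑ x ∈ U.image g, wt σ μ x.1 = ∑ x ∈ U, wt σ μ x.1 := by
    rw [Finset.sum_image fun x _ y _ hxy => hginj hxy]
    exact Finset.sum_congr rfl fun x _ => hwt x.1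
  have h2 : ∑ x ∈ U ∪ U.image g, wt σ μ x.1 ≤ ∑ x ∈ flex s σ a τ, wt σ μ x.1 :=
    Finset.sum_le_sum_of_subset_of_nonneg (Finset.union_subset hU hgU)
      fun x _ _ => (wt_pos h.mu_pos _).le
  rw [Finset.sum_union hdisj, h1] at h2
  linarith

/-- **Collapsible sets have weight at most `1 / 3 - S / 4`.** -/
theorem quarter_bound (hτ : Swp s t τ) (ha : Typed s t σ a) (hcn : Conn s σ a)
    (h : Stat s σ a pr μ) (hpr : ∀ e, pr (τ e) = pr e) (hsu : ∀ e, ∃ p, s e = σ p)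
    (hno : ∀ δ, NoStable s t σ (tw τ δ a)) (hfl : (flex s σ a τ).Nonempty)
    {c₀ : Finset V} (hc₀ : Vala s t σ a τ c₀ ∅ ∅) :
    12 * ∑ p ∈ c₀, wt σ μ p + 3 * ∑ y ∈ flex s σ a τ, wt σ μ y.1 ≤ 4 := by
  obtain ⟨c, B, δ, z, e, hv, hinc, hz, hte, hsub, hmax⟩ :=
    exists_exit hτ ha hcn h hpr hsu hno hfl
  have hemp : ¬ flex s σ a τ ⊆ ∅ := fun hcon => by
    obtain ⟨x, hx⟩ := hfl
    have := hcon hx
    simp at this
  have hM0 : ∑ p ∈ c₀, wt σ μ p ≤ Phi σ μ c B := by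
    have := hmax c₀ ∅ ∅ hc₀ hemp
    simpa [Phi] using this
  -- the undecided slots
  set U := flex s σ a τ \ B with hU
  have hUne : U.Nonempty := by
    rw [Finset.not_subset] at hinc
    obtain ⟨x, hx, hxB⟩ := hinc
    exact ⟨x, Finset.mem_sdiff.2 ⟨hx, hxB⟩⟩
  have hUF : U ⊆ flex s σ a τ := Finset.sdiff_subset
  have hUcut : ∀ x ∈ U, x.1 ∈ cut s σ a τ c B e := by
    intro x hx
    rw [hU, Finset.mem_sdiff] at hx
    rcases Finset.mem_union.1 (hsub hx.1) with h1 | h1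
    · exact absurd h1 hx.2
    · unfold news at h1
      rw [Finset.mem_image] at h1
      obtain ⟨p, hp, rfl⟩ := h1
      exact hp
  obtain ⟨x₀, hx₀⟩ := hUne
  have hp₀ := hUcut x₀ hx₀
  have hx₀' := hx₀
  rw [hU, Finset.mem_sdiff] at hx₀'
  have hw3 := third_of_undecided hτ ha hcn h hpr hsu hno hv hx₀'.1 hx₀'.2
  have hBF : ∑ y ∈ flex s σ a τ, wt σ μ y.1 ≤ ∑ y ∈ B, wt σ μ y.1 + ∑ y ∈ U, wt σ μ y.1 := by
    have h4 : flex s σ a τ ⊆ B ∪ U := by
      intro y hy
      rw [Finset.mem_union, hU, Finset.mem_sdiff]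
      by_cases hyB : y ∈ B
      · exact Or.inl hyB
      · exact Or.inr ⟨hy, hyB⟩
    refine (Finset.sum_le_sum_of_subset_of_nonneg h4
      fun y _ _ => (wt_pos h.mu_pos _).le).trans ?_
    rw [Finset.sum_union]
    rw [Finset.disjoint_left]
    intro y hy hy'
    rw [hU, Finset.mem_sdiff] at hy'
    exact hy'.2 hy
  have hF0 : 0 ≤ ∑ y ∈ flex s σ a τ, wt σ μ y.1 :=
    Finset.sum_nonneg fun y _ => (wt_pos h.mu_pos _).le
  -- if a child has rank two, the undecided slots have at most half of the weight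
  have hhalf : ∀ e', t e' = σ z → (∀ x ∈ U, x.1 ∈ cut s σ a τ c B e') →
      rank s t σ (tw τ (ncol s σ a τ c B δ e') a) = 2 →
      12 * ∑ p ∈ c₀, wt σ μ p + 3 * ∑ y ∈ flex s σ a τ, wt σ μ y.1 ≤ 4 := by
    intro e' he' hcut hr
    have h5 := flex_half hτ ha hcn h hpr (hno _) hr (coll_of_vala (vala_pull hv hz he')) hUF
      (fun x hx => by
        have h6 := hcut x hx
        unfold cut at h6
        rw [Finset.mem_filter] at h6
        obtain ⟨_, h7, h8, h9⟩ := h6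
        unfold pull
        rw [Finset.mem_filter]
        refine ⟨Finset.mem_univ _, h7, ?_⟩
        rw [if_neg h8]
        tauto)
    unfold Phi at hM0
    linarith
  have hp₀' := hp₀
  unfold cut at hp₀'
  rw [Finset.mem_filter] at hp₀'
  obtain ⟨_, hsp, hslB, hcut⟩ := hp₀'
  have hne : a x₀.1 e ≠ a x₀.1 (τ e) := fun hcon => hcut (by rw [hcon])
  have hcutτ : ∀ p, p ∈ cut s σ a τ c B (τ e) ↔ p ∈ cut s σ a τ c B e := by
    intro p
    unfold cut
    rw [Finset.mem_filter, Finset.mem_filter, hτ.hs, slot_tau hτ, hτ.inv]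
    refine and_congr_right fun _ => and_congr_right fun _ => and_congr_right fun _ => ?_
    exact not_congr ⟨fun h => h.symm, fun h => h.symm⟩
  have hteτ : t (τ e) = σ z := by rw [hτ.ht, hte]
  have hr2 : ∀ δ₁ : Set (V × Sym2 E), 2 ≤ rank s t σ (tw τ δ₁ a) := fun δ₁ =>
    two_le_rank (tw_typed hτ ha δ₁) (tw_conn hτ hcn δ₁) (hno δ₁) (hτ.hs e) (hτ.ht e) hsp
      (tw_ne hτ δ₁ hne)
  by_cases h1 : rank s t σ (tw τ (ncol s σ a τ c B δ e) a) = 2
  · exact hhalf e hte hUcut h1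
  by_cases h2 : rank s t σ (tw τ (ncol s σ a τ c B δ (τ e)) a) = 2
  · exact hhalf (τ e) hteτ (fun x hx => (hcutτ _).2 (hUcut x hx)) h2
  -- both children have rank at least three
  have hbd : ∀ e', t e' = σ z → 3 ≤ rank s t σ (tw τ (ncol s σ a τ c B δ e') a) →
      3 * ∑ p ∈ pull s σ a τ c B δ e', wt σ μ p ≤ 1 := by
    intro e' he' h3
    have h4 := rank_mul_le (tw_typed hτ ha _) (tw_conn hτ hcn _) (h.tw hτ hpr _) hsu
      (coll_of_vala (vala_pull hv hz he')) z
    have h5 : (3 : ℝ) ≤ rank s t σ (tw τ (ncol s σ a τ c B δ e') a) := by exact_mod_cast h3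
    have h6 : 0 ≤ ∑ p ∈ pull s σ a τ c B δ e', wt σ μ p :=
      Finset.sum_nonneg fun p _ => (wt_pos h.mu_pos p).le
    exact (mul_le_mul_of_nonneg_right h5 h6).trans h4
  have hb1 := hbd e hte (by have := hr2 (ncol s σ a τ c B δ e); omega)
  have hb2 := hbd (τ e) hteτ (by have := hr2 (ncol s σ a τ c B δ (τ e)); omega)
  have h7 := exit_sum hτ ha hcn h hpr hv hinc hz hte hsub hmax hp₀
  linarith

end Pool.Agent.H26.Bunchy
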