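import Pool.Agent.H26.Bunchy.Bound

/-!
# A unique highest tree of a closed word gives a stable pair
-/

set_option autoImplicit false
set_option linter.unusedSectionVars false
set_option linter.deprecated false

namespace Pool.Agent.H26.Bunchy

open Pool.Agent.H75.Bunchy
open scoped Classical

variable {V K E : Type*} [Finite V] {s t : E → K} {σ : V → K} {a : V → E → V}

lemma closed_flatten {I : K} {P : Set (List E)}
    (hP : ∀ w ∈ P, Valid s t I w ∧ fin t I w = I) (ws : List (List E)) (hws : ∀ v ∈ ws, v ∈ P) :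
    Valid s t I ws.flatten ∧ fin t I ws.flatten = I := by
  induction ws with
  | nil => exact ⟨trivial, rfl⟩
  | cons w ws ih =>
    obtain ⟨h1, h2⟩ := ih fun v hv => hws v (List.mem_cons_of_mem _ hv)
    obtain ⟨h3, h4⟩ := hP w (hws w (List.mem_cons_self ..))
    rw [List.flatten_cons, valid_append, fin_append, h4]
    exact ⟨⟨h3, h1⟩, h2⟩

lemma iterate_run (w : List E) (k : ℕ) (x : V) :
    ((fun x => run a x w)^[k]) x = run a x (List.replicate k w).flatten := by
  induction k generalizing x with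
  | zero => rfl
  | succ k ih =>
    rw [Function.iterate_succ_apply, ih, List.replicate_succ, List.flatten_cons, run_append]

/-- the states of type `I` reached by `m` closed words of `P` -/
def Lev (σ : V → K) (a : V → E → V) (I : K) (P : Set (List E)) (m : ℕ) : Set V :=
  {x | ∃ y, σ y = I ∧ ∃ ws : List (List E), ws.length = m ∧ (∀ v ∈ ws, v ∈ P) ∧
    run a y ws.flatten = x}

/-- the states of type `I` reached by arbitrarily many closed words of `P` -/
def Core (σ : V → K) (a : V → E → V) (I : K) (P : Set (List E)) : Set V :=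
  {x | ∀ m, x ∈ Lev σ a I P m}

lemma lev_succ (ha : Typed s t σ a) {I : K} {P : Set (List E)}
    (hP : ∀ w ∈ P, Valid s t I w ∧ fin t I w = I) (m : ℕ) :
    Lev σ a I P (m + 1) ⊆ Lev σ a I P m := by
  rintro x ⟨y, hy, ws, hlen, hws, hx⟩
  match ws, hlen, hws, hx with
  | w :: ws, hlen, hws, hx =>
    obtain ⟨h3, h4⟩ := hP w (hws w (List.mem_cons_self ..))
    refine ⟨run a y w, ?_, ws, by simpa using hlen, fun v hv => hws v (List.mem_cons_of_mem _ hv),
      ?_⟩
    · rw [ha.run y w (by rw [hy]; exact h3), hy, h4]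
    · rw [List.flatten_cons, run_append] at hx
      exact hx

lemma lev_anti (ha : Typed s t σ a) {I : K} {P : Set (List E)}
    (hP : ∀ w ∈ P, Valid s t I w ∧ fin t I w = I) : Antitone (Lev σ a I P) :=
  antitone_nat_of_succ_le fun m => lev_succ ha hP m

lemma exists_lev_subset_core (ha : Typed s t σ a) {I : K} {P : Set (List E)}
    (hP : ∀ w ∈ P, Valid s t I w ∧ fin t I w = I) : ∃ m, Lev σ a I P m ⊆ Core σ a I P := by
  have h : ∀ x : V, ∃ m, x ∈ Core σ a I P ∨ x ∉ Lev σ a I P m := by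
    intro x
    by_cases hx : x ∈ Core σ a I P
    · exact ⟨0, Or.inl hx⟩
    · unfold Core at hx
      rw [Set.mem_setOf_eq, not_forall] at hx
      obtain ⟨m, hm⟩ := hx
      exact ⟨m, Or.inr hm⟩
  choose f hf using h
  have : Fintype V := Fintype.ofFinite V
  refine ⟨Finset.univ.sup f, fun x hx => ?_⟩
  rcases hf x with h1 | h1
  · exact h1
  · exact absurd (lev_anti ha hP (Finset.le_sup (f := f) (Finset.mem_univ x)) hx) h1

/-- every element of the core lies in a minimal image inside the core -/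
lemma exists_FC_core (ha : Typed s t σ a) (hcn : Conn s σ a) {I : K} {P : Set (List E)}
    (hP : ∀ w ∈ P, Valid s t I w ∧ fin t I w = I) {Ev : Set V}
    (h1 : ∀ m, ∀ x ∈ Ev, x ∈ Lev σ a I P m) (h2 : ∃ m, Lev σ a I P m ⊆ Ev) {x₀ : V}
    (hx₀ : x₀ ∈ Ev) : ∃ Q, IsFC s t σ a Q ∧ x₀ ∈ Q ∧ Q ⊆ Ev := by
  obtain ⟨m, hm⟩ := h2
  obtain ⟨y, hy, ws, hlen, hws, hx⟩ := h1 m x₀ hx₀
  obtain ⟨Q, hQ, hyQ⟩ := exists_FC (s := s) (t := t) ha hcn y
  obtain ⟨h3, -⟩ := closed_flatten hP ws hws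
  refine ⟨_, hQ.image ha hyQ (v := ws.flatten) (by rw [hy]; exact h3), ⟨y, hyQ, hx⟩, ?_⟩
  rintro _ ⟨q, hq, rfl⟩
  exact hm ⟨q, by rw [hQ.type ha hq hyQ, hy], ws, hlen, hws, rfl⟩

/-- **A unique highest tree gives a stable pair.** -/
theorem stable_of_uht (ha : Typed s t σ a) (hcn : Conn s σ a) {I : K} {P : Set (List E)}
    (hP : ∀ w ∈ P, Valid s t I w ∧ fin t I w = I) {Ev : Set V}
    (h1 : ∀ m, ∀ x ∈ Ev, x ∈ Lev σ a I P m) (h2 : ∃ m, Lev σ a I P m ⊆ Ev)
    {w : List E} (hw : w ∈ P) {k : ℕ} {x₀ z : V} (hx₀ : x₀ ∈ Ev)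
    (hz : ((fun x => run a x w)^[k]) x₀ = z)
    (hnp : ∀ n, 0 < n → ((fun x => run a x w)^[n]) z ≠ z)
    (hall : ∀ x ∈ Ev, ((fun x => run a x w)^[k]) x = z ∨
      ∃ n, 0 < n ∧ ((fun x => run a x w)^[n]) (((fun x => run a x w)^[k]) x) =
        ((fun x => run a x w)^[k]) x) :
    ∃ z', z' ≠ z ∧ Stable s t σ a z z' := by
  obtain ⟨Q, hQ, hxQ, hQE⟩ := exists_FC_core ha hcn hP h1 h2 hx₀
  set h : V → V := fun x => run a x w with hh
  have hrep : ∀ n, ∀ v ∈ List.replicate n w, v ∈ P := by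
    intro n v hv
    rw [(List.mem_replicate.1 hv).2]; exact hw
  have hval : ∀ n, Valid s t I (List.replicate n w).flatten ∧
      fin t I (List.replicate n w).flatten = I := fun n =>
    closed_flatten hP _ (hrep n)
  have hx₀I : σ x₀ = I := by
    obtain ⟨y, hy, ws, _, hws, hx⟩ := h1 0 x₀ hx₀
    obtain ⟨h3, h4⟩ := closed_flatten hP ws hws
    rw [← hx, ha.run y _ (by rw [hy]; exact h3), hy, h4]
  have hiter : ∀ n (T : Set V), IsFC s t σ a T → (∃ x ∈ T, σ x = I) →
      IsFC s t σ a ((h^[n]) '' T) ∧ (∀ x ∈ (h^[n]) '' T, σ x = I) := by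
    rintro n T hT ⟨x, hx, hxI⟩
    have h3 : (h^[n]) '' T = (fun p => run a p (List.replicate n w).flatten) '' T := by
      refine Set.image_congr fun p _ => ?_
      exact iterate_run w n p
    rw [h3]
    refine ⟨hT.image ha hx (by rw [hxI]; exact (hval n).1), ?_⟩
    rintro _ ⟨q, hq, rfl⟩
    have hqI : σ q = I := by rw [hT.type ha hq hx, hxI]
    simp only
    rw [ha.run q _ (by rw [hqI]; exact (hval n).1), hqI, (hval n).2]
  obtain ⟨hR, hRI⟩ := hiter k Q hQ ⟨x₀, hxQ, hx₀I⟩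
  set R := (h^[k]) '' Q with hRdef
  have hzR : z ∈ R := ⟨x₀, hxQ, hz⟩
  have hper : ∀ r ∈ R, r ≠ z → ∃ n, 0 < n ∧ (h^[n]) r = r := by
    rintro _ ⟨q, hq, rfl⟩ hne
    rcases hall q (hQE hq) with h3 | h3
    · exact absurd h3 hne
    · exact h3
  -- a common period
  have hcom : ∃ M, 0 < M ∧ ∀ r ∈ R, r ≠ z → (h^[M]) r = r := by
    have h3 : ∀ r : V, ∃ n, 0 < n ∧ (r ∈ R → r ≠ z → (h^[n]) r = r) := by
      intro r
      by_cases hr : r ∈ R ∧ r ≠ z
      · obtain ⟨n, hn, hn'⟩ := hper r hr.1 hr.2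
        exact ⟨n, hn, fun _ _ => hn'⟩
      · refine ⟨1, one_pos, fun h4 h5 => absurd ⟨h4, h5⟩ hr⟩
    choose f hf0 hf using h3
    have : Fintype V := Fintype.ofFinite V
    refine ⟨∏ r, f r, Finset.prod_pos fun r _ => hf0 r, fun r hr hrz => ?_⟩
    have h4 : Function.IsPeriodicPt h (f r) r := hf r hr hrz
    exact h4.trans_dvd (Finset.dvd_prod_of_mem f (Finset.mem_univ r))
  obtain ⟨M, hM0, hM⟩ := hcom
  obtain ⟨hR', hRI'⟩ := hiter M R hR ⟨z, hzR, hRI z hzR⟩
  have hzz' : (h^[M]) z ≠ z := hnp M hM0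
  have hd := hR.deadSet ha
  have hd' := hR'.deadSet ha
  refine ⟨(h^[M]) z, hzz', ?_⟩
  have hins : insert z (R \ {z}) = R := by
    rw [Set.insert_diff_singleton, Set.insert_eq_of_mem hzR]
  refine stable_of_swap ha hcn (Z := R \ {z}) (x := z) (y := (h^[M]) z) ?_ ?_ ?_ ?_ ?_ ?_
  · simp
  · rintro ⟨h3, h4⟩
    rw [Set.mem_singleton_iff] at h4
    have h5 := hM _ h3 h4
    have hinj : Set.InjOn (fun p => run a p (List.replicate M w).flatten) R :=
      hd.injOn (k := I) hRI (hval M).1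
    apply h4
    refine (hinj hzR h3 ?_).symm
    simp only
    rw [← iterate_run, ← iterate_run]
    exact h5.symm
  · rw [hRI z hzR, hRI' _ ⟨z, hzR, rfl⟩]
  · rw [hins]; exact hd
  · intro x hx y hy hxy
    have hmem : ∀ u ∈ insert ((h^[M]) z) (R \ {z}), u ∈ (h^[M]) '' R := by
      intro u hu
      rcases hu with rfl | ⟨hu, hu'⟩
      · exact ⟨z, hzR, rfl⟩
      · exact ⟨u, hu, hM u hu hu'⟩
    exact hd' x (hmem x hx) y (hmem y hy) hxy
  · rw [hins]
    obtain ⟨_, _, _, _, hr⟩ := hR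
    exact hr

end Pool.Agent.H26.Bunchy
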